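import Pool.Agent.Helper71.Torus

set_option autoImplicit false
open MeasureTheory Set ComplexConjugate

namespace Pool.Agent.Helper71

noncomputable section

abbrev E2 := EuclideanSpace ℝ (Fin 2)

lemma mp_toLp : MeasurePreserving (MeasurableEquiv.toLp 2 (Fin 2 → ℝ)) volume volume :=
  PiLp.volume_preserving_toLp (Fin 2)

lemma integral_E2 (f : E2 → ℂ) : ∫ v : E2, f v = ∫ x : Fin 2 → ℝ, f (WithLp.toLp 2 x) :=
  (mp_toLp.integral_comp' f).symm

lemma integral_prod_E2 (F G : ℝ → ℂ) :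
    ∫ v : E2, F (v 0) * G (v 1) = (∫ x, F x) * ∫ y, G y := by
  rw [integral_E2]
  have := MeasureTheory.integral_fintype_prod_volume_eq_prod (ι := Fin 2) (E := fun _ => ℝ)
    (fun i => if i = 0 then F else G)
  simpa [Fin.prod_univ_two] using this

lemma integrable_prod_E2 (F G : ℝ → ℂ) (hF : Integrable F) (hG : Integrable G) :
    Integrable (fun v : E2 => F (v 0) * G (v 1)) := by
  have h1 : Integrable (fun x : Fin 2 → ℝ => F (x 0) * G (x 1)) := by
    have := MeasureTheory.Integrable.fintype_prod (ι := Fin 2) (E := ℝ)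
      (f := fun i => if i = 0 then F else G) (μ := fun _ => volume) (by
        intro i
        by_cases h : i = 0
        · simpa [h] using hF
        · simpa [h] using hG)
    simpa [Fin.prod_univ_two, volume_pi] using this
  have h2 := (mp_toLp.symm).integrable_comp_emb (MeasurableEquiv.measurableEmbedding _)
    (g := fun x : Fin 2 → ℝ => F (x 0) * G (x 1))
  exact h2.2 h1

/-- indicator of the unit interval -/
def chi (x : ℝ) : ℂ := (Ioc (0:ℝ) 1).indicator (fun _ => (1:ℂ)) x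

lemma chi_shift (x : ℝ) (a : ℝ) : chi (x - a) = (Ioc a (a+1)).indicator (fun _ => (1:ℂ)) x := by
  unfold chi
  by_cases h : x ∈ Ioc a (a+1)
  · rw [indicator_of_mem h, indicator_of_mem]
    constructor <;> linarith [h.1, h.2]
  · rw [indicator_of_notMem h, indicator_of_notMem]
    intro h'
    apply h
    constructor <;> linarith [h'.1, h'.2]

/-- exponential -/
def ex (σ x : ℝ) : ℂ := Complex.exp (2 * Real.pi * Complex.I * ((σ * x : ℝ) : ℂ))

lemma continuous_ex (σ : ℝ) : Continuous (ex σ) := by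
  unfold ex
  fun_prop

lemma ex_add (σ x y : ℝ) : ex σ (x + y) = ex σ x * ex σ y := by
  unfold ex
  rw [← Complex.exp_add]
  congr 1
  push_cast
  ring

lemma ex_add' (σ τ x : ℝ) : ex (σ + τ) x = ex σ x * ex τ x := by
  unfold ex
  rw [← Complex.exp_add]
  congr 1
  push_cast
  ring

lemma ex_int (m n : ℤ) : ex m n = 1 := by
  unfold ex
  rw [Complex.exp_eq_one_iff]
  exact ⟨m * n, by push_cast; ring⟩

lemma norm_ex (σ x : ℝ) : ‖ex σ x‖ = 1 := by
  unfold ex
  rw [Complex.norm_exp]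
  simp

/-- the basic one-dimensional integral -/
def A (a b σ : ℝ) : ℂ := ∫ x, chi (x - a) * chi (x - b) * ex σ x

lemma A_integrable (a b σ : ℝ) : Integrable (fun x => chi (x - a) * chi (x - b) * ex σ x) := by
  have : (fun x => chi (x - a) * chi (x - b) * ex σ x) =
      (Ioc a (a+1)).indicator (fun x => (chi (x - b) * ex σ x)) := by
    funext x
    rw [chi_shift x a]
    by_cases h : x ∈ Ioc a (a+1)
    · rw [indicator_of_mem h, indicator_of_mem h]; ring
    · rw [indicator_of_notMem h, indicator_of_notMem h]; ring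
  rw [this, integrable_indicator_iff measurableSet_Ioc]
  apply Measure.integrableOn_of_bounded (M := 1)
  · simp
  · apply AEStronglyMeasurable.mul
    · have : Measurable (fun x => chi (x - b)) := by
        unfold chi
        exact (measurable_const.indicator measurableSet_Ioc).comp (measurable_id.sub_const b)
      exact this.aestronglyMeasurable
    · exact (continuous_ex σ).aestronglyMeasurable
  · filter_upwards with x
    rw [norm_mul, norm_ex, mul_one, chi_shift]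
    unfold indicator
    split_ifs <;> simp

lemma A_ne (a b : ℤ) (σ : ℝ) (h : a ≠ b) : A a b σ = 0 := by
  unfold A
  apply integral_eq_zero_of_ae
  filter_upwards with x
  rw [chi_shift, chi_shift]
  have : x ∉ Ioc (a:ℝ) (a+1) ∨ x ∉ Ioc (b:ℝ) (b+1) := by
    by_contra hc
    push Not at hc
    obtain ⟨h1, h2⟩ := hc
    apply h
    have e1 : ⌈x⌉ = a + 1 := by
      rw [Int.ceil_eq_iff]; push_cast; constructor <;> linarith [h1.1, h1.2]
    have e2 : ⌈x⌉ = b + 1 := by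
      rw [Int.ceil_eq_iff]; push_cast; constructor <;> linarith [h2.1, h2.2]
    linarith
  rcases this with h1 | h1
  · rw [indicator_of_notMem h1]; simp
  · rw [indicator_of_notMem h1]; simp

lemma A_eq (a : ℝ) (σ : ℝ) : A a a σ = ∫ x in a..(a+1), ex σ x := by
  unfold A
  rw [intervalIntegral.integral_of_le (by linarith), ← integral_indicator measurableSet_Ioc]
  congr 1
  funext x
  rw [chi_shift]
  by_cases h : x ∈ Ioc a (a+1)
  · rw [indicator_of_mem h, indicator_of_mem h]; ring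
  · rw [indicator_of_notMem h, indicator_of_notMem h]; ring

lemma integral_ex (a b σ : ℝ) (hσ : σ ≠ 0) :
    ∫ x in a..b, ex σ x = (ex σ b - ex σ a) / (2 * Real.pi * Complex.I * σ) := by
  have hc : (2 * Real.pi * Complex.I * σ : ℂ) ≠ 0 := by
    simp [Real.pi_ne_zero, hσ]
  have : ∀ x : ℝ, ex σ x = Complex.exp ((2 * Real.pi * Complex.I * σ) * x) := by
    intro x
    unfold ex
    congr 1
    push_cast
    ring
  simp only [this]
  rw [integral_exp_mul_complex hc]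

lemma A_int (a b m : ℤ) : A a b m = if a = b ∧ m = 0 then 1 else 0 := by
  by_cases hab : a = b
  · subst hab
    rw [A_eq]
    by_cases hm : m = 0
    · subst hm
      simp [ex]
    · rw [integral_ex _ _ _ (by exact_mod_cast hm)]
      have h1 : ex m ((a:ℝ) + 1) = 1 := by
        have := ex_int m (a+1)
        push_cast at this
        exact this
      rw [h1, ex_int]
      simp [hm]
  · rw [A_ne _ _ _ hab]
    simp [hab]

lemma A_half (a n : ℤ) : A a a (n/2) + A ((a + 1 : ℤ):ℝ) ((a + 1 : ℤ):ℝ) (n/2) =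
    if n = 0 then 2 else 0 := by
  rw [A_eq, A_eq]
  have : ((a + 1 : ℤ) : ℝ) = (a:ℝ) + 1 := by push_cast; ring
  rw [this, intervalIntegral.integral_add_adjacent_intervals
    ((continuous_ex _).intervalIntegrable _ _) ((continuous_ex _).intervalIntegrable _ _)]
  by_cases hn : n = 0
  · subst hn
    simp [ex]
    ring
  · rw [integral_ex _ _ _ (by simpa using hn)]
    have h1 : ex (n/2) ((a:ℝ) + 1 + 1) = ex (n/2) a := by
      have : (a:ℝ) + 1 + 1 = a + 2 := by ring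
      rw [this, ex_add]
      have : ex (n/2) 2 = 1 := by
        have := ex_int n 1
        rw [← this]
        unfold ex
        congr 2
        push_cast
        ring
      rw [this, mul_one]
    rw [h1]
    simp [hn]

/-- coefficients of the window -/
def cc (i j : Fin 2) : ℂ := if i = 0 then (if j = 0 then 1/10 else -7/10)
  else (if j = 0 then 7/10 else 1/10)

/-- the window -/
def g (v : E2) : ℂ :=
  ∑ i : Fin 2, ∑ j : Fin 2, cc i j * (chi (v 0 - (i : ℕ)) * chi (v 1 - (j : ℕ)))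

lemma conj_chi (x : ℝ) : conj (chi x) = chi x := by
  unfold chi indicator
  split_ifs <;> simp

lemma conj_cc (i j : Fin 2) : conj (cc i j) = cc i j := by
  unfold cc
  split_ifs <;> simp [map_ofNat]

lemma conj_g (v : E2) : conj (g v) = g v := by
  unfold g
  simp only [map_sum, map_mul, conj_chi, conj_cc]

lemma conj_ex (σ x : ℝ) : conj (ex σ x) = ex (-σ) x := by
  unfold ex
  rw [← Complex.exp_conj]
  congr 1
  simp [map_ofNat]

/-- the full exponential -/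
lemma exp_inner (s x : E2) : Complex.exp (2 * Real.pi * Complex.I * ((@inner ℝ _ _ s x : ℝ) : ℂ)) =
    ex (s 0) (x 0) * ex (s 1) (x 1) := by
  unfold ex
  rw [← Complex.exp_add]
  congr 1
  simp only [PiLp.inner_apply, Fin.sum_univ_two, RCLike.inner_apply, conj_trivial]
  push_cast
  ring

lemma gram (t₁ s₁ t₂ s₂ : E2) :
    ∫ x, (g (x - t₁) * Complex.exp (2 * Real.pi * Complex.I * ((@inner ℝ _ _ s₁ x : ℝ) : ℂ))) *
          conj (g (x - t₂) * Complex.exp (2 * Real.pi * Complex.I * ((@inner ℝ _ _ s₂ x : ℝ) : ℂ))) =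
    ∑ i : Fin 2, ∑ j : Fin 2, ∑ i' : Fin 2, ∑ j' : Fin 2, cc i j * cc i' j' *
      (A (t₁ 0 + (i:ℕ)) (t₂ 0 + (i':ℕ)) (s₁ 0 - s₂ 0) *
        A (t₁ 1 + (j:ℕ)) (t₂ 1 + (j':ℕ)) (s₁ 1 - s₂ 1)) := by
  have hpt : ∀ x : E2, (g (x - t₁) * Complex.exp (2 * Real.pi * Complex.I * ((@inner ℝ _ _ s₁ x : ℝ) : ℂ))) *
          conj (g (x - t₂) * Complex.exp (2 * Real.pi * Complex.I * ((@inner ℝ _ _ s₂ x : ℝ) : ℂ))) =
      ∑ i : Fin 2, ∑ j : Fin 2, ∑ i' : Fin 2, ∑ j' : Fin 2, cc i j * cc i' j' *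
      ((chi (x 0 - (t₁ 0 + (i:ℕ))) * chi (x 0 - (t₂ 0 + (i':ℕ))) * ex (s₁ 0 - s₂ 0) (x 0)) *
       (chi (x 1 - (t₁ 1 + (j:ℕ))) * chi (x 1 - (t₂ 1 + (j':ℕ))) * ex (s₁ 1 - s₂ 1) (x 1))) := by
    intro x
    rw [map_mul, conj_g, exp_inner, exp_inner, map_mul, conj_ex, conj_ex, sub_eq_add_neg (s₁ 0),
      sub_eq_add_neg (s₁ 1), ex_add', ex_add']
    unfold g
    simp only [Fin.sum_univ_two, PiLp.sub_apply, sub_add_eq_sub_sub]
    ring
  simp only [hpt]
  have hint : ∀ i j i' j' : Fin 2, Integrable (fun x : E2 => cc i j * cc i' j' *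
      ((chi (x 0 - (t₁ 0 + (i:ℕ))) * chi (x 0 - (t₂ 0 + (i':ℕ))) * ex (s₁ 0 - s₂ 0) (x 0)) *
       (chi (x 1 - (t₁ 1 + (j:ℕ))) * chi (x 1 - (t₂ 1 + (j':ℕ))) * ex (s₁ 1 - s₂ 1) (x 1)))) := by
    intro i j i' j'
    apply Integrable.const_mul
    exact integrable_prod_E2 _ _ (A_integrable _ _ _) (A_integrable _ _ _)
  rw [integral_finsetSum _ (fun i _ => integrable_finsetSum _ (fun j _ =>
    integrable_finsetSum _ (fun i' _ => integrable_finsetSum _ (fun j' _ => hint i j i' j'))))]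
  refine Finset.sum_congr rfl (fun i _ => ?_)
  rw [integral_finsetSum _ (fun j _ =>
    integrable_finsetSum _ (fun i' _ => integrable_finsetSum _ (fun j' _ => hint i j i' j')))]
  refine Finset.sum_congr rfl (fun j _ => ?_)
  rw [integral_finsetSum _ (fun i' _ => integrable_finsetSum _ (fun j' _ => hint i j i' j'))]
  refine Finset.sum_congr rfl (fun i' _ => ?_)
  rw [integral_finsetSum _ (fun j' _ => hint i j i' j')]
  refine Finset.sum_congr rfl (fun j' _ => ?_)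
  rw [integral_const_mul]
  congr 1
  exact integral_prod_E2
    (fun y => chi (y - (t₁ 0 + (i:ℕ))) * chi (y - (t₂ 0 + (i':ℕ))) * ex (s₁ 0 - s₂ 0) y)
    (fun y => chi (y - (t₁ 1 + (j:ℕ))) * chi (y - (t₂ 1 + (j':ℕ))) * ex (s₁ 1 - s₂ 1) y)

def TT : Set E2 := {v | ∃ k l : ℤ, v 0 = 2 * k ∧ v 1 = l}
def SS : Set E2 := {v | ∃ m n : ℤ, v 0 = m ∧ v 1 = n / 2}

lemma A_parity (k₁ k₂ m : ℤ) (i i' : Fin 2) :
    A (2 * k₁ + (i:ℕ)) (2 * k₂ + (i':ℕ)) m = if k₁ = k₂ ∧ i = i' ∧ m = 0 then 1 else 0 := by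
  have h := A_int (2 * k₁ + (i:ℕ)) (2 * k₂ + (i':ℕ)) m
  push_cast at h
  rw [h]
  congr 1
  apply propext
  have := i.2
  have := i'.2
  constructor
  · rintro ⟨h1, h2⟩
    refine ⟨by omega, ?_, h2⟩
    apply Fin.ext
    omega
  · rintro ⟨h1, h2, h3⟩
    subst h1 h2 h3
    simp

lemma gram_value (t₁ s₁ t₂ s₂ : E2) (k₁ l₁ k₂ l₂ m₁ n₁ m₂ n₂ : ℤ)
    (h1 : t₁ 0 = 2 * k₁) (h2 : t₁ 1 = l₁) (h3 : t₂ 0 = 2 * k₂) (h4 : t₂ 1 = l₂)
    (h5 : s₁ 0 = m₁) (h6 : s₁ 1 = n₁ / 2) (h7 : s₂ 0 = m₂) (h8 : s₂ 1 = n₂ / 2) :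
    ∫ x, (g (x - t₁) * Complex.exp (2 * Real.pi * Complex.I * ((@inner ℝ _ _ s₁ x : ℝ) : ℂ))) *
          conj (g (x - t₂) * Complex.exp (2 * Real.pi * Complex.I * ((@inner ℝ _ _ s₂ x : ℝ) : ℂ))) =
    if k₁ = k₂ ∧ l₁ = l₂ ∧ m₁ = m₂ ∧ n₁ = n₂ then 1 else 0 := by
  rw [gram, h1, h2, h3, h4, h5, h6, h7, h8]
  have e1 : (m₁ : ℝ) - m₂ = ((m₁ - m₂ : ℤ) : ℝ) := by push_cast; ring
  have e2 : (n₁ : ℝ) / 2 - n₂ / 2 = ((n₁ - n₂ : ℤ) : ℝ) / 2 := by push_cast; ring
  rw [e1, e2]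
  simp only [A_parity]
  by_cases hk : k₁ = k₂
  · by_cases hm : m₁ - m₂ = 0
    · have hm' : m₁ = m₂ := by omega
      simp only [Fin.sum_univ_two, hk, hm, true_and, and_true, Fin.val_zero, Fin.val_one, if_true,
        Nat.cast_zero, Nat.cast_one, add_zero, zero_ne_one, one_ne_zero, if_false, zero_mul, mul_zero,
        one_mul, zero_add]
      by_cases hl : l₁ = l₂
      · subst hl
        have hA := A_half l₁ (n₁ - n₂)
        have e3 : A (l₁:ℝ) ((l₁:ℝ) + 1) (((n₁ - n₂ : ℤ) : ℝ) / 2) = 0 := by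
          have := A_ne l₁ (l₁ + 1) (((n₁ - n₂ : ℤ) : ℝ) / 2) (by omega)
          push_cast at this ⊢
          exact this
        have e4 : A ((l₁:ℝ) + 1) (l₁:ℝ) (((n₁ - n₂ : ℤ) : ℝ) / 2) = 0 := by
          have := A_ne (l₁ + 1) l₁ (((n₁ - n₂ : ℤ) : ℝ) / 2) (by omega)
          push_cast at this ⊢
          exact this
        rw [e3, e4]
        have e5 : (((l₁ + 1 : ℤ)) : ℝ) = (l₁:ℝ) + 1 := by push_cast; ring
        rw [e5] at hA
        simp only [cc, if_true, one_ne_zero, if_false, mul_zero, add_zero, zero_add, hm', true_and]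
        by_cases hn : n₁ = n₂
        · simp only [hn, sub_self, if_true] at hA ⊢
          linear_combination (1/2) * hA
        · have hn' : ¬ (n₁ - n₂ = 0) := by omega
          simp only [hn', hn, if_false] at hA ⊢
          linear_combination (1/2) * hA
      · simp only [hl, false_and, if_false]
        have e0 : A (l₁:ℝ) (l₂:ℝ) (((n₁ - n₂ : ℤ) : ℝ) / 2) = 0 := A_ne _ _ _ hl
        have e1 : A ((l₁:ℝ)+1) ((l₂:ℝ)+1) (((n₁ - n₂ : ℤ) : ℝ) / 2) = 0 := by
          have := A_ne (l₁ + 1) (l₂ + 1) (((n₁ - n₂ : ℤ) : ℝ) / 2) (by omega)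
          push_cast at this ⊢
          exact this
        rw [e0, e1]
        simp only [cc, if_true, one_ne_zero, if_false, mul_zero, add_zero, zero_add]
        ring
    · have hm' : ¬ (m₁ = m₂) := by omega
      simp [hm, hm']
  · simp [hk]

lemma orth : ∀ t₁ ∈ TT, ∀ s₁ ∈ SS, ∀ t₂ ∈ TT, ∀ s₂ ∈ SS, (t₁ ≠ t₂ ∨ s₁ ≠ s₂) →
    ∫ x, (g (x - t₁) * Complex.exp (2 * Real.pi * Complex.I * ((@inner ℝ _ _ s₁ x : ℝ) : ℂ))) *
      conj (g (x - t₂) * Complex.exp (2 * Real.pi * Complex.I * ((@inner ℝ _ _ s₂ x : ℝ) : ℂ))) = 0 := by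
  rintro t₁ ⟨k₁, l₁, h1, h2⟩ s₁ ⟨m₁, n₁, h5, h6⟩ t₂ ⟨k₂, l₂, h3, h4⟩ s₂ ⟨m₂, n₂, h7, h8⟩ hne
  rw [gram_value t₁ s₁ t₂ s₂ k₁ l₁ k₂ l₂ m₁ n₁ m₂ n₂ h1 h2 h3 h4 h5 h6 h7 h8, if_neg]
  rintro ⟨rfl, rfl, rfl, rfl⟩
  rcases hne with h | h
  · apply h
    ext i
    fin_cases i
    · simp [h1, h3]
    · simp [h2, h4]
  · apply h
    ext i
    fin_cases i
    · simp [h5, h7]
    · simp [h6, h8]

lemma norm_one : ∀ t ∈ TT, ∀ s ∈ SS,
    ∫ x, (g (x - t) * Complex.exp (2 * Real.pi * Complex.I * ((@inner ℝ _ _ s x : ℝ) : ℂ))) *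
      conj (g (x - t) * Complex.exp (2 * Real.pi * Complex.I * ((@inner ℝ _ _ s x : ℝ) : ℂ))) = 1 := by
  rintro t₁ ⟨k₁, l₁, h1, h2⟩ s₁ ⟨m₁, n₁, h5, h6⟩
  rw [gram_value t₁ s₁ t₁ s₁ k₁ l₁ k₁ l₁ m₁ n₁ m₁ n₁ h1 h2 h1 h2 h5 h6 h5 h6, if_pos]
  simp

end

end Pool.Agent.Helper71
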