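import Pool.Agent.Helper71.Gabor

set_option autoImplicit false
open MeasureTheory Set ComplexConjugate

namespace Pool.Agent.Helper71

noncomputable section

lemma mem_cube (y : Fin 2 → ℝ) : y ∈ cube ↔ y 0 ∈ Ioc (0:ℝ) 1 ∧ y 1 ∈ Ioc (0:ℝ) 1 := by
  unfold cube
  simp

lemma chi_cube (y : Fin 2 → ℝ) : chi (y 0) * chi (y 1) = cube.indicator (fun _ => (1:ℂ)) y := by
  by_cases hy : y ∈ cube
  · rw [indicator_of_mem hy]
    rw [mem_cube] at hy
    unfold chi
    rw [indicator_of_mem hy.1, indicator_of_mem hy.2, one_mul]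
  · rw [indicator_of_notMem hy]
    rw [mem_cube, not_and_or] at hy
    unfold chi
    rcases hy with h | h
    · rw [indicator_of_notMem h, zero_mul]
    · rw [indicator_of_notMem h, mul_zero]

/-- shift vector -/
def sh (a b : ℝ) : Fin 2 → ℝ := ![a, b]

lemma sh_zero (a b : ℝ) : sh a b 0 = a := rfl
lemma sh_one (a b : ℝ) : sh a b 1 = b := rfl

lemma shift_fun (F G : (Fin 2 → ℝ) → ℂ) (a b : ℝ) (y : Fin 2 → ℝ) :
    F (y + sh a b) * (chi ((y + sh a b) 0 - a) * chi ((y + sh a b) 1 - b)) * G (y + sh a b) =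
    cube.indicator (fun y => F (y + sh a b) * G (y + sh a b)) y := by
  have e0 : (y + sh a b) 0 - a = y 0 := by simp [sh]
  have e1 : (y + sh a b) 1 - b = y 1 := by simp [sh]
  rw [e0, e1, chi_cube]
  by_cases h : y ∈ cube
  · rw [indicator_of_mem h, indicator_of_mem h]; ring
  · rw [indicator_of_notMem h, indicator_of_notMem h]; ring

lemma shift_integral (F G : (Fin 2 → ℝ) → ℂ) (a b : ℝ) :
    ∫ x, F x * (chi (x 0 - a) * chi (x 1 - b)) * G x =
      ∫ y in cube, F (y + sh a b) * G (y + sh a b) := by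
  rw [← integral_add_right_eq_self _ (sh a b), ← integral_indicator measurableSet_cube]
  congr 1
  funext y
  exact shift_fun F G a b y

lemma memLp_shift (F : (Fin 2 → ℝ) → ℂ) (hF : MemLp F 2 volume) (w : Fin 2 → ℝ) :
    MemLp (fun y => F (y + w)) 2 (volume.restrict cube) := by
  have h : MemLp (fun y => F (y + w)) 2 volume :=
    hF.comp_measurePreserving (measurePreserving_add_right volume w)
  exact h.restrict cube

lemma cube_finite : volume cube < ⊤ := by
  have : cube = Set.pi univ (fun _ : Fin 2 => Ioc (0:ℝ) 1) := by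
    ext y
    rw [mem_cube]
    simp
  rw [this, Real.volume_pi_Ioc]
  simp

instance : IsFiniteMeasure (volume.restrict cube) := ⟨by simpa using cube_finite⟩

lemma shift_integrable (F G : (Fin 2 → ℝ) → ℂ) (hF : MemLp F 2 volume) (hG : Continuous G)
    (hG1 : ∀ x, ‖G x‖ ≤ 1) (a b : ℝ) :
    Integrable (fun x => F x * (chi (x 0 - a) * chi (x 1 - b)) * G x) := by
  rw [← (measurePreserving_add_right volume (sh a b)).integrable_comp_emb
    (measurableEmbedding_addRight _)]
  have : ((fun x => F x * (chi (x 0 - a) * chi (x 1 - b)) * G x) ∘ fun x => x + sh a b) =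
    cube.indicator (fun y => F (y + sh a b) * G (y + sh a b)) := by
    funext y
    exact shift_fun F G a b y
  rw [this, integrable_indicator_iff measurableSet_cube]
  have h1 : Integrable (fun y => F (y + sh a b)) (volume.restrict cube) :=
    (memLp_shift F hF (sh a b)).integrable (by norm_num)
  apply h1.mul_bdd (c := 1)
  · exact (hG.comp (continuous_add_const _)).aestronglyMeasurable
  · filter_upwards with y
    exact hG1 _

/-- two rows -/
def PP (F : (Fin 2 → ℝ) → ℂ) (k l : ℤ) (j : Fin 2) (y : Fin 2 → ℝ) : ℂ :=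
  ∑ i : Fin 2, cc i j * F (y + sh (2 * k + (i:ℕ)) (l + (j:ℕ)))

lemma memLp_PP (F : (Fin 2 → ℝ) → ℂ) (hF : MemLp F 2 volume) (k l : ℤ) (j : Fin 2) :
    MemLp (PP F k l j) 2 (volume.restrict cube) := by
  unfold PP
  exact memLp_finsetSum _ (fun i _ => (memLp_shift F hF _).const_mul _)

/-- the inner product of `f` with an element of the system -/
lemma inner_formula (f : E2 → ℂ) (hf : MemLp f 2 volume) (t s : E2) (k l m n : ℤ)
    (h1 : t 0 = 2 * k) (h2 : t 1 = l) (h5 : s 0 = m) (h6 : s 1 = n / 2) :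
    ∫ x, f x * conj (g (x - t) * Complex.exp (2 * Real.pi * Complex.I * ((@inner ℝ _ _ s x : ℝ) : ℂ)))
    = ∑ j : Fin 2, ∑ i : Fin 2, cc i j * ∫ y in cube,
      f (WithLp.toLp 2 (y + sh (2 * k + (i:ℕ)) (l + (j:ℕ)))) *
       (ex (-m) (y 0 + (2 * k + (i:ℕ))) * ex (-(n/2)) (y 1 + (l + (j:ℕ)))) := by
  rw [integral_E2]
  set F : (Fin 2 → ℝ) → ℂ := fun x => f (WithLp.toLp 2 x) with hFdef
  have hF : MemLp F 2 volume := hf.comp_measurePreserving mp_toLp
  have hpt : ∀ x : Fin 2 → ℝ, f (WithLp.toLp 2 x) * conj (g (WithLp.toLp 2 x - t) *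
      Complex.exp (2 * Real.pi * Complex.I * ((@inner ℝ _ _ s (WithLp.toLp 2 x) : ℝ) : ℂ))) =
      ∑ j : Fin 2, ∑ i : Fin 2, cc i j *
        (F x * (chi (x 0 - (2 * k + (i:ℕ))) * chi (x 1 - (l + (j:ℕ)))) *
          (ex (-m) (x 0) * ex (-(n/2)) (x 1))) := by
    intro x
    rw [map_mul, conj_g, exp_inner, map_mul, conj_ex, conj_ex, h5, h6]
    unfold g
    simp only [Fin.sum_univ_two, PiLp.sub_apply, h1, h2, sub_add_eq_sub_sub, F]
    ring
  simp only [hpt]
  have hint : ∀ i j : Fin 2, Integrable (fun x : Fin 2 → ℝ => cc i j *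
        (F x * (chi (x 0 - (2 * k + (i:ℕ))) * chi (x 1 - (l + (j:ℕ)))) *
          (ex (-m) (x 0) * ex (-(n/2)) (x 1)))) := by
    intro i j
    apply Integrable.const_mul
    apply shift_integrable F (fun x => ex (-m) (x 0) * ex (-(n/2)) (x 1)) hF
    · exact ((continuous_ex _).comp (continuous_apply 0)).mul
        ((continuous_ex _).comp (continuous_apply 1))
    · intro x
      rw [norm_mul, norm_ex, norm_ex, one_mul]
  rw [integral_finsetSum _ (fun j _ => integrable_finsetSum _ (fun i _ => hint i j))]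
  refine Finset.sum_congr rfl (fun j _ => ?_)
  rw [integral_finsetSum _ (fun i _ => hint i j)]
  refine Finset.sum_congr rfl (fun i _ => ?_)
  rw [integral_const_mul]
  congr 1
  rw [shift_integral F (fun x => ex (-m) (x 0) * ex (-(n/2)) (x 1))]
  simp [F, sh]

lemma integrable_piece (F : (Fin 2 → ℝ) → ℂ) (hF : MemLp F 2 volume) (a b σ τ : ℝ) :
    Integrable (fun y => F (y + sh a b) * (ex σ (y 0) * ex τ (y 1))) (volume.restrict cube) := by
  have h1 : Integrable (fun y => F (y + sh a b)) (volume.restrict cube) :=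
    (memLp_shift F hF (sh a b)).integrable (by norm_num)
  apply h1.mul_bdd (c := 1)
  · exact (((continuous_ex _).comp (continuous_apply 0)).mul
        ((continuous_ex _).comp (continuous_apply 1))).aestronglyMeasurable
  · filter_upwards with y
    rw [norm_mul, norm_ex, norm_ex, one_mul]

/-- completeness step -/
lemma rows_zero (f : E2 → ℂ) (hf : MemLp f 2 volume)
    (h : ∀ t ∈ TT, ∀ s ∈ SS, ∫ x, f x * conj (g (x - t) *
      Complex.exp (2 * Real.pi * Complex.I * ((@inner ℝ _ _ s x : ℝ) : ℂ))) = 0) (k l : ℤ) :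
    (∀ᵐ y ∂(volume.restrict cube), PP (fun x => f (WithLp.toLp 2 x)) k l 0 y = 0) ∧
    (∀ᵐ y ∂(volume.restrict cube), PP (fun x => f (WithLp.toLp 2 x)) k l 1 y = 0) := by
  set F : (Fin 2 → ℝ) → ℂ := fun x => f (WithLp.toLp 2 x) with hFdef
  have hF : MemLp F 2 volume := hf.comp_measurePreserving mp_toLp
  have key : ∀ m n : ℤ, ∑ j : Fin 2, ∑ i : Fin 2, cc i j * ∫ y in cube,
      F (y + sh (2 * k + (i:ℕ)) (l + (j:ℕ))) *
       (ex (-m) (y 0 + (2 * k + (i:ℕ))) * ex (-(n/2)) (y 1 + (l + (j:ℕ)))) = 0 := by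
    intro m n
    have := h (WithLp.toLp 2 ![2 * (k:ℝ), (l:ℝ)]) ⟨k, l, by simp, by simp⟩
      (WithLp.toLp 2 ![(m:ℝ), (n:ℝ)/2]) ⟨m, n, by simp, by simp⟩
    rw [inner_formula f hf _ _ k l m n (by simp) (by simp) (by simp) (by simp)] at this
    exact this
  -- phases
  have ph0 : ∀ (m : ℤ) (i : Fin 2) (x : ℝ), ex (-m) (x + (2 * k + (i:ℕ))) = ex (-m) x := by
    intro m i x
    rw [ex_add]
    have := ex_int (-m) (2 * k + (i:ℕ))
    push_cast at this
    rw [this, mul_one]
  -- sum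
  have hsum : ∀ᵐ y ∂(volume.restrict cube), PP F k l 0 y + PP F k l 1 y = 0 := by
    apply torus_unique _ ((memLp_PP F hF k l 0).add (memLp_PP F hF k l 1))
    intro n
    have hk := key (n 0) (2 * n 1)
    rw [← hk]
    have e : ∀ y : Fin 2 → ℝ, Complex.exp (-(2 * Real.pi * Complex.I * ((n 0 * y 0 + n 1 * y 1 : ℝ) : ℂ))) *
        (PP F k l 0 y + PP F k l 1 y) = ∑ j : Fin 2, ∑ i : Fin 2, cc i j *
          (F (y + sh (2 * k + (i:ℕ)) (l + (j:ℕ))) * (ex (-(n 0)) (y 0) * ex (-(n 1)) (y 1))) := by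
      intro y
      have : Complex.exp (-(2 * Real.pi * Complex.I * ((n 0 * y 0 + n 1 * y 1 : ℝ) : ℂ))) =
        ex (-(n 0)) (y 0) * ex (-(n 1)) (y 1) := by
        unfold ex
        rw [← Complex.exp_add]
        congr 1
        push_cast
        ring
      rw [this]
      unfold PP
      simp only [Fin.sum_univ_two]
      ring
    simp only [Pi.add_apply, e]
    have hint : ∀ i j : Fin 2, Integrable (fun y => cc i j *
          (F (y + sh (2 * k + (i:ℕ)) (l + (j:ℕ))) * (ex (-(n 0)) (y 0) * ex (-(n 1)) (y 1))))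
          (volume.restrict cube) := fun i j => (integrable_piece F hF _ _ _ _).const_mul _
    rw [integral_finsetSum _ (fun j _ => integrable_finsetSum _ (fun i _ => hint i j))]
    refine Finset.sum_congr rfl (fun j _ => ?_)
    rw [integral_finsetSum _ (fun i _ => hint i j)]
    refine Finset.sum_congr rfl (fun i _ => ?_)
    rw [integral_const_mul]
    congr 1
    congr 1
    funext y
    rw [ph0]
    have : ex (-(((2 * n 1 : ℤ) : ℝ)/2)) (y 1 + (l + (j:ℕ))) = ex (-(n 1)) (y 1) := by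
      have e1 : -(((2 * n 1 : ℤ) : ℝ)/2) = ((-(n 1) : ℤ) : ℝ) := by push_cast; ring
      rw [e1, ex_add]
      have := ex_int (-(n 1)) (l + (j:ℕ))
      push_cast at this ⊢
      rw [this, mul_one]
    rw [this]
  have hdiff : ∀ᵐ y ∂(volume.restrict cube), (PP F k l 0 y - PP F k l 1 y) * ex (-(1/2)) (y 1) = 0 := by
    have hL : MemLp (fun y => (PP F k l 0 y - PP F k l 1 y) * ex (-(1/2)) (y 1)) 2
        (volume.restrict cube) := by
      have h1 := ((memLp_PP F hF k l 0).sub (memLp_PP F hF k l 1))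
      refine h1.of_le (f := fun y => (PP F k l 0 y - PP F k l 1 y) * ex (-(1/2)) (y 1)) ?_ ?_
      · exact h1.1.mul ((continuous_ex _).comp (continuous_apply 1)).aestronglyMeasurable
      · filter_upwards with y
        rw [norm_mul, norm_ex, mul_one]
        simp
    apply torus_unique _ hL
    intro n
    have hk := key (n 0) (2 * n 1 + 1)
    have hc : ex (-(((2 * n 1 + 1 : ℤ) : ℝ)/2)) l ≠ 0 := by
      intro h0
      have := norm_ex (-(((2 * n 1 + 1 : ℤ) : ℝ)/2)) l
      rw [h0] at this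
      simp at this
    apply mul_left_cancel₀ hc
    rw [mul_zero, ← hk, ← integral_const_mul]
    have e : ∀ y : Fin 2 → ℝ, ex (-(((2 * n 1 + 1 : ℤ) : ℝ)/2)) l *
       (Complex.exp (-(2 * Real.pi * Complex.I * ((n 0 * y 0 + n 1 * y 1 : ℝ) : ℂ))) *
        ((PP F k l 0 y - PP F k l 1 y) * ex (-(1/2)) (y 1))) = ∑ j : Fin 2, ∑ i : Fin 2, cc i j *
          (F (y + sh (2 * k + (i:ℕ)) (l + (j:ℕ))) *
          (ex (-(n 0)) (y 0 + (2 * k + (i:ℕ))) *
            ex (-(((2 * n 1 + 1 : ℤ) : ℝ)/2)) (y 1 + (l + (j:ℕ))))) := by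
      intro y
      have : Complex.exp (-(2 * Real.pi * Complex.I * ((n 0 * y 0 + n 1 * y 1 : ℝ) : ℂ))) =
        ex (-(n 0)) (y 0) * ex (-(n 1)) (y 1) := by
        unfold ex
        rw [← Complex.exp_add]
        congr 1
        push_cast
        ring
      rw [this]
      have e0 : ex (-(((2 * n 1 + 1 : ℤ) : ℝ)/2)) (y 1 + (l + ((0:ℕ):ℝ))) =
          ex (-(((2 * n 1 + 1 : ℤ) : ℝ)/2)) l * (ex (-(n 1)) (y 1) * ex (-(1/2)) (y 1)) := by
        rw [← ex_add' _ _ (y 1), ex_add, ex_add]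
        have e1 : ex (-(((2 * n 1 + 1 : ℤ) : ℝ)/2)) ((0:ℕ):ℝ) = 1 := by simp [ex]
        have e2 : -(((2 * n 1 + 1 : ℤ) : ℝ)/2) = (-(n 1) : ℝ) + -(1/2) := by push_cast; ring
        rw [e1, e2]
        ring
      have e1 : ex (-(((2 * n 1 + 1 : ℤ) : ℝ)/2)) (y 1 + (l + ((1:ℕ):ℝ))) =
          - (ex (-(((2 * n 1 + 1 : ℤ) : ℝ)/2)) l * (ex (-(n 1)) (y 1) * ex (-(1/2)) (y 1))) := by
        rw [← ex_add' _ _ (y 1), ex_add, ex_add]
        have e1 : ex (-(((2 * n 1 + 1 : ℤ) : ℝ)/2)) ((1:ℕ):ℝ) = -1 := by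
          have e3 : -(((2 * n 1 + 1 : ℤ) : ℝ)/2) = ((-(n 1) : ℤ) : ℝ) + -(1/2) := by push_cast; ring
          rw [e3, ex_add']
          have := ex_int (-(n 1)) 1
          push_cast at this ⊢
          rw [this]
          unfold ex
          have : (2 * Real.pi * Complex.I * ((-(1/2) * 1 : ℝ) : ℂ)) = -(Real.pi * Complex.I) := by
            push_cast; ring
          rw [this, Complex.exp_neg, Complex.exp_pi_mul_I]
          norm_num
        have e2 : -(((2 * n 1 + 1 : ℤ) : ℝ)/2) = (-(n 1) : ℝ) + -(1/2) := by push_cast; ring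
        rw [e1, e2]
        ring
      unfold PP
      simp only [Fin.sum_univ_two]
      have p0 := ph0 (n 0) 0 (y 0)
      have p1 := ph0 (n 0) 1 (y 0)
      simp only [Fin.val_zero, Fin.val_one] at p0 p1 ⊢
      rw [e0, e1, p0, p1]
      ring
    simp only [e]
    have hint : ∀ i j : Fin 2, Integrable (fun y => cc i j *
          (F (y + sh (2 * k + (i:ℕ)) (l + (j:ℕ))) *
          (ex (-(n 0)) (y 0 + (2 * k + (i:ℕ))) *
            ex (-(((2 * n 1 + 1 : ℤ) : ℝ)/2)) (y 1 + (l + (j:ℕ))))))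
          (volume.restrict cube) := by
      intro i j
      have := (integrable_piece F hF (2 * k + (i:ℕ)) (l + (j:ℕ)) (-(n 0)) (-(((2 * n 1 + 1 : ℤ) : ℝ)/2))).const_mul
        (cc i j * ex (-(n 0)) (2 * k + (i:ℕ)) * ex (-(((2 * n 1 + 1 : ℤ) : ℝ)/2)) (l + (j:ℕ)))
      refine this.congr ?_
      filter_upwards with y
      rw [ex_add _ (y 0), ex_add _ (y 1)]
      ring
    rw [integral_finsetSum _ (fun j _ => integrable_finsetSum _ (fun i _ => hint i j))]
    refine Finset.sum_congr rfl (fun j _ => ?_)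
    rw [integral_finsetSum _ (fun i _ => hint i j)]
    refine Finset.sum_congr rfl (fun i _ => ?_)
    rw [integral_const_mul]
  have hne : ∀ y : ℝ, ex (-(1/2)) y ≠ 0 := by
    intro y h0
    have := norm_ex (-(1/2)) y
    rw [h0] at this
    simp at this
  constructor
  · filter_upwards [hsum, hdiff] with y h1 h2
    have h3 := (mul_eq_zero.1 h2).resolve_right (hne _)
    linear_combination (1/2) * h1 + (1/2) * h3
  · filter_upwards [hsum, hdiff] with y h1 h2
    have h3 := (mul_eq_zero.1 h2).resolve_right (hne _)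
    linear_combination (1/2) * h1 - (1/2) * h3

lemma complete (f : E2 → ℂ) (hf : MemLp f 2 volume)
    (h : ∀ t ∈ TT, ∀ s ∈ SS, ∫ x, f x * conj (g (x - t) *
      Complex.exp (2 * Real.pi * Complex.I * ((@inner ℝ _ _ s x : ℝ) : ℂ))) = 0) :
    f =ᵐ[volume] 0 := by
  set F : (Fin 2 → ℝ) → ℂ := fun x => f (WithLp.toLp 2 x) with hFdef
  have hF : MemLp F 2 volume := hf.comp_measurePreserving mp_toLp
  -- F vanishes on each unit cube
  have hcell : ∀ a b : ℤ, ∀ᵐ y ∂(volume.restrict cube), F (y + sh a b) = 0 := by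
    intro a b
    obtain ⟨k, i, hi⟩ : ∃ k : ℤ, ∃ i : Fin 2, a = 2 * k + (i:ℕ) := by
      rcases Int.even_or_odd' a with ⟨k, hk | hk⟩
      · exact ⟨k, 0, by simp [hk]⟩
      · exact ⟨k, 1, by simp [hk]⟩
    have h0 := (rows_zero f hf h k b).1
    have h1 := (rows_zero f hf h k (b-1)).2
    filter_upwards [h0, h1] with y hy0 hy1
    unfold PP at hy0 hy1
    simp only [Fin.sum_univ_two, cc, Fin.val_zero, Fin.val_one, if_true, one_ne_zero, if_false,
      Nat.cast_zero, Nat.cast_one, add_zero] at hy0 hy1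
    have eb : ((b - 1 : ℤ) : ℝ) + 1 = b := by push_cast; ring
    rw [eb] at hy1
    change (1/10) * F (y + sh (2 * k) b) + (7/10) * F (y + sh (2 * k + 1) b) = 0 at hy0
    change (-7/10) * F (y + sh (2 * k) b) + (1/10) * F (y + sh (2 * k + 1) b) = 0 at hy1
    rw [hi]
    fin_cases i
    · simp only [Fin.val_zero, Fin.zero_eta, Nat.cast_zero, add_zero]
      push_cast
      linear_combination (1/5) * hy0 - (7/5) * hy1
    · simp only [Fin.mk_one, Fin.val_one, Nat.cast_one]
      push_cast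
      linear_combination (7/5) * hy0 + (1/5) * hy1
  have hcell2 : ∀ a b : ℤ, ∀ᵐ y : Fin 2 → ℝ, y ∈ cube → F (y + sh a b) = 0 := by
    intro a b
    have := hcell a b
    rwa [ae_restrict_iff' measurableSet_cube] at this
  have hcell3 : ∀ a b : ℤ, ∀ᵐ x : Fin 2 → ℝ, x - sh a b ∈ cube → F x = 0 := by
    intro a b
    have := (measurePreserving_sub_right volume (sh a b)).quasiMeasurePreserving.ae (hcell2 a b)
    filter_upwards [this] with x hx
    intro hx2
    have := hx hx2
    simpa using this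
  have hF0 : ∀ᵐ x : Fin 2 → ℝ, F x = 0 := by
    have hall := ae_all_iff.2 (fun p : ℤ × ℤ => hcell3 p.1 p.2)
    filter_upwards [hall] with x hx
    apply hx (⌈x 0⌉ - 1, ⌈x 1⌉ - 1)
    rw [mem_cube]
    simp only [Pi.sub_apply, sh, Matrix.cons_val_zero, Matrix.cons_val_one]
    push_cast
    refine ⟨⟨?_, ?_⟩, ⟨?_, ?_⟩⟩
    · linarith [Int.ceil_lt_add_one (x 0)]
    · linarith [Int.le_ceil (x 0)]
    · linarith [Int.ceil_lt_add_one (x 1)]
    · linarith [Int.le_ceil (x 1)]
  have := (PiLp.volume_preserving_ofLp (Fin 2)).quasiMeasurePreserving.ae hF0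
  filter_upwards [this] with v hv
  simpa [F] using hv

end

end Pool.Agent.Helper71
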