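import Pool.Agent.Helper71.GaborC

set_option autoImplicit false
open MeasureTheory Set ComplexConjugate

namespace Pool.Agent.Helper71

lemma chi_of_mem {x : ℝ} (h : x ∈ Ioc (0:ℝ) 1) : chi x = 1 := by
  unfold chi
  rw [indicator_of_mem h]

lemma chi_of_notMem {x : ℝ} (h : x ∉ Ioc (0:ℝ) 1) : chi x = 0 := by
  unfold chi
  rw [indicator_of_notMem h]

lemma norm_chi_le (x : ℝ) : ‖chi x‖ ≤ 1 := by
  unfold chi indicator
  split_ifs <;> simp

lemma g_support (x : E2) (hx : x ∉ Metric.closedBall (0 : E2) 10) : g x = 0 := by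
  by_contra hne
  apply hx
  rw [mem_closedBall_zero_iff]
  have h0 : 0 < x 0 ∧ x 0 ≤ 2 := by
    by_contra hc
    apply hne
    have c0 : chi (x 0) = 0 := by
      apply chi_of_notMem
      intro h
      exact hc ⟨h.1, by linarith [h.2]⟩
    have c1 : chi (x 0 - 1) = 0 := by
      apply chi_of_notMem
      intro h
      exact hc ⟨by linarith [h.1], by linarith [h.2]⟩
    simp [g, Fin.sum_univ_two, c0, c1]
  have h1 : 0 < x 1 ∧ x 1 ≤ 2 := by
    by_contra hc
    apply hne
    have c0 : chi (x 1) = 0 := by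
      apply chi_of_notMem
      intro h
      exact hc ⟨h.1, by linarith [h.2]⟩
    have c1 : chi (x 1 - 1) = 0 := by
      apply chi_of_notMem
      intro h
      exact hc ⟨by linarith [h.1], by linarith [h.2]⟩
    simp [g, Fin.sum_univ_two, c0, c1]
  rw [EuclideanSpace.norm_eq]
  rw [Real.sqrt_le_left (by norm_num)]
  simp only [Fin.sum_univ_two, Real.norm_eq_abs, sq_abs]
  nlinarith [h0.1, h0.2, h1.1, h1.2]

lemma g_compact : HasCompactSupport g :=
  HasCompactSupport.intro (isCompact_closedBall (0 : E2) 10) (fun x hx => g_support x hx)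

lemma measurable_chi : Measurable chi := measurable_const.indicator measurableSet_Ioc

lemma measurable_g : Measurable g := by
  unfold g
  refine Finset.measurable_sum _ (fun i _ => Finset.measurable_sum _ (fun j _ => ?_))
  refine Measurable.const_mul ?_ _
  refine Measurable.mul ?_ ?_
  · exact measurable_chi.comp (((measurable_pi_apply 0).comp
      (MeasurableEquiv.toLp 2 (Fin 2 → ℝ)).symm.measurable).sub_const _)
  · exact measurable_chi.comp (((measurable_pi_apply 1).comp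
      (MeasurableEquiv.toLp 2 (Fin 2 → ℝ)).symm.measurable).sub_const _)

lemma g_bound (x : E2) : ‖g x‖ ≤ 4 := by
  have hc : ∀ i j : Fin 2, ‖cc i j‖ ≤ 1 := by
    intro i j
    unfold cc
    split_ifs <;> norm_num
  have h1 : ∀ i j : Fin 2, ‖cc i j * (chi (x 0 - (i : ℕ)) * chi (x 1 - (j : ℕ)))‖ ≤ 1 := by
    intro i j
    rw [norm_mul, norm_mul]
    have := mul_le_mul (norm_chi_le (x 0 - (i : ℕ))) (norm_chi_le (x 1 - (j : ℕ)))
      (norm_nonneg _) zero_le_one
    have := mul_le_mul (hc i j) this (by positivity) zero_le_one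
    simpa using this
  unfold g
  calc _ ≤ ∑ i : Fin 2, ‖∑ j : Fin 2, cc i j * (chi (x 0 - (i : ℕ)) * chi (x 1 - (j : ℕ)))‖ :=
        norm_sum_le _ _
    _ ≤ ∑ i : Fin 2, ∑ j : Fin 2, ‖cc i j * (chi (x 0 - (i : ℕ)) * chi (x 1 - (j : ℕ)))‖ :=
        Finset.sum_le_sum (fun i _ => norm_sum_le _ _)
    _ ≤ ∑ i : Fin 2, ∑ j : Fin 2, (1:ℝ) :=
        Finset.sum_le_sum (fun i _ => Finset.sum_le_sum (fun j _ => h1 i j))
    _ = 4 := by norm_num

lemma g_memLp : MemLp g 2 volume :=
  g_compact.memLp_of_bound measurable_g.aestronglyMeasurable 4 (Filter.Eventually.of_forall g_bound)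

/-- two open cells -/
lemma open_cell (a : ℝ) : IsOpen {v : E2 | (a < v 0 ∧ v 0 < a + 1) ∧ (0 < v 1 ∧ v 1 < 1)} := by
  have c0 : Continuous (fun v : E2 => v 0) := by fun_prop
  have c1 : Continuous (fun v : E2 => v 1) := by fun_prop
  exact ((isOpen_lt continuous_const c0).inter (isOpen_lt c0 continuous_const)).inter
    ((isOpen_lt continuous_const c1).inter (isOpen_lt c1 continuous_const))

lemma g_cell0 (v : E2) (h : (0 < v 0 ∧ v 0 < 0 + 1) ∧ (0 < v 1 ∧ v 1 < 1)) : ‖g v‖ = 1/10 := by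
  have a0 : chi (v 0) = 1 := chi_of_mem ⟨h.1.1, by linarith [h.1.2]⟩
  have a1 : chi (v 0 - 1) = 0 := chi_of_notMem (fun h' => by linarith [h'.1, h.1.2])
  have b0 : chi (v 1) = 1 := chi_of_mem ⟨h.2.1, by linarith [h.2.2]⟩
  have b1 : chi (v 1 - 1) = 0 := chi_of_notMem (fun h' => by linarith [h'.1, h.2.2])
  simp [g, Fin.sum_univ_two, a0, a1, b0, b1, cc]

lemma g_cell1 (v : E2) (h : (1 < v 0 ∧ v 0 < 1 + 1) ∧ (0 < v 1 ∧ v 1 < 1)) : ‖g v‖ = 7/10 := by
  have a0 : chi (v 0) = 0 := chi_of_notMem (fun h' => by linarith [h'.2, h.1.1])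
  have a1 : chi (v 0 - 1) = 1 := chi_of_mem ⟨by linarith [h.1.1], by linarith [h.1.2]⟩
  have b0 : chi (v 1) = 1 := chi_of_mem ⟨h.2.1, by linarith [h.2.2]⟩
  have b1 : chi (v 1 - 1) = 0 := chi_of_notMem (fun h' => by linarith [h'.1, h.2.2])
  simp [g, Fin.sum_univ_two, a0, a1, b0, b1, cc]

lemma not_indicator (Ω : Set E2) (c : ℝ)
    (h : ∀ᵐ x ∂(volume : Measure E2), ‖g x‖ = c * Ω.indicator (fun _ => (1 : ℝ)) x) : False := by
  have hd := Measure.dense_of_ae h
  obtain ⟨x, hx, hx2⟩ := hd.exists_mem_open (open_cell 0)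
    ⟨WithLp.toLp 2 ![1/2, 1/2], by constructor <;> constructor <;> simp <;> norm_num⟩
  obtain ⟨y, hy, hy2⟩ := hd.exists_mem_open (open_cell 1)
    ⟨WithLp.toLp 2 ![3/2, 1/2], by constructor <;> constructor <;> simp <;> norm_num⟩
  simp only [Set.mem_ofPred_eq] at hx hy
  rw [g_cell0 x hx2] at hx
  rw [g_cell1 y hy2] at hy
  by_cases h1 : x ∈ Ω
  · by_cases h2 : y ∈ Ω
    · rw [indicator_of_mem h1] at hx
      rw [indicator_of_mem h2] at hy
      linarith
    · rw [indicator_of_notMem h2] at hy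
      linarith
  · rw [indicator_of_notMem h1] at hx
    linarith

end Pool.Agent.Helper71
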