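import Mathlib

set_option autoImplicit false
open Finset

namespace Pool.Agent.Helper71

lemma pow_bound (L : ℕ) (hL : 5 ≤ L) : (4 * L + 3) + 5 * 2 ^ (2 * L) * (4 * L + 2) ≤ 2 * 2 ^ (4 * L) := by
  have h1 : 5 * (4 * L + 2) + 1 ≤ 2 ^ (2 * L) := by
    induction L, hL using Nat.le_induction with
    | base => norm_num
    | succ n hn ih =>
      have : 2 ^ (2 * (n + 1)) = 4 * 2 ^ (2 * n) := by rw [mul_add, pow_add]; ring
      omega
  have h2 : 4 * L + 3 ≤ 2 ^ (2 * L) := by omega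
  have h3 : 2 ^ (4 * L) = 2 ^ (2 * L) * 2 ^ (2 * L) := by rw [← pow_add]; congr 1; omega
  rw [h3]
  nlinarith

/-- enough primes between `N` and `4N` for `N = 2^(4L)` -/
lemma exists_primes (L : ℕ) (hL : 5 ≤ L) :
    ∃ P : Finset ℕ, P.card = 2 ^ (2 * L) ∧ ∀ q ∈ P, q.Prime ∧ 2 ^ (4 * L) < q ∧ q ≤ 4 * 2 ^ (4 * L) := by
  classical
  set N : ℕ := 2 ^ (4 * L) with hN
  set A := (Finset.Ioc N (4 * N)).filter Nat.Prime with hA
  suffices h : 2 ^ (2 * L) ≤ A.card by
    obtain ⟨P, hP, hc⟩ := Finset.exists_subset_card_eq h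
    refine ⟨P, hc, fun q hq => ?_⟩
    have := hP hq
    rw [hA, Finset.mem_filter, Finset.mem_Ioc] at this
    exact ⟨this.2, this.1.1, this.1.2⟩
  -- theta difference
  have hθ : Chebyshev.theta ((4 * N : ℕ) : ℝ) - Chebyshev.theta (N : ℝ) ≤ A.card * Real.log (4 * N : ℕ) := by
    have e1 : Chebyshev.theta ((4 * N : ℕ) : ℝ) = ∑ p ∈ (Finset.Ioc 0 (4 * N)).filter Nat.Prime, Real.log p := by
      unfold Chebyshev.theta
      rw [Nat.floor_natCast]
    have e2 : Chebyshev.theta (N : ℝ) = ∑ p ∈ (Finset.Ioc 0 N).filter Nat.Prime, Real.log p := by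
      unfold Chebyshev.theta
      rw [Nat.floor_natCast]
    have e3 : (Finset.Ioc 0 (4 * N)).filter Nat.Prime = ((Finset.Ioc 0 N).filter Nat.Prime) ∪ A := by
      ext p
      simp only [hA, mem_filter, mem_union, mem_Ioc]
      constructor
      · rintro ⟨⟨h1, h2⟩, h3⟩
        by_cases h : p ≤ N
        · exact Or.inl ⟨⟨h1, h⟩, h3⟩
        · exact Or.inr ⟨⟨by omega, h2⟩, h3⟩
      · rintro (⟨⟨h1, h2⟩, h3⟩ | ⟨⟨h1, h2⟩, h3⟩)
        · exact ⟨⟨h1, by omega⟩, h3⟩
        · exact ⟨⟨by omega, h2⟩, h3⟩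
    have hd : Disjoint ((Finset.Ioc 0 N).filter Nat.Prime) A := by
      rw [Finset.disjoint_left]
      intro p hp hp2
      simp only [hA, mem_filter, mem_Ioc] at hp hp2
      omega
    rw [e1, e2, e3, Finset.sum_union hd]
    have : ∑ p ∈ A, Real.log p ≤ ∑ _p ∈ A, Real.log (4 * N : ℕ) := by
      apply Finset.sum_le_sum
      intro p hp
      simp only [hA, mem_filter, mem_Ioc] at hp
      apply Real.log_le_log
      · exact_mod_cast hp.2.pos
      · exact_mod_cast hp.1.2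
    rw [Finset.sum_const, nsmul_eq_mul] at this
    linarith
  have h1 := Chebyshev.theta_ge (4 * N)
  have h2 := Chebyshev.theta_le_log4_mul_x (x := (N:ℝ)) (by positivity)
  have l2 : 0 < Real.log 2 := Real.log_pos (by norm_num)
  have hlog4 : Real.log 4 = 2 * Real.log 2 := by
    rw [show (4:ℝ) = 2 ^ 2 by norm_num, Real.log_pow]; norm_num
  have hlogN : Real.log ((4 * N : ℕ) : ℝ) = (4 * L + 2) * Real.log 2 := by
    have : ((4 * N : ℕ) : ℝ) = 2 ^ (4 * L + 2) := by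
      rw [hN]; push_cast; rw [pow_add]; ring
    rw [this, Real.log_pow]
    push_cast
    ring
  have hsqrt : Real.sqrt ((4 * N : ℕ) : ℝ) = 2 * 2 ^ (2 * L) := by
    have : ((4 * N : ℕ) : ℝ) = (2 * 2 ^ (2 * L)) ^ 2 := by
      rw [hN]; push_cast; rw [mul_pow, ← pow_mul]; congr 1
      · norm_num
      · congr 1; ring
    rw [this, Real.sqrt_sq (by positivity)]
  have hlogN1 : Real.log (((4 * N : ℕ) : ℝ) + 1) ≤ (4 * L + 3) * Real.log 2 := by
    have h8 : ((4 * N : ℕ) : ℝ) + 1 ≤ 2 ^ (4 * L + 3) := by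
      have : (1:ℝ) ≤ 2 ^ (4 * L + 2) := one_le_pow₀ (by norm_num)
      have e : ((4 * N : ℕ) : ℝ) = 2 ^ (4 * L + 2) := by
        rw [hN]; push_cast; rw [pow_add]; ring
      rw [e, pow_succ 2 (4 * L + 2)]
      linarith
    have := Real.log_le_log (by positivity) h8
    rw [Real.log_pow] at this
    push_cast at this ⊢
    exact this
  rw [hlogN] at h1 hθ
  rw [hsqrt] at h1
  rw [hlog4] at h2
  have hb := pow_bound L hL
  have hb' : ((4 * L + 3 : ℝ)) + 5 * 2 ^ (2 * L) * (4 * L + 2) ≤ 2 * (N:ℝ) := by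
    rw [hN]
    exact_mod_cast hb
  have hcard : (2:ℝ) ^ (2 * L) * ((4 * L + 2) * Real.log 2) ≤ A.card * ((4 * L + 2) * Real.log 2) := by
    push_cast at h1 hlogN1 hθ
    have hm := mul_le_mul_of_nonneg_right hb' l2.le
    nlinarith [hm]
  have hpos : 0 < (4 * (L:ℝ) + 2) * Real.log 2 := by positivity
  have := le_of_mul_le_mul_right hcard hpos
  exact_mod_cast this

end Pool.Agent.Helper71
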