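import Mathlib

set_option autoImplicit false
open Finset

namespace Pool.Agent.Helper71

noncomputable section

/-- the character `exp(-2 pi i θ)` -/
def ee (θ : ℝ) : ℂ := Complex.exp (((-2 * Real.pi * θ : ℝ) : ℂ) * Complex.I)

lemma ee_add (a b : ℝ) : ee (a + b) = ee a * ee b := by
  unfold ee
  rw [← Complex.exp_add]
  congr 1
  push_cast
  ring

lemma ee_int (n : ℤ) : ee n = 1 := by
  unfold ee
  rw [Complex.exp_eq_one_iff]
  exact ⟨-n, by push_cast; ring⟩

lemma norm_ee (θ : ℝ) : ‖ee θ‖ = 1 := Complex.norm_exp_ofReal_mul_I _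

lemma continuous_ee : Continuous ee := by
  unfold ee
  fun_prop

lemma ee_nat_mul (a : ℕ) (θ : ℝ) : ee (a * θ) = ee θ ^ a := by
  unfold ee
  rw [← Complex.exp_nat_mul]
  congr 1
  push_cast
  ring

lemma norm_one_sub_ee (θ : ℝ) : 4 * |θ - round θ| ≤ ‖1 - ee θ‖ := by
  set t := θ - round θ with ht
  have h1 : ee θ = ee t := by
    have : θ = t + (round θ : ℤ) := by rw [ht]; ring
    rw [this, ee_add, ee_int, mul_one]
  have habs : |t| ≤ 1 / 2 := abs_sub_round θ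
  rw [h1]
  have h2 : ‖1 - ee t‖ = ‖2 * Real.sin (Real.pi * t)‖ := by
    have h3 := Complex.norm_exp_I_mul_ofReal_sub_one (-2 * Real.pi * t)
    unfold ee
    rw [norm_sub_rev, mul_comm _ Complex.I, h3]
    have : -2 * Real.pi * t / 2 = -(Real.pi * t) := by ring
    rw [this, Real.sin_neg]
    simp
  rw [h2, Real.norm_eq_abs, abs_mul, abs_two]
  have hpi := Real.pi_pos
  have h4 : 2 * |t| ≤ |Real.sin (Real.pi * t)| := by
    rcases le_total 0 t with h | h
    · rw [abs_of_nonneg h] at habs ⊢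
      have h5 := Real.mul_le_sin (x := Real.pi * t) (by positivity) (by nlinarith)
      have h6 : 2 / Real.pi * (Real.pi * t) = 2 * t := by field_simp
      rw [h6] at h5
      exact h5.trans (le_abs_self _)
    · rw [abs_of_nonpos h] at habs ⊢
      have h5 := Real.mul_le_sin (x := Real.pi * (-t)) (mul_nonneg hpi.le (by linarith)) (by nlinarith)
      have h6 : 2 / Real.pi * (Real.pi * (-t)) = 2 * (-t) := by field_simp
      rw [h6] at h5
      have : Real.sin (Real.pi * (-t)) = - Real.sin (Real.pi * t) := by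
        rw [mul_neg, Real.sin_neg]
      rw [this] at h5
      exact h5.trans (neg_le_abs _)
  linarith

/-- the normalized sum over a lattice of step `1/q` -/
def Dq (q : ℕ) (ξ : ℝ) : ℂ := (1 / (q:ℂ)) * ∑ a ∈ range q, ee ((a:ℝ) / q * ξ)

lemma norm_Dq_le_one (q : ℕ) (ξ : ℝ) : ‖Dq q ξ‖ ≤ 1 := by
  unfold Dq
  rcases Nat.eq_zero_or_pos q with h | h
  · subst h; simp
  · rw [norm_mul]
    have : ‖∑ a ∈ range q, ee ((a:ℝ) / q * ξ)‖ ≤ q := by
      calc _ ≤ ∑ a ∈ range q, ‖ee ((a:ℝ) / q * ξ)‖ := norm_sum_le _ _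
        _ = q := by simp [norm_ee]
    have hq : (0:ℝ) < q := by exact_mod_cast h
    have h2 : ‖(1 / (q:ℂ))‖ = 1 / q := by simp
    rw [h2, div_mul_eq_mul_div, one_mul, div_le_one hq]
    exact this

/-- bound away from multiples of `q` -/
lemma norm_Dq_le (q : ℕ) (hq : 0 < q) (ξ d : ℝ) (hd : 0 < d)
    (h : d ≤ |ξ - q * round (ξ / q)|) : ‖Dq q ξ‖ ≤ 1 / (2 * d) := by
  have hq' : (0:ℝ) < q := by exact_mod_cast hq
  have h1 : ‖Dq q ξ‖ * ‖1 - ee (ξ / q)‖ ≤ 2 / q := by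
    rw [← norm_mul]
    have : Dq q ξ * (1 - ee (ξ / q)) = (1 / (q:ℂ)) * (1 - ee ξ) := by
      unfold Dq
      have e1 : ∀ a : ℕ, ee ((a:ℝ) / q * ξ) = ee (ξ / q) ^ a := by
        intro a
        rw [← ee_nat_mul]
        congr 1
        ring
      simp only [e1]
      rw [mul_assoc, geom_sum_mul_neg, ← ee_nat_mul]
      congr 3
      field_simp
    rw [this, norm_mul]
    have h2 : ‖(1 / (q:ℂ))‖ = 1 / q := by simp
    have h3 : ‖1 - ee ξ‖ ≤ 2 := by
      calc _ ≤ ‖(1:ℂ)‖ + ‖ee ξ‖ := norm_sub_le _ _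
        _ = 2 := by rw [norm_ee]; norm_num
    rw [h2]
    calc _ ≤ 1 / (q:ℝ) * 2 := by gcongr
      _ = 2 / q := by ring
  have h2 := norm_one_sub_ee (ξ / q)
  have h3 : |ξ / q - round (ξ / q)| = |ξ - q * round (ξ / q)| / q := by
    rw [← abs_of_pos hq', ← abs_div, abs_of_pos hq']
    congr 1
    field_simp
  rw [h3] at h2
  have h4 : 4 * (d / q) ≤ ‖1 - ee (ξ / q)‖ := by
    calc 4 * (d / q) ≤ 4 * (|ξ - q * round (ξ / q)| / q) := by gcongr
      _ ≤ _ := h2
  have h5 : ‖Dq q ξ‖ * (4 * (d / q)) ≤ 2 / q :=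
    (mul_le_mul_of_nonneg_left h4 (norm_nonneg _)).trans h1
  rw [le_div_iff₀ (by positivity)]
  have h6 : ‖Dq q ξ‖ * (4 * (d / q)) = (‖Dq q ξ‖ * (4 * d)) / q := by ring
  rw [h6, div_le_div_iff_of_pos_right hq'] at h5
  linarith

/-- a nonzero integer below `N^3` has at most two prime divisors above `N` from `P` -/
lemma card_fiber (N : ℕ) (P : Finset ℕ) (hP : ∀ q ∈ P, q.Prime ∧ N < q) (M : ℤ) (hM : M ≠ 0)
    (hMN : |M| < (N:ℤ) ^ 3) : (P.filter (fun q : ℕ => (q:ℤ) ∣ M)).card ≤ 2 := by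
  by_contra hc
  push Not at hc
  obtain ⟨T, hT, hT3⟩ := Finset.exists_subset_card_eq (Nat.succ_le_of_lt hc)
  have hT3' : T.card = 3 := hT3
  have hdiv : (∏ p ∈ T, p) ∣ M.natAbs := by
    apply Finset.prod_primes_dvd
    · intro p hp
      have := hT hp
      rw [Finset.mem_filter] at this
      exact (hP p this.1).1.prime
    · intro p hp
      have := hT hp
      rw [Finset.mem_filter] at this
      exact Int.natCast_dvd.1 this.2
  have hle := Nat.le_of_dvd (Int.natAbs_pos.2 hM) hdiv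
  have hlt : N ^ 3 ≤ ∏ p ∈ T, p := by
    rw [← hT3', ← Finset.prod_const]
    apply Finset.prod_le_prod
    · intro i _; exact Nat.zero_le _
    · intro i hi
      have := hT hi
      rw [Finset.mem_filter] at this
      exact (hP i this.1).2.le
  have : (M.natAbs : ℤ) = |M| := Int.natCast_natAbs M
  have h2 : (M.natAbs : ℤ) < ((N ^ 3 : ℕ) : ℤ) := by
    rw [this]; push_cast; exact hMN
  omega

/-- number of bad moduli -/
lemma card_bad (s : ℕ) (hs : 2 ≤ s) (P : Finset ℕ) (hP : ∀ q ∈ P, q.Prime ∧ s ^ 4 < q)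
    (ξ : ℝ) (h1 : (s:ℝ) ^ 4 / 2 < |ξ|) (h2 : |ξ| ≤ (s:ℝ) ^ 10) :
    (P.filter (fun q : ℕ => |ξ - q * round (ξ / q)| ≤ s)).card ≤ 2 * (2 * s + 1) := by
  classical
  set B := P.filter (fun q : ℕ => |ξ - q * round (ξ / q)| ≤ s) with hB
  set f : ℕ → ℤ := fun q => q * round (ξ / q) with hf
  have hs' : (2:ℝ) ≤ s := by exact_mod_cast hs
  have hs4 : (s:ℝ) < (s:ℝ) ^ 4 / 2 := by
    have : (s:ℝ)^4 = s * (s * (s * s)) := by ring
    rw [this]
    nlinarith [mul_nonneg (sub_nonneg.2 hs') (sub_nonneg.2 hs'), mul_pos (show (0:ℝ) < s by linarith) (show (0:ℝ) < s by linarith)]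
  have himg : B.image f ⊆ Finset.Icc ⌈ξ - s⌉ ⌊ξ + s⌋ := by
    intro M hM
    rw [Finset.mem_image] at hM
    obtain ⟨q, hq, rfl⟩ := hM
    rw [hB, Finset.mem_filter] at hq
    have := abs_le.1 hq.2
    rw [Finset.mem_Icc, Int.ceil_le, Int.le_floor]
    simp only [hf]
    push_cast
    constructor <;> linarith [this.1, this.2]
  have hcardI : (Finset.Icc ⌈ξ - s⌉ ⌊ξ + s⌋).card ≤ 2 * s + 1 := by
    rw [Int.card_Icc]
    have a1 := Int.floor_le (ξ + s)
    have a2 := Int.le_ceil (ξ - s)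
    have : ((⌊ξ + s⌋ : ℤ) : ℝ) - ⌈ξ - s⌉ ≤ 2 * s := by linarith
    have h3 : (⌊ξ + s⌋ - ⌈ξ - s⌉ : ℤ) ≤ 2 * s := by exact_mod_cast this
    omega
  have hfib : ∀ M ∈ B.image f, (B.filter (fun q => f q = M)).card ≤ 2 := by
    intro M hM
    obtain ⟨q0, hq0, hq0M⟩ := Finset.mem_image.1 hM
    rw [hB, Finset.mem_filter] at hq0
    have habs : |ξ - (M:ℝ)| ≤ s := by
      rw [← hq0M]
      simp only [hf]
      push_cast
      exact hq0.2
    have hM0 : M ≠ 0 := by
      rintro rfl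
      simp only [Int.cast_zero, sub_zero] at habs
      linarith
    have hMle : |M| < ((s ^ 4 : ℕ) : ℤ) ^ 3 := by
      have h3 : |(M:ℝ)| ≤ |ξ| + s := by
        have := abs_sub_abs_le_abs_sub (M:ℝ) ξ
        rw [abs_sub_comm] at this
        linarith
      have h4 : (|M| : ℝ) < ((s:ℝ) ^ 4) ^ 3 := by
        have h5 : (s:ℝ) ^ 10 + s < ((s:ℝ) ^ 4) ^ 3 := by
          have e : ((s:ℝ) ^ 4) ^ 3 = (s:ℝ)^10 * s^2 := by ring
          have h10 : (s:ℝ) ≤ (s:ℝ) ^ 10 := by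
            calc (s:ℝ) = s ^ 1 := by ring
              _ ≤ s ^ 10 := pow_le_pow_right₀ (by linarith) (by norm_num)
          have hp : (0:ℝ) < (s:ℝ)^10 := by positivity
          rw [e]
          nlinarith [mul_nonneg hp.le (show (0:ℝ) ≤ (s:ℝ)^2 - 4 by nlinarith)]
        calc (|M| : ℝ) ≤ |ξ| + s := h3
          _ ≤ (s:ℝ)^10 + s := by linarith
          _ < _ := h5
      have h6 : ((|M| : ℤ) : ℝ) < ((((s ^ 4 : ℕ) : ℤ) ^ 3 : ℤ) : ℝ) := by
        push_cast
        exact h4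
      exact_mod_cast h6
    calc (B.filter (fun q => f q = M)).card ≤ (P.filter (fun q : ℕ => (q:ℤ) ∣ M)).card := by
          apply Finset.card_le_card
          intro q hq
          rw [Finset.mem_filter] at hq ⊢
          rw [hB, Finset.mem_filter] at hq
          refine ⟨hq.1.1, ?_⟩
          rw [← hq.2]
          exact Dvd.intro _ rfl
      _ ≤ 2 := card_fiber (s ^ 4) P hP M hM0 hMle
  calc B.card ≤ 2 * (B.image f).card := Finset.card_le_mul_card_image _ 2 hfib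
    _ ≤ 2 * (Finset.Icc ⌈ξ - s⌉ ⌊ξ + s⌋).card := by
        apply Nat.mul_le_mul_left
        exact Finset.card_le_card himg
    _ ≤ 2 * (2 * s + 1) := Nat.mul_le_mul_left _ hcardI

end

end Pool.Agent.Helper71
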