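import Pool.Agent.Helper71.Lac1
import Pool.Agent.Helper71.Lac2

set_option autoImplicit false
open Finset MeasureTheory

namespace Pool.Agent.Helper71

noncomputable section

/-- cluster -/
def cl (q a : ℕ) (r : ℝ) : Set ℝ := Set.Ioc ((a:ℝ)/q) ((a:ℝ)/q + r)

lemma measurableSet_cl (q a : ℕ) (r : ℝ) : MeasurableSet (cl q a r) := measurableSet_Ioc

/-- one stage of the measure -/
def stage (P : Finset ℕ) (r : ℝ) : Measure ℝ :=
  ∑ q ∈ P, ∑ a ∈ range q,
    ENNReal.ofReal (1 / (P.card * (q * r))) • volume.restrict (cl q a r)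

lemma stage_apply (P : Finset ℕ) (r : ℝ) (J : Set ℝ) (hJ : MeasurableSet J) :
    stage P r J = ∑ q ∈ P, ∑ a ∈ range q,
      ENNReal.ofReal (1 / (P.card * (q * r))) * volume (J ∩ cl q a r) := by
  unfold stage
  simp only [Measure.coe_finsetSum, Finset.sum_apply, Measure.smul_apply, smul_eq_mul]
  refine Finset.sum_congr rfl (fun q _ => Finset.sum_congr rfl (fun a _ => ?_))
  rw [Measure.restrict_apply hJ]

lemma vol_inter_lt (q a : ℕ) (r : ℝ) (J : Set ℝ) : volume (J ∩ cl q a r) < ⊤ :=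
  (measure_mono Set.inter_subset_right).trans_lt (by simp [cl])

lemma stage_real (P : Finset ℕ) (r : ℝ) (hr : 0 < r) (J : Set ℝ) (hJ : MeasurableSet J) :
    (stage P r).real J = ∑ q ∈ P, ∑ a ∈ range q,
      (1 / (P.card * (q * r))) * volume.real (J ∩ cl q a r) := by
  unfold Measure.real
  rw [stage_apply P r J hJ, ENNReal.toReal_sum]
  · refine Finset.sum_congr rfl (fun q _ => ?_)
    rw [ENNReal.toReal_sum]
    · refine Finset.sum_congr rfl (fun a _ => ?_)
      rw [ENNReal.toReal_mul, ENNReal.toReal_ofReal (by positivity)]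
    · intro a _
      exact ENNReal.mul_ne_top ENNReal.ofReal_ne_top (vol_inter_lt q a r J).ne
  · intro q _
    rw [ENNReal.sum_ne_top]
    intro a _
    exact ENNReal.mul_ne_top ENNReal.ofReal_ne_top (vol_inter_lt q a r J).ne

lemma stage_univ (P : Finset ℕ) (hP : P.Nonempty) (hq : ∀ q ∈ P, 0 < q) (r : ℝ) (hr : 0 < r) :
    stage P r Set.univ = 1 := by
  rw [stage_apply P r _ MeasurableSet.univ]
  have h1 : ∀ q ∈ P, ∑ a ∈ range q,
      ENNReal.ofReal (1 / (P.card * (q * r))) * volume (Set.univ ∩ cl q a r) =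
      ENNReal.ofReal (1 / P.card) := by
    intro q hqP
    have hq0 : (0:ℝ) < q := by exact_mod_cast hq q hqP
    have : ∀ a ∈ range q, ENNReal.ofReal (1 / (P.card * (q * r))) * volume (Set.univ ∩ cl q a r) =
        ENNReal.ofReal (1 / (P.card * q)) := by
      intro a _
      rw [Set.univ_inter, cl, Real.volume_Ioc, ← ENNReal.ofReal_mul (by positivity)]
      congr 1
      field_simp
      ring
    rw [Finset.sum_congr rfl this, Finset.sum_const, card_range, nsmul_eq_mul,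
      ← ENNReal.ofReal_natCast, ← ENNReal.ofReal_mul (by positivity)]
    congr 1
    field_simp
  rw [Finset.sum_congr rfl h1, Finset.sum_const, nsmul_eq_mul, ← ENNReal.ofReal_natCast,
    ← ENNReal.ofReal_mul (by positivity)]
  have : (0:ℝ) < P.card := by exact_mod_cast hP.card_pos
  rw [mul_one_div_cancel this.ne', ENNReal.ofReal_one]

lemma stage_supp (P : Finset ℕ) (r : ℝ) (hr1 : r ≤ 1) :
    stage P r (Set.Icc 0 2)ᶜ = 0 := by
  rw [stage_apply P r _ measurableSet_Icc.compl]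
  refine Finset.sum_eq_zero (fun q _ => Finset.sum_eq_zero (fun a ha => ?_))
  have : (Set.Icc (0:ℝ) 2)ᶜ ∩ cl q a r = ∅ := by
    rw [Set.eq_empty_iff_forall_notMem]
    rintro x ⟨hx1, hx2⟩
    apply hx1
    have ha' : (a:ℝ) < q := by exact_mod_cast Finset.mem_range.1 ha
    have hq : (0:ℝ) < q := lt_of_le_of_lt (Nat.cast_nonneg a) ha'
    have h1 : (a:ℝ)/q ≤ 1 := by rw [div_le_one hq]; exact ha'.le
    have h0 : 0 ≤ (a:ℝ)/q := by positivity
    exact ⟨by linarith [hx2.1], by linarith [hx2.2]⟩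
  rw [this]
  simp

lemma stage_le (P : Finset ℕ) (hP : P.Nonempty) (hq : ∀ q ∈ P, 0 < q) (r : ℝ) (hr : 0 < r)
    (J : Set ℝ) (hJ : MeasurableSet J) (hJf : volume J < ⊤) :
    (stage P r).real J ≤ (1 / r) * volume.real J := by
  rw [stage_real P r hr J hJ]
  have hc : (0:ℝ) < P.card := by exact_mod_cast hP.card_pos
  calc _ ≤ ∑ q ∈ P, ∑ a ∈ range q, (1 / (P.card * (q * r))) * volume.real J := by
        refine Finset.sum_le_sum (fun q _ => Finset.sum_le_sum (fun a _ => ?_))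
        apply mul_le_mul_of_nonneg_left _ (by positivity)
        exact measureReal_mono Set.inter_subset_left hJf.ne
    _ = ∑ q ∈ P, (1 / (P.card * r)) * volume.real J := by
        refine Finset.sum_congr rfl (fun q hqP => ?_)
        have hq0 : (0:ℝ) < q := by exact_mod_cast hq q hqP
        rw [Finset.sum_const, card_range, nsmul_eq_mul]
        field_simp
    _ = (1 / r) * volume.real J := by
        rw [Finset.sum_const, nsmul_eq_mul]
        field_simp

/-- discrepancy of one lattice -/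
lemma lattice_upper (q : ℕ) (hq : 0 < q) (r : ℝ) (hr : 0 < r) (v w : ℝ) (hv : r ≤ v) (hvw : v ≤ w) :
    ∑ a ∈ range q, volume.real (Set.Ico v w ∩ cl q a r) ≤ r * (q * (w - v + r) + 1) := by
  classical
  have hq' : (0:ℝ) < q := by exact_mod_cast hq
  set T := (range q).filter (fun a => (Set.Ico v w ∩ cl q a r).Nonempty) with hT
  have h1 : ∑ a ∈ range q, volume.real (Set.Ico v w ∩ cl q a r) =
      ∑ a ∈ T, volume.real (Set.Ico v w ∩ cl q a r) := by
    rw [hT, Finset.sum_filter]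
    refine Finset.sum_congr rfl (fun a _ => ?_)
    split_ifs with h
    · rfl
    · rw [Set.not_nonempty_iff_eq_empty] at h
      rw [h]
      simp
  have h2 : ∀ a, volume.real (Set.Ico v w ∩ cl q a r) ≤ r := by
    intro a
    calc _ ≤ volume.real (cl q a r) :=
          measureReal_mono Set.inter_subset_right (by simp [cl])
      _ = r := by simp [cl, Measure.real, hr.le]
  have h3 : T ⊆ Finset.Ico ⌈(q:ℝ) * (v - r)⌉₊ ⌈(q:ℝ) * w⌉₊ := by
    intro a ha
    rw [hT, Finset.mem_filter] at ha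
    obtain ⟨x, hx1, hx2⟩ := ha.2
    rw [Finset.mem_Ico, Nat.ceil_le, Nat.lt_ceil]
    have e1 : (a:ℝ) / q < w := hx2.1.trans hx1.2
    have e2 : v - r ≤ (a:ℝ)/q := by linarith [hx1.1, hx2.2]
    rw [div_lt_iff₀ hq'] at e1
    rw [le_div_iff₀ hq'] at e2
    constructor <;> linarith
  have h4 : (T.card : ℝ) ≤ q * (w - v + r) + 1 := by
    have := Finset.card_le_card h3
    rw [Nat.card_Ico] at this
    have h5 : (T.card:ℝ) ≤ ((⌈(q:ℝ) * w⌉₊ - ⌈(q:ℝ) * (v - r)⌉₊ : ℕ) : ℝ) := by exact_mod_cast this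
    have hle : ⌈(q:ℝ) * (v - r)⌉₊ ≤ ⌈(q:ℝ) * w⌉₊ := by
      apply Nat.ceil_le_ceil
      apply mul_le_mul_of_nonneg_left _ hq'.le
      linarith
    rw [Nat.cast_sub hle] at h5
    have e1 := Nat.ceil_lt_add_one (a := (q:ℝ) * w) (by
      apply mul_nonneg hq'.le; linarith)
    have e2 := Nat.le_ceil ((q:ℝ) * (v - r))
    nlinarith
  rw [h1]
  calc _ ≤ ∑ _a ∈ T, r := Finset.sum_le_sum (fun a _ => h2 a)
    _ = T.card * r := by rw [Finset.sum_const, nsmul_eq_mul]
    _ ≤ (q * (w - v + r) + 1) * r := by gcongr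
    _ = _ := by ring

lemma lattice_lower (q : ℕ) (hq : 0 < q) (r : ℝ) (hr : 0 < r) (v w : ℝ) (hv : 0 ≤ v)
    (hw : w ≤ 1) :
    r * (q * (w - v - r) - 1) ≤ ∑ a ∈ range q, volume.real (Set.Ico v w ∩ cl q a r) := by
  classical
  have hq' : (0:ℝ) < q := by exact_mod_cast hq
  set T := Finset.Ico ⌈(q:ℝ) * v⌉₊ ⌈(q:ℝ) * (w - r)⌉₊ with hT
  have hTsub : T ⊆ range q := by
    intro a ha
    rw [hT, Finset.mem_Ico] at ha
    rw [Finset.mem_range]
    refine lt_of_lt_of_le ha.2 ?_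
    rw [Nat.ceil_le]
    nlinarith
  have h2 : ∀ a ∈ T, volume.real (Set.Ico v w ∩ cl q a r) = r := by
    intro a ha
    rw [hT, Finset.mem_Ico, Nat.ceil_le, Nat.lt_ceil] at ha
    have : Set.Ico v w ∩ cl q a r = cl q a r := by
      apply Set.inter_eq_right.2
      intro x hx
      have e1 : v ≤ (a:ℝ)/q := by rw [le_div_iff₀ hq']; linarith [ha.1]
      have e2 : (a:ℝ)/q < w - r := by rw [div_lt_iff₀ hq']; linarith [ha.2]
      exact ⟨by linarith [hx.1], by linarith [hx.2]⟩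
    rw [this]
    simp [cl, Measure.real, hr.le]
  have h4 : (q:ℝ) * (w - v - r) - 1 ≤ (T.card:ℝ) := by
    rw [hT, Nat.card_Ico]
    have h5 : ((⌈(q:ℝ) * (w - r)⌉₊ : ℕ) : ℝ) - ((⌈(q:ℝ) * v⌉₊ : ℕ) : ℝ) ≤
      ((⌈(q:ℝ) * (w - r)⌉₊ - ⌈(q:ℝ) * v⌉₊ : ℕ) : ℝ) := by
      rw [tsub_le_iff_right]
      have : ⌈(q:ℝ) * (w - r)⌉₊ ≤ (⌈(q:ℝ) * (w - r)⌉₊ - ⌈(q:ℝ) * v⌉₊) + ⌈(q:ℝ) * v⌉₊ := by omega
      exact_mod_cast this
    have e1 := Nat.ceil_lt_add_one (a := (q:ℝ) * v) (by positivity)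
    have e2 := Nat.le_ceil ((q:ℝ) * (w - r))
    nlinarith
  calc r * (q * (w - v - r) - 1) ≤ r * T.card := by gcongr
    _ = ∑ a ∈ T, volume.real (Set.Ico v w ∩ cl q a r) := by
        rw [Finset.sum_congr rfl h2, Finset.sum_const, nsmul_eq_mul]; ring
    _ ≤ _ := Finset.sum_le_sum_of_subset_of_nonneg hTsub (fun _ _ _ => measureReal_nonneg)

/-- the masses of adjacent intervals of equal length are close -/
lemma stage_diff (P : Finset ℕ) (hP : P.Nonempty) (N : ℕ) (hN : 0 < N) (hq : ∀ q ∈ P, N < q)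
    (r : ℝ) (hr : 0 < r) (u h : ℝ) (hh : 0 ≤ h) (h1 : r ≤ u - 2 * h) (h2 : u ≤ 1) :
    -(2 * r + 2 / N) ≤ (stage P r).real (Set.Ico (u - h) u) -
      (stage P r).real (Set.Ico (u - 2 * h) (u - h)) := by
  rw [stage_real P r hr _ measurableSet_Ico, stage_real P r hr _ measurableSet_Ico,
    ← Finset.sum_sub_distrib]
  have hc : (0:ℝ) < P.card := by exact_mod_cast hP.card_pos
  have hN' : (0:ℝ) < N := by exact_mod_cast hN
  have key : ∀ q ∈ P, (1 / P.card) * (-(2 * r + 2 / N)) ≤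
      (∑ a ∈ range q, (1 / (P.card * (q * r))) * volume.real (Set.Ico (u - h) u ∩ cl q a r)) -
      ∑ a ∈ range q, (1 / (P.card * (q * r))) * volume.real (Set.Ico (u - 2 * h) (u - h) ∩ cl q a r) := by
    intro q hqP
    have hqN := hq q hqP
    have hq0 : (0:ℝ) < q := by exact_mod_cast (hN.trans hqN)
    rw [← Finset.mul_sum, ← Finset.mul_sum, ← mul_sub]
    have l1 := lattice_lower q (hN.trans hqN) r hr (u - h) u (by linarith) h2
    have l2 := lattice_upper q (hN.trans hqN) r hr (u - 2 * h) (u - h) h1 (by linarith)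
    have l3 : r * (q * (u - (u - h) - r) - 1) - r * (q * (u - h - (u - 2 * h) + r) + 1) =
      - (r * (2 * q * r + 2)) := by ring
    have l4 : -(r * (2 * q * r + 2)) ≤
      ∑ a ∈ range q, volume.real (Set.Ico (u - h) u ∩ cl q a r) -
      ∑ a ∈ range q, volume.real (Set.Ico (u - 2 * h) (u - h) ∩ cl q a r) := by linarith
    have l5 : (1 / P.card) * (-(2 * r + 2 / q)) = (1 / (P.card * (q * r))) * (-(r * (2 * q * r + 2))) := by
      field_simp
    calc (1 / (P.card:ℝ)) * (-(2 * r + 2 / N)) ≤ (1 / P.card) * (-(2 * r + 2 / q)) := by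
          apply mul_le_mul_of_nonneg_left _ (by positivity)
          have : (2:ℝ) / q ≤ 2 / N := by
            apply div_le_div_of_nonneg_left (by norm_num) hN'
            exact_mod_cast hqN.le
          linarith
      _ = _ := l5
      _ ≤ _ := mul_le_mul_of_nonneg_left l4 (by positivity)
  calc -(2 * r + 2 / (N:ℝ)) = ∑ q ∈ P, (1 / (P.card:ℝ)) * (-(2 * r + 2 / N)) := by
        rw [Finset.sum_const, nsmul_eq_mul]
        field_simp
    _ ≤ _ := Finset.sum_le_sum key

end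

end Pool.Agent.Helper71
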