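import Pool.Agent.Helper71.Lac3

set_option autoImplicit false
open Finset MeasureTheory

namespace Pool.Agent.Helper71

noncomputable section

lemma integrable_cl (F : ℝ → ℂ) (hF : Continuous F) (q a : ℕ) (r : ℝ) :
    Integrable F (volume.restrict (cl q a r)) := by
  have : IntegrableOn F (Set.Icc ((a:ℝ)/q) ((a:ℝ)/q + r)) := hF.continuousOn.integrableOn_Icc
  exact this.mono_set Set.Ioc_subset_Icc_self

lemma integral_stage (P : Finset ℕ) (r : ℝ) (hr : 0 < r) (F : ℝ → ℂ) (hF : Continuous F) :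
    ∫ x, F x ∂(stage P r) = ∑ q ∈ P, ∑ a ∈ range q,
      ((1 / (P.card * (q * r)) : ℝ) : ℂ) * ∫ x in cl q a r, F x := by
  unfold stage
  rw [integral_finsetSum_measure]
  · refine Finset.sum_congr rfl (fun q _ => ?_)
    rw [integral_finsetSum_measure]
    · refine Finset.sum_congr rfl (fun a _ => ?_)
      rw [integral_smul_measure, ENNReal.toReal_ofReal (by positivity)]
      simp
    · intro a _
      exact (integrable_cl F hF q a r).smul_measure ENNReal.ofReal_ne_top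
  · intro q _
    rw [integrable_finsetSum_measure]
    intro a _
    exact (integrable_cl F hF q a r).smul_measure ENNReal.ofReal_ne_top

/-- transform of the small bump -/
def Er (r ξ : ℝ) : ℂ := (1 / (r:ℂ)) * ∫ x in (0:ℝ)..r, ee (x * ξ)

lemma integral_cl_ee (q a : ℕ) (r : ℝ) (hr : 0 < r) (ξ : ℝ) :
    ∫ x in cl q a r, ee (x * ξ) = ee ((a:ℝ) / q * ξ) * ∫ x in (0:ℝ)..r, ee (x * ξ) := by
  unfold cl
  rw [← intervalIntegral.integral_of_le (by linarith)]
  have h := intervalIntegral.integral_comp_add_left (a := (0:ℝ)) (b := r)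
    (fun x => ee (x * ξ)) ((a:ℝ)/q)
  rw [add_zero] at h
  rw [← h, ← intervalIntegral.integral_const_mul]
  congr 1
  funext x
  rw [← ee_add]
  congr 1
  ring

lemma stage_ft (P : Finset ℕ) (hq : ∀ q ∈ P, 0 < q) (r : ℝ) (hr : 0 < r) (ξ : ℝ) :
    ∫ x, ee (x * ξ) ∂(stage P r) = ∑ q ∈ P, (1 / (P.card:ℂ)) * (Dq q ξ * Er r ξ) := by
  rw [integral_stage P r hr _ (by exact continuous_ee.comp (continuous_mul_const ξ))]
  refine Finset.sum_congr rfl (fun q hqP => ?_)
  have hq0 : (q:ℂ) ≠ 0 := by exact_mod_cast (hq q hqP).ne'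
  have hr0 : (r:ℂ) ≠ 0 := by exact_mod_cast hr.ne'
  unfold Dq Er
  simp only [integral_cl_ee q _ r hr ξ]
  rw [← Finset.mul_sum, ← Finset.sum_mul]
  generalize (∑ a ∈ range q, ee ((a:ℝ) / q * ξ)) = S
  generalize (∫ x in (0:ℝ)..r, ee (x * ξ)) = I
  push_cast
  by_cases hc : (P.card : ℂ) = 0
  · simp [hc]
  · field_simp

lemma norm_Er_le_one (r : ℝ) (hr : 0 < r) (ξ : ℝ) : ‖Er r ξ‖ ≤ 1 := by
  unfold Er
  rw [norm_mul]
  have h1 : ‖∫ x in (0:ℝ)..r, ee (x * ξ)‖ ≤ 1 * |r - 0| :=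
    intervalIntegral.norm_integral_le_of_norm_le_const (fun x _ => (norm_ee _).le)
  have h2 : ‖(1 / (r:ℂ))‖ = 1 / r := by
    rw [norm_div, norm_one, Complex.norm_real, Real.norm_eq_abs, abs_of_pos hr]
  rw [h2, div_mul_eq_mul_div, one_mul, div_le_one hr]
  rw [sub_zero, abs_of_pos hr, one_mul] at h1
  exact h1

lemma norm_Er_le (r : ℝ) (hr : 0 < r) (ξ : ℝ) (hξ : ξ ≠ 0) : ‖Er r ξ‖ ≤ 1 / (r * |ξ|) := by
  have h0 : ∫ x in (0:ℝ)..r, ee (x * ξ) = (ee (r * ξ) - 1) / (-(2 * Real.pi * ξ) * Complex.I) := by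
    have hc : (-(2 * Real.pi * ξ) * Complex.I : ℂ) ≠ 0 := by
      simp [Real.pi_ne_zero, hξ]
    have : ∀ x : ℝ, ee (x * ξ) = Complex.exp ((-(2 * Real.pi * ξ) * Complex.I) * x) := by
      intro x
      unfold ee
      congr 1
      push_cast
      ring
    simp only [this]
    rw [integral_exp_mul_complex hc]
    simp
  unfold Er
  rw [h0, norm_mul, norm_div (ee (r * ξ) - 1)]
  have h2 : ‖(1 / (r:ℂ))‖ = 1 / r := by
    rw [norm_div, norm_one, Complex.norm_real, Real.norm_eq_abs, abs_of_pos hr]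
  have h3 : ‖ee (r * ξ) - 1‖ ≤ 2 := by
    calc _ ≤ ‖ee (r * ξ)‖ + ‖(1:ℂ)‖ := norm_sub_le _ _
      _ = 2 := by rw [norm_ee]; norm_num
  have h4 : ‖(-(2 * Real.pi * ξ) * Complex.I : ℂ)‖ = 2 * Real.pi * |ξ| := by
    rw [norm_mul, Complex.norm_I, mul_one, norm_neg, norm_mul, norm_mul, Complex.norm_real,
      Complex.norm_real, Real.norm_eq_abs, Real.norm_eq_abs, abs_of_pos Real.pi_pos]
    simp
  have hξ' : 0 < |ξ| := abs_pos.2 hξ
  rw [h2, h4]
  have hpi : 1 ≤ Real.pi := by linarith [Real.pi_gt_three]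
  calc 1 / r * (‖ee (r * ξ) - 1‖ / (2 * Real.pi * |ξ|)) ≤ 1 / r * (2 / (2 * 1 * |ξ|)) := by
        gcongr
    _ = 1 / (r * |ξ|) := by field_simp

/-- uniform Fourier decay for one stage -/
lemma stage_decay (s : ℕ) (hs : 2 ≤ s) (P : Finset ℕ) (hcard : P.card = s ^ 2)
    (hP : ∀ q ∈ P, q.Prime ∧ s ^ 4 < q) (ξ : ℝ) (hξ : 1 ≤ |ξ|) :
    ‖∫ x, ee (x * ξ) ∂(stage P (1 / (s:ℝ) ^ 9))‖ ≤ 7 * |ξ| ^ (-(1/10) : ℝ) := by
  have hs' : (2:ℝ) ≤ s := by exact_mod_cast hs
  have hs0 : (0:ℝ) < s := by linarith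
  set r : ℝ := 1 / (s:ℝ) ^ 9 with hr
  have hr0 : 0 < r := by positivity
  have hq0 : ∀ q ∈ P, 0 < q := fun q hq => (hP q hq).1.pos
  have hcard' : (P.card : ℝ) = (s:ℝ) ^ 2 := by rw [hcard]; push_cast; ring
  have hξ0 : ξ ≠ 0 := by
    intro h; rw [h] at hξ; simp at hξ; linarith
  have hξpos : 0 < |ξ| := by linarith
  have hdec : |ξ| ^ (-1 : ℝ) ≤ |ξ| ^ (-(1/10) : ℝ) :=
    Real.rpow_le_rpow_of_exponent_le hξ (by norm_num)
  rw [stage_ft P hq0 r hr0 ξ]
  have hbase : ‖∑ q ∈ P, (1 / (P.card:ℂ)) * (Dq q ξ * Er r ξ)‖ ≤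
      ∑ q ∈ P, (1 / (s:ℝ)^2) * (‖Dq q ξ‖ * ‖Er r ξ‖) := by
    calc _ ≤ ∑ q ∈ P, ‖(1 / (P.card:ℂ)) * (Dq q ξ * Er r ξ)‖ := norm_sum_le _ _
      _ = _ := by
        refine Finset.sum_congr rfl (fun q _ => ?_)
        rw [norm_mul, norm_mul, norm_div, norm_one, Complex.norm_natCast, hcard']
  have hsum_const : ∀ C : ℝ, ∑ _q ∈ P, (1 / (s:ℝ)^2) * C = C := by
    intro C
    rw [Finset.sum_const, nsmul_eq_mul, hcard']
    field_simp
  refine hbase.trans ?_
  by_cases hA : |ξ| ≤ (s:ℝ) ^ 4 / 2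
  · -- small frequencies
    have h1 : ∀ q ∈ P, ‖Dq q ξ‖ * ‖Er r ξ‖ ≤ |ξ| ^ (-(1/10) : ℝ) := by
      intro q hq
      have hqs : (s:ℝ) ^ 4 < q := by exact_mod_cast (hP q hq).2
      have hqp : (0:ℝ) < q := by
        have : (0:ℝ) < (s:ℝ)^4 := by positivity
        linarith
      have hround : round (ξ / q) = 0 := by
        rw [round_eq_zero_iff]
        have hlt : |ξ / q| < 1 / 2 := by
          rw [abs_div, abs_of_pos hqp, div_lt_iff₀ hqp]
          linarith
        have := abs_lt.1 hlt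
        exact ⟨by linarith [this.1], this.2⟩
      have h2 := norm_Dq_le q (hq0 q hq) ξ |ξ| hξpos (by rw [hround]; simp)
      calc ‖Dq q ξ‖ * ‖Er r ξ‖ ≤ (1 / (2 * |ξ|)) * 1 :=
            mul_le_mul h2 (norm_Er_le_one r hr0 ξ) (norm_nonneg _) (by positivity)
        _ ≤ |ξ| ^ (-1 : ℝ) := by
            rw [Real.rpow_neg_one, mul_one, inv_eq_one_div]
            apply one_div_le_one_div_of_le hξpos
            linarith
        _ ≤ _ := hdec
    calc _ ≤ ∑ q ∈ P, (1 / (s:ℝ)^2) * (|ξ| ^ (-(1/10) : ℝ)) := by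
          refine Finset.sum_le_sum (fun q hq => ?_)
          exact mul_le_mul_of_nonneg_left (h1 q hq) (by positivity)
      _ = |ξ| ^ (-(1/10) : ℝ) := hsum_const _
      _ ≤ 7 * |ξ| ^ (-(1/10) : ℝ) := by
          have : 0 ≤ |ξ| ^ (-(1/10) : ℝ) := by positivity
          linarith
  · push Not at hA
    by_cases hB : |ξ| ≤ (s:ℝ) ^ 10
    · -- medium frequencies
      have hbad := card_bad s hs P hP ξ hA hB
      set B := P.filter (fun q : ℕ => |ξ - q * round (ξ / q)| ≤ s) with hBdef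
      have h1 : ∀ q ∈ P, ‖Dq q ξ‖ * ‖Er r ξ‖ ≤ (if |ξ - q * round (ξ / q)| ≤ s then 1 else 0) +
          1 / (2 * s) := by
        intro q hq
        split_ifs with h
        · have := mul_le_mul (norm_Dq_le_one q ξ) (norm_Er_le_one r hr0 ξ) (norm_nonneg _) zero_le_one
          have h3 : (0:ℝ) ≤ 1 / (2 * s) := by positivity
          linarith
        · push Not at h
          have h2 := norm_Dq_le q (hq0 q hq) ξ s hs0 h.le
          have := mul_le_mul h2 (norm_Er_le_one r hr0 ξ) (norm_nonneg _) (by positivity)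
          linarith
      have h2 : ∑ q ∈ P, (1 / (s:ℝ)^2) * (‖Dq q ξ‖ * ‖Er r ξ‖) ≤
          (1 / (s:ℝ)^2) * (2 * (2 * s + 1)) + 1 / (2 * s) := by
        calc _ ≤ ∑ q ∈ P, (1 / (s:ℝ)^2) * ((if |ξ - q * round (ξ / q)| ≤ s then 1 else 0) +
              1 / (2 * s)) := by
              refine Finset.sum_le_sum (fun q hq => ?_)
              exact mul_le_mul_of_nonneg_left (h1 q hq) (by positivity)
          _ = (1 / (s:ℝ)^2) * (B.card : ℝ) + 1 / (2 * s) := by
              simp only [mul_add]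
              rw [Finset.sum_add_distrib, hsum_const, ← Finset.mul_sum, Finset.sum_ite,
                Finset.sum_const_zero, add_zero, Finset.sum_const, nsmul_eq_mul, mul_one]
          _ ≤ _ := by
              have : (B.card : ℝ) ≤ 2 * (2 * s + 1) := by exact_mod_cast hbad
              gcongr
      have h3 : (1 / (s:ℝ)^2) * (2 * (2 * s + 1)) + 1 / (2 * s) ≤ 7 * (1 / s) := by
        have e : 7 * (1 / (s:ℝ)) - ((1 / (s:ℝ)^2) * (2 * (2 * s + 1)) + 1 / (2 * s)) =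
          (5 * s / 2 - 2) / s ^ 2 := by
          field_simp
          ring
        have : 0 ≤ (5 * (s:ℝ) / 2 - 2) / s ^ 2 := by
          apply div_nonneg
          · linarith
          · positivity
        linarith
      have h4 : 1 / (s:ℝ) ≤ |ξ| ^ (-(1/10) : ℝ) := by
        have h5 : ((s:ℝ) ^ 10) ^ (-(1/10) : ℝ) = 1 / s := by
          rw [← Real.rpow_natCast, ← Real.rpow_mul hs0.le]
          norm_num
          rw [Real.rpow_neg_one]
        rw [← h5]
        exact Real.rpow_le_rpow_of_nonpos hξpos hB (by norm_num)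
      linarith
    · -- large frequencies
      push Not at hB
      have h1 : ‖Er r ξ‖ ≤ |ξ| ^ (-(1/10) : ℝ) := by
        refine (norm_Er_le r hr0 ξ hξ0).trans ?_
        have h5 : (s:ℝ) ^ 9 ≤ |ξ| ^ (9/10 : ℝ) := by
          have : (s:ℝ) ^ 9 = ((s:ℝ) ^ 10) ^ (9/10 : ℝ) := by
            rw [← Real.rpow_natCast (s:ℝ) 10, ← Real.rpow_mul hs0.le, ← Real.rpow_natCast]
            norm_num
          rw [this]
          exact Real.rpow_le_rpow (by positivity) hB.le (by norm_num)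
        have h6 : |ξ| ^ (-(1/10) : ℝ) = |ξ| ^ (9/10 : ℝ) * |ξ|⁻¹ := by
          rw [← Real.rpow_neg_one, ← Real.rpow_add hξpos]
          norm_num
        rw [h6, hr]
        have h7 : 1 / (1 / (s:ℝ) ^ 9 * |ξ|) = (s:ℝ)^9 * |ξ|⁻¹ := by field_simp
        rw [h7]
        gcongr
      calc _ ≤ ∑ q ∈ P, (1 / (s:ℝ)^2) * (|ξ| ^ (-(1/10) : ℝ)) := by
            refine Finset.sum_le_sum (fun q hq => ?_)
            apply mul_le_mul_of_nonneg_left _ (by positivity)
            have := mul_le_mul (norm_Dq_le_one q ξ) h1 (norm_nonneg _) zero_le_one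
            linarith
        _ = |ξ| ^ (-(1/10) : ℝ) := hsum_const _
        _ ≤ 7 * |ξ| ^ (-(1/10) : ℝ) := by
            have : 0 ≤ |ξ| ^ (-(1/10) : ℝ) := by positivity
            linarith

end

end Pool.Agent.Helper71
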