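import Pool.Agent.Helper71.Lac4

set_option autoImplicit false
open Finset MeasureTheory

namespace Pool.Agent.Helper71

noncomputable section

/-- separation of fractions -/
lemma sep (q q' a a' : ℕ) (hq : q.Prime) (hq' : q'.Prime) (ha : 0 < a) (haq : a < q)
    (h : ¬ (q = q' ∧ a = a')) : 1 / ((q:ℝ) * q') ≤ |(a:ℝ) / q - (a':ℝ) / q'| := by
  have hq0 : (0:ℝ) < q := by exact_mod_cast hq.pos
  have hq0' : (0:ℝ) < q' := by exact_mod_cast hq'.pos
  have hne : (a:ℤ) * q' - a' * q ≠ 0 := by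
    intro h0
    have h1 : (a:ℤ) * q' = a' * q := by linarith
    have h2 : a * q' = a' * q := by exact_mod_cast h1
    by_cases hqq : q = q'
    · subst hqq
      have := Nat.eq_of_mul_eq_mul_right hq.pos h2
      exact h ⟨rfl, this⟩
    · have hdvd : q ∣ a * q' := by rw [h2]; exact Nat.dvd_mul_left _ _
      rcases (Nat.Prime.dvd_mul hq).1 hdvd with h3 | h3
      · exact absurd (Nat.le_of_dvd ha h3) (by omega)
      · exact hqq ((Nat.prime_dvd_prime_iff_eq hq hq').1 h3)
  have habs : (1:ℤ) ≤ |(a:ℤ) * q' - a' * q| := Int.one_le_abs hne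
  have habs' : (1:ℝ) ≤ |(a:ℝ) * q' - a' * q| := by
    have : ((1:ℤ):ℝ) ≤ ((|(a:ℤ) * q' - a' * q| : ℤ) : ℝ) := by exact_mod_cast habs
    push_cast at this
    exact this
  have e : (a:ℝ) / q - (a':ℝ) / q' = ((a:ℝ) * q' - a' * q) / (q * q') := by
    field_simp
  rw [e, abs_div, abs_of_pos (show (0:ℝ) < q * q' by positivity)]
  gcongr

/-- near an isolated cluster -/
lemma stage_cluster (s : ℕ) (hs : 2 ≤ s) (P : Finset ℕ) (hcard : P.card = s ^ 2)
    (hP : ∀ q ∈ P, q.Prime ∧ s ^ 4 < q ∧ q ≤ 4 * s ^ 4) (q : ℕ) (hq : q ∈ P) (a : ℕ)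
    (ha : 0 < a) (haq : a < q) (r : ℝ) (hr : 0 < r) (u h : ℝ) (hh : 2 * h ≤ 1 / (16 * (s:ℝ)^8))
    (hu1 : (a:ℝ) / q + r < u) (hu2 : u ≤ (a:ℝ) / q + h) :
    1 / (4 * (s:ℝ) ^ 6) ≤ (stage P r).real (Set.Ico (u - h) u) -
      (stage P r).real (Set.Ico (u - 2 * h) (u - h)) := by
  have hs0 : (0:ℝ) < s := by
    have : 0 < s := by omega
    exact_mod_cast this
  have hq0 : (0:ℝ) < q := by exact_mod_cast (hP q hq).1.pos
  have hcard' : (P.card : ℝ) = (s:ℝ) ^ 2 := by rw [hcard]; push_cast; ring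
  -- the second interval has no mass
  have hzero : (stage P r).real (Set.Ico (u - 2 * h) (u - h)) = 0 := by
    rw [stage_real P r hr _ measurableSet_Ico]
    refine Finset.sum_eq_zero (fun q' hq' => Finset.sum_eq_zero (fun a' ha' => ?_))
    have : Set.Ico (u - 2 * h) (u - h) ∩ cl q' a' r = ∅ := by
      rw [Set.eq_empty_iff_forall_notMem]
      rintro y ⟨hy1, hy2⟩
      have h1 : (a':ℝ)/q' < (a:ℝ)/q := by linarith [hy1.2, hy2.1]
      have h2 : (a:ℝ)/q - 2 * h < (a':ℝ)/q' := by linarith [hy1.1, hy2.2]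
      have h3 := sep q q' a a' (hP q hq).1 (hP q' hq').1 ha haq (by
        rintro ⟨rfl, rfl⟩
        exact lt_irrefl _ h1)
      rw [abs_of_pos (by linarith)] at h3
      have hq0' : (0:ℝ) < q' := by exact_mod_cast (hP q' hq').1.pos
      have h4 : 1 / (16 * (s:ℝ)^8) ≤ 1 / ((q:ℝ) * q') := by
        apply one_div_le_one_div_of_le (by positivity)
        have e1 : (q:ℝ) ≤ 4 * (s:ℝ)^4 := by exact_mod_cast (hP q hq).2.2
        have e2 : (q':ℝ) ≤ 4 * (s:ℝ)^4 := by exact_mod_cast (hP q' hq').2.2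
        calc (q:ℝ) * q' ≤ (4 * (s:ℝ)^4) * (4 * (s:ℝ)^4) := by gcongr
          _ = 16 * (s:ℝ)^8 := by ring
      linarith
    rw [this]
    simp
  rw [hzero, sub_zero, stage_real P r hr _ measurableSet_Ico]
  have hfull : volume.real (Set.Ico (u - h) u ∩ cl q a r) = r := by
    have : Set.Ico (u - h) u ∩ cl q a r = cl q a r := by
      apply Set.inter_eq_right.2
      intro x hx
      exact ⟨by linarith [hx.1], by linarith [hx.2]⟩
    rw [this]
    simp [cl, Measure.real, hr.le]
  calc 1 / (4 * (s:ℝ) ^ 6) ≤ (1 / (P.card * (q * r))) * volume.real (Set.Ico (u - h) u ∩ cl q a r) := by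
        rw [hfull, hcard']
        have e : 1 / ((s:ℝ)^2 * (q * r)) * r = 1 / ((s:ℝ)^2 * q) := by field_simp
        rw [e]
        apply one_div_le_one_div_of_le (by positivity)
        have e1 : (q:ℝ) ≤ 4 * (s:ℝ)^4 := by exact_mod_cast (hP q hq).2.2
        calc (s:ℝ)^2 * q ≤ (s:ℝ)^2 * (4 * (s:ℝ)^4) := by gcongr
          _ = 4 * (s:ℝ)^6 := by ring
    _ ≤ ∑ a ∈ range q, (1 / (P.card * (q * r))) * volume.real (Set.Ico (u - h) u ∩ cl q a r) := by
        apply Finset.single_le_sum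
          (f := fun a => (1 / (P.card * (q * r))) * volume.real (Set.Ico (u - h) u ∩ cl q a r))
          (fun i _ => by positivity) (Finset.mem_range.2 haq)
    _ ≤ _ := by
        apply Finset.single_le_sum
          (f := fun q : ℕ => ∑ a ∈ range q, (1 / (P.card * (q * r))) *
            volume.real (Set.Ico (u - h) u ∩ cl q a r))
          (fun i _ => Finset.sum_nonneg (fun _ _ => by positivity)) hq

/-! ### The sequence of stages -/

/-- exponents -/
def LL (j : ℕ) : ℕ := 10 ^ (j + 1)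

lemma LL_ge (j : ℕ) : 10 ≤ LL j := by
  unfold LL
  calc 10 = 10 ^ 1 := by norm_num
    _ ≤ 10 ^ (j+1) := Nat.pow_le_pow_right (by norm_num) (by omega)

/-- the primes of stage `j` -/
def PP' (j : ℕ) : Finset ℕ :=
  (exists_primes (LL j) (by have := LL_ge j; omega)).choose

lemma PP'_spec (j : ℕ) : (PP' j).card = 2 ^ (2 * LL j) ∧
    ∀ q ∈ PP' j, q.Prime ∧ 2 ^ (4 * LL j) < q ∧ q ≤ 4 * 2 ^ (4 * LL j) :=
  (exists_primes (LL j) (by have := LL_ge j; omega)).choose_spec

/-- `s_j` -/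
def ss (j : ℕ) : ℕ := 2 ^ LL j

lemma ss_ge (j : ℕ) : 2 ≤ ss j := by
  unfold ss
  calc 2 = 2 ^ 1 := by norm_num
    _ ≤ 2 ^ LL j := Nat.pow_le_pow_right (by norm_num) (by have := LL_ge j; omega)

lemma PP'_card (j : ℕ) : (PP' j).card = ss j ^ 2 := by
  rw [(PP'_spec j).1, ss, ← pow_mul]
  congr 1
  ring

lemma PP'_prop (j : ℕ) : ∀ q ∈ PP' j, q.Prime ∧ ss j ^ 4 < q ∧ q ≤ 4 * ss j ^ 4 := by
  have e : ss j ^ 4 = 2 ^ (4 * LL j) := by
    rw [ss, ← pow_mul]
    congr 1
    ring
  rw [e]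
  exact (PP'_spec j).2

lemma PP'_nonempty (j : ℕ) : (PP' j).Nonempty := by
  rw [← Finset.card_pos, PP'_card]
  have := ss_ge j
  positivity

def rr (j : ℕ) : ℝ := 1 / (ss j : ℝ) ^ 9

lemma ss_pos (j : ℕ) : (0:ℝ) < ss j := by
  have := ss_ge j
  have : 0 < ss j := by omega
  exact_mod_cast this

lemma rr_pos (j : ℕ) : 0 < rr j := by
  have := ss_pos j
  unfold rr
  positivity

/-- stage `j` -/
def st (j : ℕ) : Measure ℝ := stage (PP' j) (rr j)

lemma st_univ (j : ℕ) : st j Set.univ = 1 :=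
  stage_univ _ (PP'_nonempty j) (fun q hq => (PP'_prop j q hq).1.pos) _ (rr_pos j)

instance (j : ℕ) : IsProbabilityMeasure (st j) := ⟨st_univ j⟩

/-- the measure on the line -/
def nu : Measure ℝ := Measure.sum (fun j : ℕ => ENNReal.ofReal ((1/2:ℝ) ^ (j+1)) • st j)

lemma nu_univ : nu Set.univ = 1 := by
  unfold nu
  rw [Measure.sum_apply _ MeasurableSet.univ]
  simp only [Measure.smul_apply, st_univ, smul_eq_mul, mul_one]
  rw [← ENNReal.ofReal_tsum_of_nonneg (fun n => by positivity)]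
  · have : ∑' n : ℕ, ((1/2:ℝ) ^ (n+1)) = 1 := by
      simp only [pow_succ]
      rw [tsum_mul_right, tsum_geometric_two]
      norm_num
    rw [this, ENNReal.ofReal_one]
  · have := summable_geometric_two.mul_right (1/2:ℝ)
    simpa only [pow_succ] using this

instance : IsProbabilityMeasure nu := ⟨nu_univ⟩

lemma nu_supp : nu (Set.Icc 0 2)ᶜ = 0 := by
  unfold nu
  rw [Measure.sum_apply _ measurableSet_Icc.compl]
  simp only [Measure.smul_apply, smul_eq_mul]
  have : ∀ j, st j (Set.Icc 0 2)ᶜ = 0 := by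
    intro j
    apply stage_supp
    unfold rr
    rw [div_le_one (by have := ss_pos j; positivity)]
    have : (1:ℝ) ≤ ss j := by
      have := ss_ge j
      have : 1 ≤ ss j := by omega
      exact_mod_cast this
    exact one_le_pow₀ this
  simp [this]

lemma nu_hasSum (J : Set ℝ) (hJ : MeasurableSet J) :
    HasSum (fun j : ℕ => (1/2:ℝ) ^ (j+1) * (st j).real J) (nu.real J) := by
  have h1 : nu J = ∑' j : ℕ, ENNReal.ofReal ((1/2:ℝ) ^ (j+1)) * st j J := by
    unfold nu
    rw [Measure.sum_apply _ hJ]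
    simp only [Measure.smul_apply, smul_eq_mul]
  have h2 : ∑' j : ℕ, ENNReal.ofReal ((1/2:ℝ) ^ (j+1)) * st j J ≠ ⊤ := by
    rw [← h1]
    exact measure_ne_top _ _
  have h3 := ENNReal.hasSum_toReal h2
  have h4 : ∀ j : ℕ, (ENNReal.ofReal ((1/2:ℝ) ^ (j+1)) * st j J).toReal =
      (1/2:ℝ) ^ (j+1) * (st j).real J := by
    intro j
    rw [ENNReal.toReal_mul, ENNReal.toReal_ofReal (by positivity)]
    rfl
  simp only [h4] at h3
  have h5 : nu.real J = ∑' j : ℕ, (1/2:ℝ) ^ (j+1) * (st j).real J := by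
    unfold Measure.real
    rw [h1, ENNReal.tsum_toReal_eq]
    · simp only [h4]
      rfl
    · intro j
      exact ENNReal.mul_ne_top ENNReal.ofReal_ne_top (measure_ne_top _ _)
  rw [h5]
  exact h3

lemma nu_decay (ξ : ℝ) (hξ : 1 ≤ |ξ|) :
    ‖∫ x, ee (x * ξ) ∂nu‖ ≤ 7 * |ξ| ^ (-(1/10) : ℝ) := by
  have hint : Integrable (fun x => ee (x * ξ)) nu := by
    apply Integrable.of_bound (C := 1)
    · exact (continuous_ee.comp (continuous_mul_const ξ)).aestronglyMeasurable
    · filter_upwards with x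
      exact (norm_ee _).le
  have hsum := hasSum_integral_measure (μ := fun j : ℕ => ENNReal.ofReal ((1/2:ℝ) ^ (j+1)) • st j)
    (f := fun x => ee (x * ξ)) hint
  have hs : Summable (fun j : ℕ => (1/2:ℝ)^(j+1) * (7 * |ξ| ^ (-(1/10) : ℝ))) := by
    have := (summable_geometric_two.mul_right (1/2:ℝ)).mul_right (7 * |ξ| ^ (-(1/10) : ℝ))
    simpa only [pow_succ] using this
  have h2 : ∀ j : ℕ, ‖∫ x, ee (x * ξ) ∂(ENNReal.ofReal ((1/2:ℝ) ^ (j+1)) • st j)‖ ≤
      (1/2:ℝ)^(j+1) * (7 * |ξ| ^ (-(1/10) : ℝ)) := by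
    intro j
    rw [integral_smul_measure, ENNReal.toReal_ofReal (by positivity), norm_smul, Real.norm_eq_abs,
      abs_of_nonneg (by positivity)]
    apply mul_le_mul_of_nonneg_left _ (by positivity)
    exact stage_decay (ss j) (ss_ge j) (PP' j) (PP'_card j)
      (fun q hq => ⟨(PP'_prop j q hq).1, (PP'_prop j q hq).2.1⟩) ξ hξ
  have h3 : ∫ x, ee (x * ξ) ∂nu = ∑' j : ℕ, ∫ x, ee (x * ξ) ∂(ENNReal.ofReal ((1/2:ℝ) ^ (j+1)) • st j) :=
    hsum.tsum_eq.symm
  rw [h3]
  refine (tsum_of_norm_bounded hs.hasSum h2).trans ?_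
  rw [tsum_mul_right]
  have : ∑' n : ℕ, ((1/2:ℝ) ^ (n+1)) = 1 := by
    simp only [pow_succ]
    rw [tsum_mul_right, tsum_geometric_two]
    norm_num
  rw [this, one_mul]

/-- main pointwise lower bound -/
lemma nu_lower (j k q a : ℕ) (hk1 : 8 * LL j + 5 ≤ k) (hk2 : k ≤ 9 * LL j - 1) (hq : q ∈ PP' j)
    (ha : (q + 1) / 2 ≤ a) (haq : a < q) (u : ℝ) (hu1 : (a:ℝ) / q + rr j < u)
    (hu2 : u ≤ (a:ℝ) / q + 1 / 2 ^ k) :
    1 / 2 ^ (6 * LL j + j + 4) ≤ nu.real (Set.Ico (u - 1 / 2 ^ k) u) -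
      nu.real (Set.Ico (u - 2 * (1 / 2 ^ k)) (u - 1 / 2 ^ k)) := by
  set h : ℝ := 1 / 2 ^ k with hh
  set E : ℝ := 1 / 2 ^ (6 * LL j + j + 4) with hE
  have hq' := PP'_prop j q hq
  have hq0 : (0:ℝ) < q := by exact_mod_cast hq'.1.pos
  have ha0 : 0 < a := by
    have := hq'.1.two_le
    omega
  have hhalf : 1 / 2 ≤ (a:ℝ) / q := by
    rw [le_div_iff₀ hq0]
    have : q ≤ 2 * a := by omega
    have : (q:ℝ) ≤ 2 * a := by exact_mod_cast this
    linarith
  have hL := LL_ge j
  have hpow : ∀ m : ℕ, m ≤ k → h ≤ 1 / 2 ^ m := by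
    intro m hm
    apply one_div_le_one_div_of_le (by positivity)
    exact pow_le_pow_right₀ (by norm_num) hm
  have hh0 : 0 < h := by positivity
  have hsL : (ss j : ℝ) = 2 ^ LL j := by unfold ss; push_cast; rfl
  have hqk : h ≤ 1 / q := by
    apply one_div_le_one_div_of_le hq0
    have e1 : (q:ℝ) ≤ 4 * (ss j : ℝ) ^ 4 := by exact_mod_cast hq'.2.2
    have e2 : 4 * (ss j : ℝ) ^ 4 = 2 ^ (4 * LL j + 2) := by
      rw [hsL, ← pow_mul, pow_add]
      ring
    rw [e2] at e1
    exact e1.trans (pow_le_pow_right₀ (by norm_num) (by omega))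
  have hu3 : u ≤ 1 := by
    have : (a:ℝ) / q + 1 / q ≤ 1 := by
      rw [← add_div, div_le_one hq0]
      have : a + 1 ≤ q := haq
      exact_mod_cast this
    linarith
  -- termwise bounds
  have hE0 : 0 < E := by positivity
  have hterm : ∀ i, -E ≤ (st i).real (Set.Ico (u - h) u) -
      (st i).real (Set.Ico (u - 2 * h) (u - h)) := by
    intro i
    rcases lt_trichotomy i j with hij | hij | hij
    · -- earlier stages: bounded density
      have h1 := stage_le (PP' i) (PP'_nonempty i) (fun q hq => (PP'_prop i q hq).1.pos) (rr i)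
        (rr_pos i) (Set.Ico (u - 2 * h) (u - h)) measurableSet_Ico (by simp)
      have h2 : volume.real (Set.Ico (u - 2 * h) (u - h)) = h := by
        rw [Measure.real, Real.volume_Ico, ENNReal.toReal_ofReal (by linarith)]
        ring
      rw [h2] at h1
      have h3 : 0 ≤ (st i).real (Set.Ico (u - h) u) := measureReal_nonneg
      have h4 : 1 / rr i = 2 ^ (9 * LL i) := by
        unfold rr ss
        push_cast
        rw [one_div_one_div, ← pow_mul]
        congr 1
        ring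
      rw [h4] at h1
      have h5 : (2:ℝ) ^ (9 * LL i) * h ≤ E := by
        rw [hh, hE, mul_one_div, div_le_div_iff₀ (by positivity) (by positivity), one_mul,
          ← pow_add]
        apply pow_le_pow_right₀ (by norm_num)
        have h6 : 10 * LL i ≤ LL j := by
          unfold LL
          calc 10 * 10 ^ (i+1) = 10 ^ (i + 1 + 1) := by ring
            _ ≤ 10 ^ (j + 1) := Nat.pow_le_pow_right (by norm_num) (by omega)
        have h7 : j < LL j := by
          unfold LL
          exact lt_of_lt_of_le (Nat.lt_pow_self (by norm_num : 1 < 10)) (Nat.pow_le_pow_right (by norm_num) (by omega))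
        omega
      unfold st at h3 ⊢
      linarith
    · subst hij
      have h1 := stage_cluster (ss i) (ss_ge i) (PP' i) (PP'_card i) (PP'_prop i) q hq a ha0 haq
        (rr i) (rr_pos i) u h (by
          have e1 : (16 * (ss i : ℝ) ^ 8) = 2 ^ (8 * LL i + 4) := by
            rw [hsL, ← pow_mul, pow_add]
            ring
          rw [e1]
          have := hpow (8 * LL i + 5) hk1
          have e2 : (1:ℝ) / 2 ^ (8 * LL i + 4) = 2 * (1 / 2 ^ (8 * LL i + 5)) := by
            rw [pow_succ 2 (8 * LL i + 4)]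
            field_simp
          rw [e2]
          linarith) hu1 hu2
      unfold st
      have : (0:ℝ) ≤ 1 / (4 * (ss i : ℝ) ^ 6) := by positivity
      linarith
    · -- later stages: equidistribution
      have h1 := stage_diff (PP' i) (PP'_nonempty i) (ss i ^ 4) (by have := ss_ge i; positivity)
        (fun q hq => (PP'_prop i q hq).2.1) (rr i) (rr_pos i) u h hh0.le (by
          have e1 : rr i ≤ 1 / 8 := by
            unfold rr
            apply one_div_le_one_div_of_le (by norm_num)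
            have : (2:ℝ) ≤ ss i := by exact_mod_cast ss_ge i
            calc (8:ℝ) ≤ 2 ^ 9 := by norm_num
              _ ≤ (ss i : ℝ) ^ 9 := by gcongr
          have e2 : h ≤ 1 / 2 ^ 4 := hpow 4 (by omega)
          norm_num at e2
          have := rr_pos j
          linarith) hu3
      have hsi : (ss i : ℝ) = 2 ^ LL i := by unfold ss; push_cast; rfl
      have h2 : 2 * rr i + 2 / ((ss i ^ 4 : ℕ) : ℝ) ≤ E := by
        have e1 : rr i ≤ 1 / (ss i : ℝ) ^ 4 := by
          unfold rr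
          have : (1:ℝ) ≤ ss i := by
            have : (2:ℝ) ≤ ss i := by exact_mod_cast ss_ge i
            linarith
          apply one_div_le_one_div_of_le (by positivity)
          exact pow_le_pow_right₀ this (by norm_num)
        have e2 : (2:ℝ) / ((ss i ^ 4 : ℕ) : ℝ) = 2 * (1 / (ss i : ℝ) ^ 4) := by
          push_cast
          ring
        have e3 : 4 * (1 / (ss i : ℝ) ^ 4) ≤ E := by
          rw [hsi, hE, ← pow_mul, mul_one_div, div_le_div_iff₀ (by positivity) (by positivity),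
            one_mul]
          have e4 : (4:ℝ) = 2 ^ 2 := by norm_num
          rw [e4, ← pow_add]
          apply pow_le_pow_right₀ (by norm_num)
          have h6 : 10 * LL j ≤ LL i := by
            unfold LL
            calc 10 * 10 ^ (j+1) = 10 ^ (j + 1 + 1) := by ring
              _ ≤ 10 ^ (i + 1) := Nat.pow_le_pow_right (by norm_num) (by omega)
          have h7 : j < LL j := by
            unfold LL
            exact lt_of_lt_of_le (Nat.lt_pow_self (by norm_num : 1 < 10)) (Nat.pow_le_pow_right (by norm_num) (by omega))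
          omega
        rw [e2]
        linarith
      unfold st
      linarith
  have hj : 1 / (4 * (ss j:ℝ) ^ 6) ≤ (st j).real (Set.Ico (u - h) u) -
      (st j).real (Set.Ico (u - 2 * h) (u - h)) := by
    exact stage_cluster (ss j) (ss_ge j) (PP' j) (PP'_card j) (PP'_prop j) q hq a ha0 haq
        (rr j) (rr_pos j) u h (by
          have e1 : (16 * (ss j : ℝ) ^ 8) = 2 ^ (8 * LL j + 4) := by
            rw [hsL, ← pow_mul, pow_add]
            ring
          rw [e1]
          have := hpow (8 * LL j + 5) hk1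
          have e2 : (1:ℝ) / 2 ^ (8 * LL j + 4) = 2 * (1 / 2 ^ (8 * LL j + 5)) := by
            rw [pow_succ 2 (8 * LL j + 4)]
            field_simp
          rw [e2]
          linarith) hu1 hu2
  -- sum up
  have hs1 := nu_hasSum (Set.Ico (u - h) u) measurableSet_Ico
  have hs2 := nu_hasSum (Set.Ico (u - 2 * h) (u - h)) measurableSet_Ico
  have hs3 : HasSum (fun i : ℕ => (1/2:ℝ)^(i+1) * E) E := by
    have h1 := (hasSum_geometric_two.mul_right (1/2:ℝ)).mul_right E
    have h2 : (2:ℝ) * (1/2) * E = E := by ring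
    rw [h2] at h1
    simpa only [pow_succ] using h1
  have hs4 := (hs1.sub hs2).add hs3
  have h5 := le_hasSum hs4 j (by
    intro i _
    have := hterm i
    have e : (1/2:ℝ)^(i+1) * (st i).real (Set.Ico (u - h) u) -
      (1/2:ℝ)^(i+1) * (st i).real (Set.Ico (u - 2 * h) (u - h)) + (1/2:ℝ)^(i+1) * E =
      (1/2:ℝ)^(i+1) * ((st i).real (Set.Ico (u - h) u) -
      (st i).real (Set.Ico (u - 2 * h) (u - h)) + E) := by ring
    rw [e]
    apply mul_nonneg (by positivity)
    linarith)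
  have h6 : 2 * E ≤ (1/2:ℝ)^(j+1) * (1 / (4 * (ss j:ℝ) ^ 6)) := by
    have e1 : (4 * (ss j:ℝ) ^ 6) = 2 ^ (6 * LL j + 2) := by
      rw [hsL, ← pow_mul, pow_add]
      ring
    rw [e1, hE, one_div_pow, one_div_mul_one_div, ← pow_add, mul_one_div,
      div_le_div_iff₀ (by positivity) (by positivity), one_mul, ← pow_succ']
    apply pow_le_pow_right₀ (by norm_num)
    omega
  have h7 : (1/2:ℝ)^(j+1) * (1 / (4 * (ss j:ℝ) ^ 6)) ≤ (1/2:ℝ)^(j+1) *
      ((st j).real (Set.Ico (u - h) u) - (st j).real (Set.Ico (u - 2 * h) (u - h))) := by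
    apply mul_le_mul_of_nonneg_left hj (by positivity)
  have h8 : 0 ≤ (1/2:ℝ)^(j+1) * E := by positivity
  have h9 : (1/2:ℝ)^(j+1) * ((st j).real (Set.Ico (u - h) u) - (st j).real (Set.Ico (u - 2 * h) (u - h)))
    = (1/2:ℝ)^(j+1) * (st j).real (Set.Ico (u - h) u) -
      (1/2:ℝ)^(j+1) * (st j).real (Set.Ico (u - 2 * h) (u - h)) := by ring
  linarith

end

end Pool.Agent.Helper71
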