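import Pool.Agent.Helper71.Lac5

set_option autoImplicit false
open Finset MeasureTheory

namespace Pool.Agent.Helper71

noncomputable section

/-- the atom -/
def phi (z : ℝ) : ℝ := (Set.Ioc (0:ℝ) 1).indicator (fun _ => (1:ℝ)) z -
  (Set.Ioc (1:ℝ) 2).indicator (fun _ => (1:ℝ)) z

/-- value of the average at scale `2^k` -/
def VV (k : ℕ) (x : ℝ) : ℝ := nu.real (Set.Ico (x / 2 ^ k - 1 / 2 ^ k) (x / 2 ^ k)) -
      nu.real (Set.Ico (x / 2 ^ k - 2 * (1 / 2 ^ k)) (x / 2 ^ k - 1 / 2 ^ k))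

lemma integral_phi (k : ℕ) (x : ℝ) : ∫ y, phi (x - 2 ^ k * y) ∂nu = VV k x := by
  have hk : (0:ℝ) < 2 ^ k := by positivity
  have h1 : ∀ y : ℝ, phi (x - 2 ^ k * y) =
      (Set.Ico (x / 2 ^ k - 1 / 2 ^ k) (x / 2 ^ k)).indicator (fun _ => (1:ℝ)) y -
      (Set.Ico (x / 2 ^ k - 2 * (1 / 2 ^ k)) (x / 2 ^ k - 1 / 2 ^ k)).indicator (fun _ => (1:ℝ)) y := by
    intro y
    unfold phi
    have e1 : (x - 2 ^ k * y ∈ Set.Ioc (0:ℝ) 1) ↔ y ∈ Set.Ico (x / 2 ^ k - 1 / 2 ^ k) (x / 2 ^ k) := by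
      rw [Set.mem_Ioc, Set.mem_Ico, ← sub_div, div_le_iff₀ hk, lt_div_iff₀ hk]
      constructor
      · rintro ⟨a, b⟩; constructor <;> linarith
      · rintro ⟨a, b⟩; constructor <;> linarith
    have e2 : (x - 2 ^ k * y ∈ Set.Ioc (1:ℝ) 2) ↔
        y ∈ Set.Ico (x / 2 ^ k - 2 * (1 / 2 ^ k)) (x / 2 ^ k - 1 / 2 ^ k) := by
      rw [Set.mem_Ioc, Set.mem_Ico, mul_one_div, ← sub_div, ← sub_div, div_le_iff₀ hk, lt_div_iff₀ hk]
      constructor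
      · rintro ⟨a, b⟩; constructor <;> linarith
      · rintro ⟨a, b⟩; constructor <;> linarith
    congr 1
    · by_cases h : x - 2 ^ k * y ∈ Set.Ioc (0:ℝ) 1
      · rw [Set.indicator_of_mem h, Set.indicator_of_mem (e1.1 h)]
      · rw [Set.indicator_of_notMem h, Set.indicator_of_notMem (fun h' => h (e1.2 h'))]
    · by_cases h : x - 2 ^ k * y ∈ Set.Ioc (1:ℝ) 2
      · rw [Set.indicator_of_mem h, Set.indicator_of_mem (e2.1 h)]
      · rw [Set.indicator_of_notMem h, Set.indicator_of_notMem (fun h' => h (e2.2 h'))]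
  simp only [h1]
  rw [integral_sub, integral_indicator_const _ measurableSet_Ico,
    integral_indicator_const _ measurableSet_Ico]
  · unfold VV
    simp
  · exact (integrable_const _).indicator measurableSet_Ico
  · exact (integrable_const _).indicator measurableSet_Ico

/-- the good intervals -/
def JJ (j : ℕ) (t : ℕ × (Σ _ : ℕ, ℕ)) : Set ℝ :=
  Set.Ioc (2 ^ t.1 * ((t.2.2 : ℝ) / t.2.1 + rr j)) (2 ^ t.1 * ((t.2.2 : ℝ) / t.2.1) + 1)

/-- the index set -/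
def TTT (j : ℕ) : Finset (ℕ × (Σ _ : ℕ, ℕ)) :=
  (Finset.Icc (8 * LL j + 5) (9 * LL j - 1)) ×ˢ
    ((PP' j).sigma (fun q => Finset.Ico ((q + 1) / 2) q))

lemma mem_TTT (j : ℕ) (t : ℕ × (Σ _ : ℕ, ℕ)) : t ∈ TTT j ↔
    (8 * LL j + 5 ≤ t.1 ∧ t.1 ≤ 9 * LL j - 1) ∧ t.2.1 ∈ PP' j ∧ (t.2.1 + 1) / 2 ≤ t.2.2 ∧
      t.2.2 < t.2.1 := by
  unfold TTT
  rw [Finset.mem_product, Finset.mem_Icc, Finset.mem_sigma, Finset.mem_Ico]

lemma card_TTT (j : ℕ) : (LL j - 5) * (2 ^ (2 * LL j) * 2 ^ (4 * LL j - 1)) ≤ (TTT j).card := by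
  unfold TTT
  rw [Finset.card_product, Finset.card_sigma, Nat.card_Icc]
  have h1 : 9 * LL j - 1 + 1 - (8 * LL j + 5) = LL j - 5 := by
    have := LL_ge j
    omega
  rw [h1]
  apply Nat.mul_le_mul_left
  rw [← (PP'_spec j).1, ← smul_eq_mul, ← Finset.sum_const]
  apply Finset.sum_le_sum
  intro q hq
  rw [Nat.card_Ico]
  have h2 := ((PP'_spec j).2 q hq).2.1
  have h3 : 2 ^ (4 * LL j) = 2 * 2 ^ (4 * LL j - 1) := by
    rw [← pow_succ']
    congr 1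
    have := LL_ge j
    omega
  omega

lemma JJ_sub (j : ℕ) (t : ℕ × (Σ _ : ℕ, ℕ)) (ht : t ∈ TTT j) :
    JJ j t ⊆ {x | ∃ k : ℕ, 1 / 2 ^ (6 * LL j + j + 4) ≤ VV k x} := by
  rw [mem_TTT] at ht
  obtain ⟨⟨hk1, hk2⟩, hq, ha, haq⟩ := ht
  intro x hx
  refine ⟨t.1, ?_⟩
  have hk : (0:ℝ) < 2 ^ t.1 := by positivity
  apply nu_lower j t.1 t.2.1 t.2.2 hk1 hk2 hq ha haq
  · rw [lt_div_iff₀ hk]
    have := hx.1
    linarith
  · rw [div_le_iff₀ hk]
    have := hx.2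
    have e : ((t.2.2 : ℝ) / t.2.1 + 1 / 2 ^ t.1) * 2 ^ t.1 = 2 ^ t.1 * ((t.2.2 : ℝ) / t.2.1) + 1 := by
      field_simp
    rw [e]
    exact this

lemma two_pow_rr (j k : ℕ) (hk2 : k ≤ 9 * LL j - 1) : (2:ℝ) ^ k * rr j ≤ 1 / 2 := by
  have hL := LL_ge j
  have e1 : rr j = 1 / 2 ^ (9 * LL j) := by
    unfold rr ss
    push_cast
    rw [← pow_mul]
    congr 2
    ring
  rw [e1, mul_one_div, div_le_div_iff₀ (by positivity) (by norm_num), one_mul, ← pow_succ]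
  exact pow_le_pow_right₀ (by norm_num) (by omega)

lemma JJ_vol (j : ℕ) (t : ℕ × (Σ _ : ℕ, ℕ)) (ht : t ∈ TTT j) :
    ENNReal.ofReal (1 / 2) ≤ volume (JJ j t) := by
  rw [mem_TTT] at ht
  obtain ⟨⟨hk1, hk2⟩, hq, ha, haq⟩ := ht
  unfold JJ
  rw [Real.volume_Ioc]
  apply ENNReal.ofReal_le_ofReal
  have := two_pow_rr j t.1 hk2
  linarith

lemma JJ_range (j : ℕ) (t : ℕ × (Σ _ : ℕ, ℕ)) (ht : t ∈ TTT j) (x : ℝ) (hx : x ∈ JJ j t) :
    2 ^ t.1 / 2 < x ∧ x ≤ 2 ^ t.1 := by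
  rw [mem_TTT] at ht
  obtain ⟨⟨hk1, hk2⟩, hq, ha, haq⟩ := ht
  have hk : (0:ℝ) < 2 ^ t.1 := by positivity
  have hq' := PP'_prop j _ hq
  have hq0 : (0:ℝ) < t.2.1 := by exact_mod_cast hq'.1.pos
  have hhalf : 1 / 2 ≤ (t.2.2:ℝ) / t.2.1 := by
    rw [le_div_iff₀ hq0]
    have : t.2.1 ≤ 2 * t.2.2 := by omega
    have : (t.2.1:ℝ) ≤ 2 * t.2.2 := by exact_mod_cast this
    linarith
  constructor
  · have h1 := hx.1
    have h2 := rr_pos j
    nlinarith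
  · have h1 := hx.2
    have h3 : (t.2.2:ℝ) / t.2.1 + 1 / t.2.1 ≤ 1 := by
      rw [← add_div, div_le_one hq0]
      have : t.2.2 + 1 ≤ t.2.1 := haq
      exact_mod_cast this
    have h4 : 1 ≤ (2:ℝ) ^ t.1 * (1 / t.2.1) := by
      rw [mul_one_div, le_div_iff₀ hq0, one_mul]
      have e1 : (t.2.1:ℝ) ≤ 4 * (ss j : ℝ) ^ 4 := by exact_mod_cast hq'.2.2
      have e2 : 4 * (ss j : ℝ) ^ 4 = 2 ^ (4 * LL j + 2) := by
        unfold ss
        push_cast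
        rw [← pow_mul, pow_add]
        ring
      rw [e2] at e1
      have := LL_ge j
      exact e1.trans (pow_le_pow_right₀ (by norm_num) (by omega))
    nlinarith

lemma JJ_disjoint (j : ℕ) : ((TTT j : Finset _) : Set (ℕ × (Σ _ : ℕ, ℕ))).PairwiseDisjoint (JJ j) := by
  intro t ht t' ht' hne
  rw [Finset.mem_coe] at ht ht'
  rw [Function.onFun, Set.disjoint_left]
  intro x hx hx'
  have r1 := JJ_range j t ht x hx
  have r2 := JJ_range j t' ht' x hx'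
  rw [mem_TTT] at ht ht'
  obtain ⟨⟨hk1, hk2⟩, hq, ha, haq⟩ := ht
  obtain ⟨⟨hk1', hk2'⟩, hq', ha', haq'⟩ := ht'
  obtain ⟨k, ⟨q, a⟩⟩ := t
  obtain ⟨k', ⟨q', a'⟩⟩ := t'
  simp only at *
  have hkk : k = k' := by
    rcases lt_trichotomy k k' with h | h | h
    · exfalso
      have : (2:ℝ) ^ (k + 1) ≤ 2 ^ k' := pow_le_pow_right₀ (by norm_num) h
      rw [pow_succ] at this
      linarith [r1.2, r2.1]
    · exact h
    · exfalso
      have : (2:ℝ) ^ (k' + 1) ≤ 2 ^ k := pow_le_pow_right₀ (by norm_num) h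
      rw [pow_succ] at this
      linarith [r2.2, r1.1]
  subst hkk
  have hqa : ¬ (q = q' ∧ a = a') := by
    rintro ⟨rfl, rfl⟩
    exact hne rfl
  have hp := PP'_prop j q hq
  have hp' := PP'_prop j q' hq'
  have ha0 : 0 < a := by
    have := hp.1.two_le
    omega
  have h3 := sep q q' a a' hp.1 hp'.1 ha0 haq hqa
  have hq0 : (0:ℝ) < q := by exact_mod_cast hp.1.pos
  have hq0' : (0:ℝ) < q' := by exact_mod_cast hp'.1.pos
  have h4 : 1 / (16 * (ss j:ℝ)^8) ≤ 1 / ((q:ℝ) * q') := by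
    apply one_div_le_one_div_of_le (by positivity)
    have e1 : (q:ℝ) ≤ 4 * (ss j:ℝ)^4 := by exact_mod_cast hp.2.2
    have e2 : (q':ℝ) ≤ 4 * (ss j:ℝ)^4 := by exact_mod_cast hp'.2.2
    calc (q:ℝ) * q' ≤ (4 * (ss j:ℝ)^4) * (4 * (ss j:ℝ)^4) := by gcongr
      _ = 16 * (ss j:ℝ)^8 := by ring
  have h5 : (2:ℝ) ^ k * (1 / (16 * (ss j:ℝ)^8)) ≥ 2 := by
    have e1 : (16 * (ss j : ℝ) ^ 8) = 2 ^ (8 * LL j + 4) := by
      unfold ss
      push_cast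
      rw [← pow_mul, pow_add]
      ring
    rw [e1, mul_one_div, ge_iff_le, le_div_iff₀ (by positivity), ← pow_succ']
    exact pow_le_pow_right₀ (by norm_num) hk1
  have hk : (0:ℝ) < 2 ^ k := by positivity
  have h6 : 2 ≤ (2:ℝ) ^ k * |(a:ℝ)/q - (a':ℝ)/q'| := by
    calc (2:ℝ) ≤ 2 ^ k * (1 / (16 * (ss j:ℝ)^8)) := h5
      _ ≤ _ := by
        apply mul_le_mul_of_nonneg_left _ hk.le
        exact h4.trans h3
  have h7 : (2:ℝ) ^ k * |(a:ℝ)/q - (a':ℝ)/q'| = |2 ^ k * ((a:ℝ)/q) - 2 ^ k * ((a':ℝ)/q')| := by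
    rw [← mul_sub, abs_mul, abs_of_pos hk]
  rw [h7] at h6
  have h8 := rr_pos j
  have h9 : (0:ℝ) < 2 ^ k * rr j := by positivity
  have x1 := hx.1
  have x2 := hx.2
  have x3 := hx'.1
  have x4 := hx'.2
  simp only [mul_add] at x1 x2 x3 x4
  rcases le_abs.1 h6 with h | h
  · linarith
  · linarith

/-- the level set is large -/
lemma big_set (j : ℕ) :
    ENNReal.ofReal (((LL j - 5 : ℕ) : ℝ) * 2 ^ (6 * LL j - 2)) ≤
      volume {x | ∃ k : ℕ, 1 / 2 ^ (6 * LL j + j + 4) ≤ VV k x} := by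
  calc ENNReal.ofReal (((LL j - 5 : ℕ) : ℝ) * 2 ^ (6 * LL j - 2))
      ≤ ENNReal.ofReal (((TTT j).card : ℝ) * (1 / 2)) := by
        apply ENNReal.ofReal_le_ofReal
        have h1 := card_TTT j
        have h2 : (((LL j - 5) * (2 ^ (2 * LL j) * 2 ^ (4 * LL j - 1)) : ℕ) : ℝ) ≤ (TTT j).card := by
          exact_mod_cast h1
        push_cast at h2
        have h3 : (2:ℝ) ^ (2 * LL j) * 2 ^ (4 * LL j - 1) = 2 * 2 ^ (6 * LL j - 2) := by
          rw [← pow_add, ← pow_succ']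
          congr 1
          have := LL_ge j
          omega
        rw [h3] at h2
        linarith
    _ = ∑ _t ∈ TTT j, ENNReal.ofReal (1 / 2) := by
        rw [Finset.sum_const, nsmul_eq_mul, ENNReal.ofReal_mul (by positivity),
          ENNReal.ofReal_natCast]
    _ ≤ ∑ t ∈ TTT j, volume (JJ j t) := Finset.sum_le_sum (fun t ht => JJ_vol j t ht)
    _ = volume (⋃ t ∈ TTT j, JJ j t) :=
        (measure_biUnion_finset (JJ_disjoint j) (fun t _ => measurableSet_Ioc)).symm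
    _ ≤ _ := by
        apply measure_mono
        exact Set.iUnion₂_subset (fun t ht => JJ_sub j t ht)

end

end Pool.Agent.Helper71
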