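import Pool.Agent.Helper71.Lac6

set_option autoImplicit false
open MeasureTheory

namespace Pool.Agent.Helper71

noncomputable section

/-- the Gaussian -/
def gam (y : ℝ) : ℝ := Real.exp (-Real.pi * y ^ 2)

lemma gam_integral : ∫ y, gam y = 1 := by
  unfold gam
  rw [integral_gaussian]
  simp [Real.pi_ne_zero]

lemma gam_integrable : Integrable gam := by
  unfold gam
  exact integrable_exp_neg_mul_sq Real.pi_pos

lemma gam_cont : Continuous gam := by
  unfold gam
  fun_prop

lemma gam_nonneg (y : ℝ) : 0 ≤ gam y := (Real.exp_pos _).le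

lemma gam_deriv (y : ℝ) : HasDerivAt gam (-(2 * Real.pi * y) * gam y) y := by
  unfold gam
  have h := ((hasDerivAt_pow 2 y).const_mul (-Real.pi)).exp
  convert h using 1
  simp
  ring

lemma gam_deriv_bound (z R : ℝ) (hR : 0 < R) (hz : R ≤ |z|) :
    ‖-(2 * Real.pi * z) * gam z‖ ≤ 2 * Real.pi / R ^ 2 := by
  have hpi := Real.pi_pos
  have hpi3 := Real.pi_gt_three
  rw [norm_mul, norm_neg, Real.norm_eq_abs, Real.norm_eq_abs, abs_mul, abs_mul, abs_two,
    abs_of_pos hpi, abs_of_nonneg (gam_nonneg z)]
  have h1 : |z| ^ 3 * gam z ≤ 1 := by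
    have h2 : |z| ^ 3 ≤ Real.exp (Real.pi * z ^ 2) := by
      have h3 := Real.add_one_le_exp (Real.pi * z ^ 2 / 2)
      have h4 : Real.exp (Real.pi * z ^ 2) = Real.exp (Real.pi * z ^ 2 / 2) ^ 2 := by
        rw [← Real.exp_nat_mul]
        congr 1
        push_cast
        ring
      rw [h4]
      have hz2 : z ^ 2 = |z| ^ 2 := (sq_abs z).symm
      have h5 : 1 + |z| ^ 2 ≤ Real.exp (Real.pi * z ^ 2 / 2) := by
        rw [← hz2]
        nlinarith [sq_nonneg z]
      have h6 : (1 + |z| ^ 2) ^ 2 ≤ Real.exp (Real.pi * z ^ 2 / 2) ^ 2 := by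
        gcongr
      refine le_trans ?_ h6
      have h7 := abs_nonneg z
      nlinarith [mul_nonneg h7 (sq_nonneg (|z| - 1)), sq_nonneg (|z|^2 - |z|), mul_nonneg (mul_nonneg h7 h7) h7]
    have h8 : gam z = (Real.exp (Real.pi * z ^ 2))⁻¹ := by
      unfold gam
      rw [← Real.exp_neg]
      congr 1
      ring
    rw [h8, ← div_eq_mul_inv, div_le_one (Real.exp_pos _)]
    exact h2
  have hz0 : 0 < |z| := by linarith
  have h9 : |z| * gam z ≤ 1 / R ^ 2 := by
    rw [le_div_iff₀ (by positivity)]
    calc |z| * gam z * R ^ 2 ≤ |z| * gam z * |z| ^ 2 := by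
          have := gam_nonneg z
          gcongr
      _ = |z| ^ 3 * gam z := by ring
      _ ≤ 1 := h1
  calc 2 * Real.pi * |z| * gam z = 2 * Real.pi * (|z| * gam z) := by ring
    _ ≤ 2 * Real.pi * (1 / R ^ 2) := by gcongr
    _ = 2 * Real.pi / R ^ 2 := by ring

lemma phi_gauss (x t : ℝ) (ht : 0 < t) : ∫ y, phi (x - t * y) * gam y =
    (∫ y in ((x - 1) / t)..(x / t), gam y) - ∫ y in ((x - 2) / t)..((x - 1) / t), gam y := by
  have h1 : ∀ y : ℝ, phi (x - t * y) * gam y =
      (Set.Ico ((x - 1) / t) (x / t)).indicator gam y -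
      (Set.Ico ((x - 2) / t) ((x - 1) / t)).indicator gam y := by
    intro y
    unfold phi
    have e1 : (x - t * y ∈ Set.Ioc (0:ℝ) 1) ↔ y ∈ Set.Ico ((x - 1) / t) (x / t) := by
      rw [Set.mem_Ioc, Set.mem_Ico, div_le_iff₀ ht, lt_div_iff₀ ht]
      constructor
      · rintro ⟨a, b⟩; constructor <;> linarith
      · rintro ⟨a, b⟩; constructor <;> linarith
    have e2 : (x - t * y ∈ Set.Ioc (1:ℝ) 2) ↔ y ∈ Set.Ico ((x - 2) / t) ((x - 1) / t) := by
      rw [Set.mem_Ioc, Set.mem_Ico, div_le_iff₀ ht, lt_div_iff₀ ht]
      constructor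
      · rintro ⟨a, b⟩; constructor <;> linarith
      · rintro ⟨a, b⟩; constructor <;> linarith
    rw [sub_mul]
    congr 1
    · by_cases h : x - t * y ∈ Set.Ioc (0:ℝ) 1
      · rw [Set.indicator_of_mem h, Set.indicator_of_mem (e1.1 h), one_mul]
      · rw [Set.indicator_of_notMem h, Set.indicator_of_notMem (fun h' => h (e1.2 h')), zero_mul]
    · by_cases h : x - t * y ∈ Set.Ioc (1:ℝ) 2
      · rw [Set.indicator_of_mem h, Set.indicator_of_mem (e2.1 h), one_mul]
      · rw [Set.indicator_of_notMem h, Set.indicator_of_notMem (fun h' => h (e2.2 h')), zero_mul]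
  simp only [h1]
  rw [integral_sub (gam_integrable.indicator measurableSet_Ico)
    (gam_integrable.indicator measurableSet_Ico), integral_indicator measurableSet_Ico,
    integral_indicator measurableSet_Ico, integral_Ico_eq_integral_Ioo, integral_Ico_eq_integral_Ioo,
    ← integral_Ioc_eq_integral_Ioo, ← integral_Ioc_eq_integral_Ioo,
    ← intervalIntegral.integral_of_le, ← intervalIntegral.integral_of_le]
  · exact div_le_div_of_nonneg_right (by linarith) ht.le
  · exact div_le_div_of_nonneg_right (by linarith) ht.le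

lemma piece_bound (a b : ℝ) (hab : a ≤ b) : 0 ≤ ∫ y in a..b, gam y ∧ ∫ y in a..b, gam y ≤ 1 := by
  constructor
  · exact intervalIntegral.integral_nonneg hab (fun y _ => gam_nonneg y)
  · rw [intervalIntegral.integral_of_le hab, ← gam_integral]
    exact setIntegral_le_integral gam_integrable (Filter.Eventually.of_forall gam_nonneg)

lemma phi_gauss_bound (x t : ℝ) (ht : 0 < t) : ‖∫ y, phi (x - t * y) * gam y‖ ≤ 34 / (1 + x ^ 2) := by
  rw [phi_gauss x t ht]
  by_cases hx : |x| ≤ 4
  · have h1 := piece_bound ((x - 1) / t) (x / t) (div_le_div_of_nonneg_right (by linarith) ht.le)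
    have h2 := piece_bound ((x - 2) / t) ((x - 1) / t) (div_le_div_of_nonneg_right (by linarith) ht.le)
    have h3 : ‖(∫ y in ((x - 1) / t)..(x / t), gam y) - ∫ y in ((x - 2) / t)..((x - 1) / t), gam y‖ ≤ 2 := by
      rw [Real.norm_eq_abs, abs_le]
      constructor <;> linarith [h1.1, h1.2, h2.1, h2.2]
    refine h3.trans ?_
    rw [le_div_iff₀ (by positivity)]
    have : x ^ 2 ≤ 16 := by
      rw [← sq_abs]
      nlinarith [abs_nonneg x]
    linarith
  · push Not at hx
    have hx0 : 0 < |x| := by linarith
    have hx2 : 16 < x ^ 2 := by rw [← sq_abs]; nlinarith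
    set R := |x| / (2 * t) with hR
    have hR0 : 0 < R := by positivity
    have hshift : ∫ y in ((x - 2) / t)..((x - 1) / t), gam y =
        ∫ y in ((x - 1) / t)..(x / t), gam (y - 1 / t) := by
      have := intervalIntegral.integral_comp_sub_right (a := (x - 1) / t) (b := x / t) gam (1 / t)
      rw [this]
      congr 1
      · field_simp; ring
      · field_simp
    have hi2 : IntervalIntegrable (fun y => gam (y - 1 / t)) volume ((x - 1) / t) (x / t) :=
      (gam_cont.comp (continuous_sub_right (1 / t))).intervalIntegrable _ _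
    rw [hshift, ← intervalIntegral.integral_sub (gam_cont.intervalIntegrable _ _) hi2]
    have hmv : ∀ y ∈ Set.uIoc ((x - 1) / t) (x / t), ‖gam y - gam (y - 1 / t)‖ ≤
        (2 * Real.pi / R ^ 2) * (1 / t) := by
      intro y hy
      rw [Set.uIoc_of_le (div_le_div_of_nonneg_right (by linarith) ht.le)] at hy
      have hconv : Convex ℝ (Set.Icc ((x - 2) / t) (x / t)) := convex_Icc _ _
      have := hconv.norm_image_sub_le_of_norm_hasDerivWithin_le (f := gam)
        (f' := fun z => -(2 * Real.pi * z) * gam z) (C := 2 * Real.pi / R ^ 2)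
        (x := y - 1 / t) (y := y)
        (fun z _ => (gam_deriv z).hasDerivWithinAt) (by
          intro z hz
          apply gam_deriv_bound z R hR0
          rw [hR, div_le_iff₀ (by positivity)]
          have z1 := hz.1
          have z2 := hz.2
          rw [div_le_iff₀ ht] at z1
          rw [le_div_iff₀ ht] at z2
          rcases le_total 0 x with h0 | h0
          · rw [abs_of_nonneg h0] at hx ⊢
            have : 0 ≤ z := by
              by_contra hc
              push Not at hc
              nlinarith
            rw [abs_of_nonneg this]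
            nlinarith
          · rw [abs_of_nonpos h0] at hx ⊢
            have : z ≤ 0 := by
              by_contra hc
              push Not at hc
              nlinarith
            rw [abs_of_nonpos this]
            nlinarith)
        (by
          constructor
          · have : (x - 2) / t = (x - 1) / t - 1 / t := by field_simp; ring
            rw [this]
            linarith [hy.1]
          · have : 0 < 1 / t := by positivity
            linarith [hy.2])
        (by
          constructor
          · have : (x - 2) / t ≤ (x - 1) / t := div_le_div_of_nonneg_right (by linarith) ht.le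
            linarith [hy.1]
          · exact hy.2)
      have e : ‖y - (y - 1 / t)‖ = 1 / t := by
        rw [sub_sub_cancel, Real.norm_eq_abs, abs_of_pos (by positivity)]
      rw [e] at this
      exact this
    have h1 := intervalIntegral.norm_integral_le_of_norm_le_const hmv
    have h2 : |x / t - (x - 1) / t| = 1 / t := by
      have : x / t - (x - 1) / t = 1 / t := by field_simp; ring
      rw [this, abs_of_pos (by positivity)]
    rw [h2] at h1
    refine h1.trans ?_
    have h3 : 2 * Real.pi / R ^ 2 * (1 / t) * (1 / t) = 8 * Real.pi / x ^ 2 := by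
      rw [hR, div_pow, sq_abs]
      field_simp
      ring
    rw [h3, div_le_div_iff₀ (by positivity) (by positivity)]
    have := Real.pi_lt_d2
    nlinarith

end

end Pool.Agent.Helper71
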