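import Pool.Agent.Helper71.Lac7

set_option autoImplicit false
open MeasureTheory
open scoped ENNReal NNReal

namespace Pool.Agent.Helper71

noncomputable section

abbrev E1 := EuclideanSpace ℝ (Fin 1)

/-- the line as a Euclidean space -/
def io : ℝ ≃ᵐ E1 :=
  (MeasurableEquiv.funUnique (Fin 1) ℝ).symm.trans (MeasurableEquiv.toLp 2 (Fin 1 → ℝ))

lemma io_apply (x : ℝ) : io x 0 = x := rfl

lemma io_mp : MeasurePreserving io volume volume :=
  (volume_preserving_funUnique (Fin 1) ℝ).symm.trans (PiLp.volume_preserving_toLp (Fin 1))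

lemma io_sub_smul (x : E1) (c y : ℝ) : (x - c • io y) 0 = x 0 - c * y := by
  simp [io_apply]

lemma norm_io (y : ℝ) : ‖io y‖ ^ 2 = y ^ 2 := by
  rw [EuclideanSpace.norm_sq_eq]
  simp [io_apply]

/-- the function -/
def ff (v : E1) : ℝ := phi (v 0)

/-- the measure -/
def mu : Measure E1 := nu.map io

instance : IsFiniteMeasure mu := by
  unfold mu
  infer_instance

lemma mu_compact : ∃ K : Set E1, IsCompact K ∧ mu Kᶜ = 0 := by
  have hc : Continuous (fun x : ℝ => io x) := by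
    have : (fun x : ℝ => io x) = fun x => WithLp.toLp 2 (fun _ : Fin 1 => x) := rfl
    rw [this]
    fun_prop
  refine ⟨io '' (Set.Icc 0 2), isCompact_Icc.image hc, ?_⟩
  unfold mu
  rw [io.map_apply]
  have : io ⁻¹' (io '' (Set.Icc 0 2))ᶜ = (Set.Icc 0 2)ᶜ := by
    rw [Set.preimage_compl, Set.preimage_image_eq _ io.injective]
  rw [this]
  exact nu_supp

lemma mu_decay (ξ : E1) (hξ : 1 ≤ ‖ξ‖) :
    ‖∫ y, Complex.exp (((-2 * Real.pi * (inner ℝ y ξ) : ℝ) : ℂ) * Complex.I) ∂mu‖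
      ≤ 7 * ‖ξ‖ ^ (-(1/10) : ℝ) := by
  unfold mu
  rw [integral_map_equiv]
  have hn : ‖ξ‖ = |ξ 0| := by
    rw [EuclideanSpace.norm_eq]
    simp [Real.sqrt_sq_eq_abs]
  have : ∀ y : ℝ, Complex.exp (((-2 * Real.pi * (inner ℝ (io y) ξ) : ℝ) : ℂ) * Complex.I) =
      ee (y * ξ 0) := by
    intro y
    unfold ee
    congr 4
    simp [PiLp.inner_apply, io_apply]
    ring
  simp only [this]
  rw [hn] at hξ ⊢
  exact nu_decay (ξ 0) hξ

lemma ff_integrable : Integrable ff := by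
  have h : Integrable phi := by
    unfold phi
    apply Integrable.sub
    · rw [integrable_indicator_iff measurableSet_Ioc]
      exact integrableOn_const (by simp)
    · rw [integrable_indicator_iff measurableSet_Ioc]
      exact integrableOn_const (by simp)
  rw [← io_mp.integrable_comp_emb io.measurableEmbedding]
  exact h

lemma avg_eq (x : E1) (k : ℕ) : ∫ y, ff (x - ((2:ℝ) ^ (k:ℤ)) • y) ∂mu = VV k (x 0) := by
  unfold mu
  rw [integral_map_equiv, ← integral_phi]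
  refine integral_congr_ae (Filter.Eventually.of_forall (fun y => ?_))
  change phi ((x - ((2:ℝ) ^ (k:ℤ)) • io y) 0) = _
  rw [io_sub_smul, zpow_natCast]

lemma gauss_eq (x : E1) (t : ℝ) : ∫ y : E1, ff (x - t • y) * Real.exp (-Real.pi * ‖y‖ ^ 2) =
    ∫ y : ℝ, phi (x 0 - t * y) * gam y := by
  rw [← io_mp.integral_comp']
  congr 1
  funext y
  unfold ff gam
  rw [io_sub_smul, norm_io]

lemma hardy_le : ∫⁻ x : E1, ⨆ (t : ℝ) (_ : 0 < t),
    ‖∫ y, ff (x - t • y) * Real.exp (-Real.pi * ‖y‖ ^ 2)‖ₑ ≤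
    ∫⁻ x : ℝ, ENNReal.ofReal (34 / (1 + x ^ 2)) := by
  rw [← io_mp.lintegral_comp_emb io.measurableEmbedding]
  apply lintegral_mono
  intro x
  refine iSup₂_le (fun t ht => ?_)
  rw [gauss_eq, ← ofReal_norm]
  apply ENNReal.ofReal_le_ofReal
  exact phi_gauss_bound _ t ht

lemma hardy_finite : ∫⁻ x : ℝ, ENNReal.ofReal (34 / (1 + x ^ 2)) < ⊤ := by
  have h : Integrable (fun x : ℝ => 34 / (1 + x ^ 2)) := by
    have := integrable_inv_one_add_sq.const_mul (34:ℝ)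
    simpa only [div_eq_mul_inv] using this
  have := h.lintegral_lt_top
  exact this

lemma lower_E1 (j : ℕ) :
    ENNReal.ofReal (((LL j - 5 : ℕ) : ℝ) * 2 ^ (6 * LL j - 2)) ≤
      volume {x : E1 | ENNReal.ofReal (1 / 2 ^ (6 * LL j + j + 5)) <
        ⨆ k : ℤ, ‖∫ y, ff (x - ((2 : ℝ) ^ k) • y) ∂mu‖ₑ} := by
  refine (big_set j).trans ?_
  rw [← io_mp.measure_preimage_equiv]
  apply measure_mono
  rintro x ⟨k, hk⟩
  change ENNReal.ofReal (1 / 2 ^ (6 * LL j + j + 5)) <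
        ⨆ k : ℤ, ‖∫ y, ff (io x - ((2 : ℝ) ^ k) • y) ∂mu‖ₑ
  refine lt_of_lt_of_le ?_ (le_iSup _ (k:ℤ))
  rw [avg_eq, io_apply, ← ofReal_norm]
  rw [ENNReal.ofReal_lt_ofReal_iff_of_nonneg (by positivity)]
  have h1 : (1:ℝ) / 2 ^ (6 * LL j + j + 5) < 1 / 2 ^ (6 * LL j + j + 4) := by
    apply one_div_lt_one_div_of_lt (by positivity)
    exact pow_lt_pow_right₀ (by norm_num) (by omega)
  calc (1:ℝ) / 2 ^ (6 * LL j + j + 5) < 1 / 2 ^ (6 * LL j + j + 4) := h1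
    _ ≤ VV k x := hk
    _ ≤ ‖VV k x‖ := Real.le_norm_self _

lemma growth (j : ℕ) : (5:ℝ) ^ j / 128 ≤
    1 / 2 ^ (6 * LL j + j + 5) * (((LL j - 5 : ℕ) : ℝ) * 2 ^ (6 * LL j - 2)) := by
  have hL := LL_ge j
  have h1 : (10:ℝ) ^ j ≤ ((LL j - 5 : ℕ) : ℝ) := by
    have : 10 ^ j ≤ LL j - 5 := by
      unfold LL
      have : 1 ≤ 10 ^ j := Nat.one_le_pow _ _ (by norm_num)
      rw [pow_succ]
      omega
    exact_mod_cast this
  have e1 : 6 * LL j + j + 5 = (6 * LL j - 2) + (j + 7) := by omega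
  have h2 : 1 / 2 ^ (6 * LL j + j + 5) * (((LL j - 5 : ℕ) : ℝ) * 2 ^ (6 * LL j - 2)) =
      ((LL j - 5 : ℕ) : ℝ) / 2 ^ (j + 7) := by
    rw [e1, pow_add (2:ℝ) (6 * LL j - 2) (j+7)]
    field_simp
  rw [h2, le_div_iff₀ (by positivity)]
  have h3 : (5:ℝ) ^ j / 128 * 2 ^ (j + 7) = 10 ^ j := by
    rw [pow_add]
    have : (10:ℝ) ^ j = 5 ^ j * 2 ^ j := by rw [← mul_pow]; norm_num
    rw [this]
    ring
  rw [h3]
  exact h1

theorem lacunary_counterexample :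
    ¬ (∀ (d : ℕ) (μ : Measure (EuclideanSpace ℝ (Fin d))), IsFiniteMeasure μ →
      (∃ K : Set (EuclideanSpace ℝ (Fin d)), IsCompact K ∧ μ Kᶜ = 0) →
      (∃ C ε : ℝ, 0 < ε ∧ ∀ ξ : EuclideanSpace ℝ (Fin d), 1 ≤ ‖ξ‖ →
          ‖∫ y, Complex.exp (((-2 * Real.pi * (inner ℝ y ξ) : ℝ) : ℂ) * Complex.I) ∂μ‖
            ≤ C * ‖ξ‖ ^ (-ε)) →
      ∃ A : ℝ≥0, ∀ f : EuclideanSpace ℝ (Fin d) → ℝ, Integrable f →
        ∀ s : ℝ, 0 < s →
          ENNReal.ofReal s *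
              volume {x | ENNReal.ofReal s <
                ⨆ k : ℤ, ‖∫ y, f (x - ((2 : ℝ) ^ k) • y) ∂μ‖ₑ}
            ≤ (A : ℝ≥0∞) * ∫⁻ x, ⨆ (t : ℝ) (_ : 0 < t),
                ‖∫ y, f (x - t • y) * Real.exp (-Real.pi * ‖y‖ ^ 2)‖ₑ) := by
  intro h
  obtain ⟨A, hA⟩ := h 1 mu inferInstance mu_compact ⟨7, 1/10, by norm_num, mu_decay⟩
  set H := ∫⁻ x : ℝ, ENNReal.ofReal (34 / (1 + x ^ 2)) with hH
  have hfin : (A : ℝ≥0∞) * H ≠ ⊤ := ENNReal.mul_ne_top ENNReal.coe_ne_top hardy_finite.ne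
  have key : ∀ j : ℕ, (5:ℝ) ^ j / 128 ≤ ((A : ℝ≥0∞) * H).toReal := by
    intro j
    have h1 := hA ff ff_integrable (1 / 2 ^ (6 * LL j + j + 5)) (by positivity)
    have h2 : ENNReal.ofReal (1 / 2 ^ (6 * LL j + j + 5)) *
        ENNReal.ofReal (((LL j - 5 : ℕ) : ℝ) * 2 ^ (6 * LL j - 2)) ≤ (A : ℝ≥0∞) * H := by
      calc _ ≤ _ := mul_le_mul_right (lower_E1 j) _
        _ ≤ _ := h1
        _ ≤ _ := mul_le_mul_right hardy_le _
    rw [← ENNReal.ofReal_mul (by positivity)] at h2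
    have h3 := (ENNReal.ofReal_le_iff_le_toReal hfin).1 h2
    exact (growth j).trans h3
  obtain ⟨j, hj⟩ := pow_unbounded_of_one_lt (128 * ((A : ℝ≥0∞) * H).toReal) (by norm_num : (1:ℝ) < 5)
  have := key j
  rw [div_le_iff₀ (by norm_num)] at this
  linarith

end

end Pool.Agent.Helper71
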