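import Pool.Agent.Helper71.QBUDefs

set_option autoImplicit false

open scoped TensorProduct ComplexConjugate

namespace Pool.Agent.Helper71.QBU

noncomputable section

variable {X Y : Type} [TopologicalSpace X] [CompactSpace X] [TopologicalSpace Y] [CompactSpace Y]

/-- `ℓ²(X)` -/
abbrev KK (X : Type) := lp (fun _ : X => ℂ) 2

lemma mem_mul (a : C(X, ℂ)) (ξ : KK X) : Memℓp (fun x => a x * ξ x) 2 := by
  have h := (lp.memℓp ξ).const_smul ‖a‖
  refine Memℓp.mono' h (fun x => ?_)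
  simp only [Pi.smul_apply, norm_mul, norm_smul, norm_norm]
  gcongr
  exact a.norm_coe_le_norm x

/-- multiplication operator -/
def mulOp (a : C(X, ℂ)) : KK X →L[ℂ] KK X :=
  LinearMap.mkContinuous
    { toFun := fun ξ => ⟨fun x => a x * ξ x, mem_mul a ξ⟩
      map_add' := by
        intro ξ η
        ext x
        change a x * (ξ x + η x) = a x * ξ x + a x * η x
        ring
      map_smul' := by
        intro c ξ
        ext x
        change a x * (c * ξ x) = c * (a x * ξ x)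
        ring } ‖a‖ (by
    intro ξ
    have h : ∀ x, ‖a x * ξ x‖ ≤ ‖((‖a‖ : ℂ) • ξ) x‖ := by
      intro x
      simp only [lp.coeFn_smul, Pi.smul_apply, norm_mul, norm_smul, Complex.norm_real, norm_norm]
      gcongr
      exact a.norm_coe_le_norm x
    have := lp.norm_mono (p := 2) (by norm_num) (x := (⟨fun x => a x * ξ x, mem_mul a ξ⟩ : KK X))
      (y := (‖a‖ : ℂ) • ξ) h
    rw [norm_smul, Complex.norm_real, norm_norm] at this
    exact this)

@[simp] lemma mulOp_apply (a : C(X, ℂ)) (ξ : KK X) (x : X) : mulOp a ξ x = a x * ξ x := rfl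

/-- the representation -/
def rep (X : Type) [TopologicalSpace X] [CompactSpace X] : C(X, ℂ) →⋆ₐ[ℂ] (KK X →L[ℂ] KK X) where
  toFun := mulOp
  map_one' := by
    ext ξ x
    simp
  map_mul' a b := by
    ext ξ x
    simp [mul_assoc]
  map_zero' := by
    ext ξ x
    simp
  map_add' a b := by
    ext ξ x
    simp [add_mul]
  commutes' c := by
    ext ξ x
    simp
  map_star' a := by
    rw [ContinuousLinearMap.star_eq_adjoint, ContinuousLinearMap.eq_adjoint_iff]
    intro ξ η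
    rw [lp.inner_eq_tsum, lp.inner_eq_tsum]
    congr 1
    funext x
    simp
    ring

lemma rep_injective : Function.Injective (rep X) := by
  classical
  intro a b h
  ext x
  have h1 : mulOp a (lp.single 2 x (1:ℂ)) x = mulOp b (lp.single 2 x (1:ℂ)) x := by
    have : mulOp a = mulOp b := h
    rw [this]
  simpa using h1

omit [TopologicalSpace X] [CompactSpace X] [TopologicalSpace Y] [CompactSpace Y] in
lemma mem_tensor (ξ : KK X) (η : KK Y) : Memℓp (fun p : X × Y => ξ p.1 * η p.2) 2 := by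
  have h1 := (lp.memℓp ξ).summable (by norm_num)
  have h2 := (lp.memℓp η).summable (by norm_num)
  apply memℓp_gen
  have h3 := h1.mul_of_nonneg h2 (fun x => by positivity) (fun y => by positivity)
  refine h3.congr (fun p => ?_)
  rw [norm_mul, Real.mul_rpow (norm_nonneg _) (norm_nonneg _)]

/-- the isometry `ℓ²(X) ⊗ ℓ²(Y) → ℓ²(X × Y)` -/
def JJ (X Y : Type) : KK X ⊗[ℂ] KK Y →ₗ[ℂ] KK (X × Y) :=
  TensorProduct.lift (LinearMap.mk₂ ℂ
    (fun ξ η => (⟨fun p : X × Y => ξ p.1 * η p.2, mem_tensor ξ η⟩ : KK (X × Y)))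
    (by intro a b c; ext p; exact add_mul (a p.1) (b p.1) (c p.2))
    (by intro a b c; ext p; exact mul_assoc a (b p.1) (c p.2))
    (by intro a b c; ext p; exact mul_add (a p.1) (b p.2) (c p.2))
    (by intro a b c; ext p; exact mul_left_comm (b p.1) a (c p.2)))

lemma JJ_tmul {X Y : Type} (ξ : KK X) (η : KK Y) (p : X × Y) :
    JJ X Y (ξ ⊗ₜ η) p = ξ p.1 * η p.2 := rfl

lemma inner_of_tmul {E F G : Type} [NormedAddCommGroup E] [InnerProductSpace ℂ E]
    [NormedAddCommGroup F] [InnerProductSpace ℂ F] [NormedAddCommGroup G] [InnerProductSpace ℂ G]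
    (J : E ⊗[ℂ] F →ₗ[ℂ] G)
    (h : ∀ x y x' y', inner ℂ (J (x ⊗ₜ y)) (J (x' ⊗ₜ y')) = inner ℂ x x' * inner ℂ y y')
    (u v : E ⊗[ℂ] F) : inner ℂ (J u) (J v) = inner ℂ u v := by
  induction u using TensorProduct.induction_on with
  | zero => simp
  | add u1 u2 h1 h2 => rw [map_add, inner_add_left, inner_add_left, h1, h2]
  | tmul ξ η =>
    induction v using TensorProduct.induction_on with
    | zero => simp
    | add v1 v2 h1 h2 => rw [map_add, inner_add_right, inner_add_right, h1, h2]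
    | tmul ξ' η' => rw [TensorProduct.inner_tmul, h]

lemma norm_of_tmul {E F G : Type} [NormedAddCommGroup E] [InnerProductSpace ℂ E]
    [NormedAddCommGroup F] [InnerProductSpace ℂ F] [NormedAddCommGroup G] [InnerProductSpace ℂ G]
    (J : E ⊗[ℂ] F →ₗ[ℂ] G)
    (h : ∀ x y x' y', inner ℂ (J (x ⊗ₜ y)) (J (x' ⊗ₜ y')) = inner ℂ x x' * inner ℂ y y')
    (u : E ⊗[ℂ] F) : ‖J u‖ = ‖u‖ := by
  rw [norm_eq_sqrt_re_inner (𝕜 := ℂ), norm_eq_sqrt_re_inner (𝕜 := ℂ), inner_of_tmul J h]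

lemma JJ_inner {X Y : Type} (ξ : KK X) (η : KK Y) (ξ' : KK X) (η' : KK Y) :
    inner ℂ (JJ X Y (ξ ⊗ₜ η)) (JJ X Y (ξ' ⊗ₜ η')) = inner ℂ ξ ξ' * inner ℂ η η' := by
  rw [lp.inner_eq_tsum, lp.inner_eq_tsum, lp.inner_eq_tsum]
  have s1 := (lp.summable_inner (𝕜 := ℂ) ξ ξ').norm
  have s2 := (lp.summable_inner (𝕜 := ℂ) η η').norm
  rw [tsum_mul_tsum_of_summable_norm s1 s2]
  congr 1
  funext p
  rw [JJ_tmul, JJ_tmul]
  simp
  ring

lemma JJ_norm {X Y : Type} (u : KK X ⊗[ℂ] KK Y) : ‖JJ X Y u‖ = ‖u‖ :=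
  norm_of_tmul (JJ X Y) JJ_inner u

/-- the function of two variables -/
def twoVar {n : ℕ} (a : Fin n → C(X, ℂ)) (b : Fin n → C(Y, ℂ)) : C(X × Y, ℂ) :=
  ∑ k, (a k).comp ContinuousMap.fst * (b k).comp ContinuousMap.snd

omit [CompactSpace X] [CompactSpace Y] in
lemma twoVar_apply {n : ℕ} (a : Fin n → C(X, ℂ)) (b : Fin n → C(Y, ℂ)) (p : X × Y) :
    twoVar a b p = ∑ k, a k p.1 * b k p.2 := by
  unfold twoVar
  simp [ContinuousMap.sum_apply]

lemma JJ_op {n : ℕ} (a : Fin n → C(X, ℂ)) (b : Fin n → C(Y, ℂ)) (u : KK X ⊗[ℂ] KK Y) :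
    JJ X Y ((∑ k, TensorProduct.mapL (rep X (a k)) (rep Y (b k))) u) =
      mulOp (twoVar a b) (JJ X Y u) := by
  induction u using TensorProduct.induction_on with
  | zero => simp
  | add u1 u2 h1 h2 => rw [map_add, map_add, map_add, map_add, h1, h2]
  | tmul ξ η =>
    ext p
    rw [mulOp_apply, twoVar_apply, sum_apply, map_sum, lp.coeFn_sum,
      Finset.sum_apply, JJ_tmul, Finset.sum_mul]
    refine Finset.sum_congr rfl (fun k _ => ?_)
    rw [TensorProduct.mapL_tmul, JJ_tmul]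
    change (a k p.1 * ξ p.1) * (b k p.2 * η p.2) = _
    ring

lemma norm_op {n : ℕ} (a : Fin n → C(X, ℂ)) (b : Fin n → C(Y, ℂ)) :
    ‖∑ k, TensorProduct.mapL (rep X (a k)) (rep Y (b k))‖ = ‖twoVar a b‖ := by
  classical
  apply le_antisymm
  · apply ContinuousLinearMap.opNorm_le_bound _ (norm_nonneg _)
    intro u
    rw [← JJ_norm, JJ_op, ← JJ_norm u]
    have h1 : ‖mulOp (twoVar a b)‖ ≤ ‖twoVar a b‖ := LinearMap.mkContinuous_norm_le _ (norm_nonneg _) _
    calc _ ≤ ‖mulOp (twoVar a b)‖ * ‖JJ X Y u‖ := ContinuousLinearMap.le_opNorm _ _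
      _ ≤ _ := by gcongr
  · set T := ∑ k, TensorProduct.mapL (rep X (a k)) (rep Y (b k)) with hT
    refine (ContinuousMap.norm_le (twoVar a b) (norm_nonneg T)).2 (fun p => ?_)
    set u : KK X ⊗[ℂ] KK Y := lp.single 2 p.1 (1:ℂ) ⊗ₜ lp.single 2 p.2 (1:ℂ) with hu
    have hun : ‖u‖ = 1 := by
      rw [hu, TensorProduct.norm_tmul, lp.norm_single (by norm_num), lp.norm_single (by norm_num)]
      simp
    have h1 : ‖JJ X Y (T u)‖ ≤ ‖T‖ := by
      rw [JJ_norm]
      have := ContinuousLinearMap.le_opNorm T u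
      rwa [hun, mul_one] at this
    have h2 : ‖(JJ X Y (T u)) p‖ ≤ ‖JJ X Y (T u)‖ := lp.norm_apply_le_norm (by norm_num) _ _
    rw [hT, JJ_op, mulOp_apply, hu, JJ_tmul] at h2
    rw [hT, JJ_op] at h1
    simp only [lp.single_apply_self, mul_one] at h2
    exact h2.trans h1

end

end Pool.Agent.Helper71.QBU
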