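import Pool.Agent.Helper71.QBU1

set_option autoImplicit false

open scoped TensorProduct ComplexConjugate

namespace Pool.Agent.Helper71.QBU

noncomputable section

/-- pullback along a continuous map -/
abbrev pb {X Z : Type} [TopologicalSpace X] [TopologicalSpace Z] (f : C(Z, X)) :
    C(X, ℂ) →⋆ₐ[ℂ] C(Z, ℂ) := ContinuousMap.compStarAlgHom' ℂ ℂ f

lemma pb_apply {X Z : Type} [TopologicalSpace X] [TopologicalSpace Z] (f : C(Z, X))
    (a : C(X, ℂ)) (z : Z) : pb f a z = a (f z) := rfl

lemma exists_sep {X : Type} [TopologicalSpace X] [CompactSpace X] [T2Space X] (x x' : X)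
    (h : x ≠ x') : ∃ a : C(X, ℂ), a x ≠ a x' := by
  obtain ⟨f, h0, h1, _⟩ := exists_continuous_zero_one_of_isClosed (isClosed_singleton (x := x))
    (isClosed_singleton (x := x')) (by simpa using h)
  refine ⟨⟨fun y => (f y : ℂ), by fun_prop⟩, ?_⟩
  have e0 : f x = 0 := h0 rfl
  have e1 : f x' = 1 := h1 rfl
  simp [e0, e1]

/-- the products -/
def prods {X Y Z : Type} [TopologicalSpace X] [TopologicalSpace Y] [TopologicalSpace Z]
    (f : C(Z, X)) (g : C(Z, Y)) : Set C(Z, ℂ) := {c | ∃ a b, c = pb f a * pb g b}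

/-- the star subalgebra spanned by the products -/
def prodAlg {X Y Z : Type} [TopologicalSpace X] [TopologicalSpace Y] [TopologicalSpace Z]
    (f : C(Z, X)) (g : C(Z, Y)) : StarSubalgebra ℂ C(Z, ℂ) where
  carrier := (Submodule.span ℂ (prods f g) : Set C(Z, ℂ))
  mul_mem' := by
    intro u v hu hv
    have h1 : u * v ∈ Submodule.span ℂ (prods f g) * Submodule.span ℂ (prods f g) :=
      Submodule.mul_mem_mul hu hv
    rw [Submodule.span_mul_span] at h1
    refine Submodule.span_mono ?_ h1
    rintro _ ⟨_, ⟨a, b, rfl⟩, _, ⟨a', b', rfl⟩, rfl⟩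
    refine ⟨a * a', b * b', ?_⟩
    rw [map_mul, map_mul]
    exact mul_mul_mul_comm _ _ _ _
  one_mem' := Submodule.subset_span ⟨1, 1, by simp⟩
  add_mem' := fun hu hv => Submodule.add_mem _ hu hv
  zero_mem' := Submodule.zero_mem _
  algebraMap_mem' := by
    intro c
    apply Submodule.subset_span
    refine ⟨algebraMap ℂ _ c, 1, ?_⟩
    rw [map_one, mul_one]
    ext z
    rfl
  star_mem' := by
    intro u hu
    change u ∈ Submodule.span ℂ (prods f g) at hu
    change star u ∈ Submodule.span ℂ (prods f g)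
    induction hu using Submodule.span_induction with
    | mem x hx =>
      obtain ⟨a, b, rfl⟩ := hx
      apply Submodule.subset_span
      exact ⟨star a, star b, by rw [map_star, map_star, star_mul, mul_comm]⟩
    | zero => rw [star_zero]; exact Submodule.zero_mem _
    | add x y _ _ hx hy => rw [star_add]; exact Submodule.add_mem _ hx hy
    | smul c x _ hx => rw [star_smul]; exact Submodule.smul_mem _ _ hx

lemma dense_of_injective {X Y Z : Type} [TopologicalSpace X] [CompactSpace X] [T2Space X]
    [TopologicalSpace Y] [CompactSpace Y] [T2Space Y] [TopologicalSpace Z] [CompactSpace Z]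
    (f : C(Z, X)) (g : C(Z, Y)) (h : Function.Injective (fun z => (f z, g z))) :
    closure (Submodule.span ℂ {c : C(Z, ℂ) | ∃ a b, c = pb f a * pb g b} : Set C(Z, ℂ)) =
      Set.univ := by
  have hs : (prodAlg f g).SeparatesPoints := by
    intro z z' hz
    have hne : f z ≠ f z' ∨ g z ≠ g z' := by
      by_contra hc
      push Not at hc
      exact hz (h (Prod.ext hc.1 hc.2))
    rcases hne with h1 | h1
    · obtain ⟨a, ha⟩ := exists_sep _ _ h1
      refine ⟨_, ⟨pb f a, Submodule.subset_span ⟨a, 1, by simp⟩, rfl⟩, ?_⟩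
      exact ha
    · obtain ⟨b, hb⟩ := exists_sep _ _ h1
      refine ⟨_, ⟨pb g b, Submodule.subset_span ⟨1, b, by simp⟩, rfl⟩, ?_⟩
      exact hb
  have := ContinuousMap.starSubalgebra_topologicalClosure_eq_top_of_separatesPoints _ hs
  have h2 : closure ((prodAlg f g : StarSubalgebra ℂ C(Z, ℂ)) : Set C(Z, ℂ)) = Set.univ := by
    rw [← StarSubalgebra.topologicalClosure_coe, this]
    rfl
  exact h2

/-- the algebra `C(X)` -/
abbrev CA (X : Type) [TopologicalSpace X] [CompactSpace X] : Alg := ⟨C(X, ℂ)⟩

/-- pullback as a `Hom` -/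
def pbH {X Z : Type} [TopologicalSpace X] [CompactSpace X] [TopologicalSpace Z] [CompactSpace Z]
    (f : C(Z, X)) : Hom (CA X) (CA Z) := pb f

lemma isSpatial_pb {X Y Z : Type} [TopologicalSpace X] [CompactSpace X] [T2Space X]
    [TopologicalSpace Y] [CompactSpace Y] [T2Space Y] [TopologicalSpace Z] [CompactSpace Z]
    (f : C(Z, X)) (g : C(Z, Y)) (h : Function.Bijective (fun z => (f z, g z))) :
    IsSpatial (pbH f) (pbH g) where
  commute a b := mul_comm _ _
  dense := dense_of_injective f g h.1
  spatial := by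
    refine ⟨⟨KK X⟩, ⟨KK Y⟩, rep X, rep Y, rep_injective, rep_injective, ?_⟩
    intro n a b
    refine Eq.trans ?_ (norm_op a b).symm
    apply le_antisymm
    · refine (ContinuousMap.norm_le _ (norm_nonneg _)).2 (fun z => ?_)
      have h1 : (∑ k, pb f (a k) * pb g (b k)) z = twoVar a b (f z, g z) := by
        rw [twoVar_apply, ContinuousMap.sum_apply]
        rfl
      have h2 := ContinuousMap.norm_coe_le_norm (twoVar a b) (f z, g z)
      rw [← h1] at h2
      exact h2
    · refine (ContinuousMap.norm_le _ (norm_nonneg _)).2 (fun p => ?_)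
      obtain ⟨z, hz⟩ := h.2 p
      have h1 : (∑ k, pb f (a k) * pb g (b k)) z = twoVar a b p := by
        rw [twoVar_apply, ContinuousMap.sum_apply, ← hz]
        rfl
      rw [← h1]
      exact ContinuousMap.norm_coe_le_norm _ _

end

end Pool.Agent.Helper71.QBU
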