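import Pool.Agent.Helper71.QBU2

set_option autoImplicit false

namespace Pool.Agent.Helper71.QBU

noncomputable section

section group

variable (G : Type) [CommGroup G] [TopologicalSpace G] [IsTopologicalGroup G]
  [CompactSpace G] [T2Space G]

/-- `C(X) ⊗ C(Y) = C(X × Y)` -/
def tXY (X Y : Type) [TopologicalSpace X] [CompactSpace X] [T2Space X]
    [TopologicalSpace Y] [CompactSpace Y] [T2Space Y] : Tensor (CA X) (CA Y) where
  alg := CA (X × Y)
  inl := pbH ⟨Prod.fst, continuous_fst⟩
  inr := pbH ⟨Prod.snd, continuous_snd⟩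
  isSpatial := isSpatial_pb _ _ Function.bijective_id

/-- `C(X) ⊗ C(Y) ⊗ C(Z) = C(X × (Y × Z))` -/
def tXYZ (X Y Z : Type) [TopologicalSpace X] [CompactSpace X] [T2Space X]
    [TopologicalSpace Y] [CompactSpace Y] [T2Space Y]
    [TopologicalSpace Z] [CompactSpace Z] [T2Space Z] : Tensor3 (tXY X Y) (tXY Y Z) where
  alg := CA (X × (Y × Z))
  left := pbH (X := X × Y) (Z := X × (Y × Z)) ⟨fun p => (p.1, p.2.1), by fun_prop⟩
  right := pbH (X := Y × Z) (Z := X × (Y × Z)) ⟨fun p => p.2, by fun_prop⟩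
  middle _ := rfl
  isSpatial_left := isSpatial_pb (X := X × Y) (Y := Z) (Z := X × (Y × Z))
    ⟨fun p => (p.1, p.2.1), by fun_prop⟩
    ⟨fun p : X × (Y × Z) => p.2.2, by fun_prop⟩ (Equiv.prodAssoc X Y Z).symm.bijective
  isSpatial_right := isSpatial_pb (X := X) (Y := Y × Z) (Z := X × (Y × Z))
    ⟨fun p : X × (Y × Z) => p.1, by fun_prop⟩
    ⟨fun p : X × (Y × Z) => p.2, by fun_prop⟩ Function.bijective_id

/-- The compact quantum group `C(G)`. -/
def cqg : CompactQuantumGroup where
  H := CA G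
  HH := tXY G G
  HHH := tXYZ G G G
  Δ := pbH ⟨fun p : G × G => p.1 * p.2, by fun_prop⟩
  coassoc := by
    refine ⟨pbH (X := G × G) (Z := G × (G × G))
        ⟨fun p : G × (G × G) => (p.1 * p.2.1, p.2.2), by fun_prop⟩,
      pbH (X := G × G) (Z := G × (G × G))
        ⟨fun p : G × (G × G) => (p.1, p.2.1 * p.2.2), by fun_prop⟩,
      ⟨fun _ => rfl, fun _ => rfl⟩, ⟨fun _ => rfl, fun _ => rfl⟩, ?_⟩
    intro h
    apply ContinuousMap.ext
    intro p
    exact congrArg (show C(G, ℂ) from h) (mul_assoc _ _ _)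
  dense_right := by
    refine dense_of_injective (X := G) (Y := G) (Z := G × G)
      ⟨fun p : G × G => p.1 * p.2, by fun_prop⟩ ⟨Prod.snd, continuous_snd⟩ ?_
    rintro ⟨a, b⟩ ⟨c, d⟩ h
    simp only [ContinuousMap.coe_mk, Prod.mk.injEq] at h
    obtain ⟨h1, rfl⟩ := h
    simpa using h1
  dense_left := by
    refine dense_of_injective (X := G) (Y := G) (Z := G × G)
      ⟨fun p : G × G => p.1 * p.2, by fun_prop⟩ ⟨Prod.fst, continuous_fst⟩ ?_
    rintro ⟨a, b⟩ ⟨c, d⟩ h
    simp only [ContinuousMap.coe_mk, Prod.mk.injEq] at h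
    obtain ⟨h1, rfl⟩ := h
    simpa using h1

lemma cqg_nonTrivial [Nontrivial G] : (cqg G).NonTrivial := by
  obtain ⟨x, y, hxy⟩ := exists_pair_ne G
  obtain ⟨a, ha⟩ := exists_sep x y hxy
  refine ⟨a, fun c hc => ha ?_⟩
  rw [hc]
  rfl

end group

section action

variable {G X : Type} [CommGroup G] [TopologicalSpace G] [IsTopologicalGroup G]
  [CompactSpace G] [T2Space G] [TopologicalSpace X] [CompactSpace X] [T2Space X]

/-- The coaction of `C(G)` on `C(X)` for a continuous free action `act` of `G` on `X`. -/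
def coact (act : C(X × G, X)) (act_one : ∀ x, act (x, 1) = x)
    (act_mul : ∀ x g h, act (x, g * h) = act (act (x, g), h)) :
    Coaction (cqg G) (CA X) where
  AH := tXY X G
  AHH := tXYZ X G G
  δ := pbH act
  injective := by
    intro a b h
    apply ContinuousMap.ext
    intro x
    have := congrArg (fun f : C(X × G, ℂ) => f (x, 1)) h
    change (show C(X, ℂ) from a) (act (x, 1)) = (show C(X, ℂ) from b) (act (x, 1)) at this
    rwa [act_one] at this
  coassoc := by
    refine ⟨pbH (X := X × G) (Z := X × (G × G))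
        ⟨fun p : X × (G × G) => (act (p.1, p.2.1), p.2.2), by fun_prop⟩,
      pbH (X := X × G) (Z := X × (G × G))
        ⟨fun p : X × (G × G) => (p.1, p.2.1 * p.2.2), by fun_prop⟩,
      ⟨fun _ => rfl, fun _ => rfl⟩, ⟨fun _ => rfl, fun _ => rfl⟩, ?_⟩
    intro h
    apply ContinuousMap.ext
    intro p
    exact congrArg (show C(X, ℂ) from h) (act_mul _ _ _).symm
  dense := by
    refine dense_of_injective (X := X) (Y := G) (Z := X × G)
      act ⟨Prod.snd, continuous_snd⟩ ?_
    rintro ⟨a, b⟩ ⟨c, d⟩ h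
    simp only [ContinuousMap.coe_mk, Prod.mk.injEq] at h
    obtain ⟨h1, rfl⟩ := h
    have h2 := congrArg (fun x => act (x, b⁻¹)) h1
    simp only [← act_mul, mul_inv_cancel, act_one] at h2
    rw [h2]

lemma coact_free (act : C(X × G, X)) (act_one : ∀ x, act (x, 1) = x)
    (act_mul : ∀ x g h, act (x, g * h) = act (act (x, g), h))
    (free : ∀ x g, act (x, g) = x → g = 1) : (coact act act_one act_mul).Free := by
  refine dense_of_injective (X := X) (Y := X) (Z := X × G)
      ⟨Prod.fst, continuous_fst⟩ act ?_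
  rintro ⟨a, b⟩ ⟨c, d⟩ h
  simp only [ContinuousMap.coe_mk, Prod.mk.injEq] at h
  obtain ⟨rfl, h1⟩ := h
  have h2 := congrArg (fun x => act (x, d⁻¹)) h1
  simp only [← act_mul, mul_inv_cancel, act_one] at h2
  have h3 := free _ _ h2
  have : b = d := by
    exact mul_inv_eq_one.1 h3
  rw [this]

/-- the pullback along a homotopy -/
def cur {W Z : Type} [TopologicalSpace W] [CompactSpace W] [TopologicalSpace Z] [CompactSpace Z]
    (m : C(unitInterval × Z, W)) : C(W, ℂ) →⋆ₐ[ℂ] C(unitInterval, C(Z, ℂ)) where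
  toFun a := (a.comp m).curry
  map_one' := rfl
  map_mul' _ _ := rfl
  map_zero' := rfl
  map_add' _ _ := rfl
  commutes' _ := rfl
  map_star' _ := rfl

/-- the pullback along a homotopy -/
def curH {W Z : Type} [TopologicalSpace W] [CompactSpace W] [TopologicalSpace Z] [CompactSpace Z]
    (m : C(unitInterval × Z, W)) : Hom (CA W) (paths (CA Z)) := cur m

theorem exists_example [Nontrivial G] [Nonempty X] (act : C(X × G, X))
    (act_one : ∀ x, act (x, 1) = x)
    (act_mul : ∀ x g h, act (x, g * h) = act (act (x, g), h))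
    (free : ∀ x g, act (x, g) = x → g = 1)
    (σ : C(unitInterval × X, X)) (x₀ : X) (h0 : ∀ x, σ (0, x) = x₀)
    (h1 : ∀ x g, σ (1, act (x, g)) = act (σ (1, x), g)) :
    ∃ (G : CompactQuantumGroup) (A : Alg) (α : Coaction G A),
      G.NonTrivial ∧ Nontrivial A.carrier ∧ α.Free ∧
      (∃ φ : Hom A (paths α.AH.alg), (∀ a, φ a ∈ α.join) ∧ α.Equivariant φ) ∧
      (∀ h k : G.H.carrier, h * k = k * h) ∧ ∀ a b : A.carrier, a * b = b * a := by
  refine ⟨cqg G, CA X, coact act act_one act_mul, cqg_nonTrivial G, ?_,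
    coact_free act act_one act_mul free, ?_, ?_, ?_⟩
  · exact (inferInstance : Nontrivial C(X, ℂ))
  · let m : C(unitInterval × (X × G), X) := ⟨fun p => act (σ (p.1, p.2.1), p.2.2), by fun_prop⟩
    let m' : C(unitInterval × (X × (G × G)), X × G) :=
      ⟨fun p => (act (σ (p.1, p.2.1), p.2.2.1), p.2.2.2), by fun_prop⟩
    refine ⟨curH m, ?_, curH m',
      pbH (X := X × G) (Z := X × (G × G))
        ⟨fun p : X × (G × G) => (p.1, p.2.1 * p.2.2), by fun_prop⟩,
      fun a t => rfl, fun a t => rfl, ⟨fun _ => rfl, fun _ => rfl⟩, ?_⟩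
    · intro a
      refine ⟨⟨(show C(X, ℂ) from a).comp ⟨fun g => act (x₀, g), by fun_prop⟩, ?_⟩,
        ⟨(show C(X, ℂ) from a).comp ⟨fun x => σ (1, x), by fun_prop⟩, ?_⟩⟩
      · apply ContinuousMap.ext
        rintro ⟨x, g⟩
        change (show C(X, ℂ) from a) (act (σ (0, x), g)) = (show C(X, ℂ) from a) (act (x₀, g))
        rw [h0]
      · apply ContinuousMap.ext
        rintro ⟨x, g⟩
        change (show C(X, ℂ) from a) (act (σ (1, x), g)) =
          (show C(X, ℂ) from a) (σ (1, act (x, g)))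
        rw [h1]
    · intro a t
      apply ContinuousMap.ext
      rintro ⟨x, g, h⟩
      change (show C(X, ℂ) from a) (act (σ (t, x), g * h)) =
        (show C(X, ℂ) from a) (act (act (σ (t, x), g), h))
      rw [act_mul]
  · exact fun h k => mul_comm (G := C(G, ℂ)) h k
  · exact fun h k => mul_comm (G := C(X, ℂ)) h k

end action

end

end Pool.Agent.Helper71.QBU
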