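import Pool.Agent.Helper71.QBU3

set_option autoImplicit false

open scoped ComplexConjugate

namespace Pool.Agent.Helper71.QBU

noncomputable section

/-- the exponents -/
def qq (j : ℕ) : ℕ := 2 ^ (2 ^ j)

lemma qq_pos (j : ℕ) : 0 < qq j := by unfold qq; positivity

lemma qq_succ (j : ℕ) : qq (j + 1) = qq j * qq j := by
  unfold qq
  rw [pow_succ, mul_two, pow_add]

/-- the group (a copy of the 2-adic integers) -/
def Gr : Subgroup (ℕ → Circle) where
  carrier := {z | ∀ j, z (j + 1) ^ qq j = z j ∧ z j ^ qq j = 1}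
  mul_mem' := by
    intro a b ha hb j
    simp only [Pi.mul_apply, mul_pow]
    rw [(ha j).1, (hb j).1, (ha j).2, (hb j).2, one_mul]
    exact ⟨rfl, rfl⟩
  one_mem' := by intro j; simp
  inv_mem' := by
    intro a ha j
    simp only [Pi.inv_apply, inv_pow]
    rw [(ha j).1, (ha j).2, inv_one]
    exact ⟨rfl, rfl⟩

lemma Gr_closed : IsClosed (Gr : Set (ℕ → Circle)) := by
  have : (Gr : Set (ℕ → Circle)) =
      ⋂ j, ({z | z (j + 1) ^ qq j = z j} ∩ {z | z j ^ qq j = 1}) := by
    ext z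
    simp only [Set.mem_iInter, Set.mem_inter_iff, Set.mem_ofPred_eq]
    rfl
  rw [this]
  apply isClosed_iInter
  intro j
  apply IsClosed.inter
  · apply isClosed_eq <;> fun_prop
  · apply isClosed_eq <;> fun_prop

instance : CompactSpace Gr := isCompact_iff_compactSpace.1 Gr_closed.isCompact

instance : Nontrivial Gr := by
  refine ⟨⟨⟨fun j => Circle.exp (2 * Real.pi / qq j), ?_⟩, 1, ?_⟩⟩
  · intro j
    have h0 : (qq j : ℝ) ≠ 0 := by
      have := qq_pos j
      positivity
    refine ⟨?_, ?_⟩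
    · simp only
      rw [← Circle.exp_nsmul, nsmul_eq_mul, qq_succ]
      congr 1
      push_cast
      field_simp
    · simp only
      rw [← Circle.exp_nsmul, nsmul_eq_mul]
      rw [mul_div_cancel₀ _ h0]
      exact Circle.exp_two_pi
  · intro h
    have h1 := congrFun (congrArg Subtype.val h) 0
    simp only [OneMemClass.coe_one, Pi.one_apply] at h1
    have h2 := congrArg (fun z : Circle => (z : ℂ)) h1
    simp only [Circle.coe_exp, Circle.coe_one, qq] at h2
    have h3 : (((2 * Real.pi / ((2 ^ 2 ^ 0 : ℕ) : ℝ) : ℝ) : ℂ) * Complex.I) =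
        Real.pi * Complex.I := by
      push_cast
      ring
    rw [h3, Complex.exp_pi_mul_I] at h2
    norm_num at h2

/-- the sphere -/
abbrev Sp : Type := Metric.sphere (0 : ℂ × ℂ) 1

lemma sp_ne (v : Sp) : v.1 ≠ 0 := by
  intro h
  have := v.2
  rw [mem_sphere_zero_iff_norm, h, norm_zero] at this
  exact zero_ne_one this

/-- the product space -/
abbrev XX : Type := ℕ → Sp

/-- scalar multiplication by the circle -/
def rot (c : Circle) (v : ℂ × ℂ) : ℂ × ℂ := ((c : ℂ) * v.1, (c : ℂ) * v.2)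

lemma norm_rot (c : Circle) (v : ℂ × ℂ) : ‖rot c v‖ = ‖v‖ := by
  simp only [rot, Prod.norm_def, norm_mul, Circle.norm_coe, one_mul]

lemma rot_one (v : ℂ × ℂ) : rot 1 v = v := by simp [rot]

lemma rot_mul (c d : Circle) (v : ℂ × ℂ) : rot (c * d) v = rot d (rot c v) := by
  simp only [rot, Circle.coe_mul, Prod.mk.injEq]
  constructor <;> ring

lemma rot_fix (c : Circle) (v : ℂ × ℂ) (hv : v ≠ 0) (h : rot c v = v) : c = 1 := by
  have h1 := congrArg Prod.fst h
  have h2 := congrArg Prod.snd h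
  simp only [rot] at h1 h2
  have h3 : v.1 ≠ 0 ∨ v.2 ≠ 0 := by
    by_contra hc
    push Not at hc
    exact hv (Prod.ext hc.1 hc.2)
  apply Circle.ext
  rw [Circle.coe_one]
  rcases h3 with h3 | h3
  · exact mul_right_cancel₀ h3 (h1.trans (one_mul _).symm)
  · exact mul_right_cancel₀ h3 (h2.trans (one_mul _).symm)

lemma continuous_rot : Continuous (fun p : Circle × (ℂ × ℂ) => rot p.1 p.2) := by
  unfold rot
  fun_prop

/-- the action -/
def actX : C(XX × Gr, XX) where
  toFun p j := ⟨rot (p.2.1 j) (p.1 j).1, by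
    rw [mem_sphere_zero_iff_norm, norm_rot]
    exact mem_sphere_zero_iff_norm.1 (p.1 j).2⟩
  continuous_toFun := by
    apply continuous_pi
    intro j
    apply Continuous.subtype_mk
    exact continuous_rot.comp
      (g := fun p : Circle × (ℂ × ℂ) => rot p.1 p.2)
      (f := fun p : XX × Gr => ((p.2.1 j : Circle), ((p.1 j).1 : ℂ × ℂ)))
      (Continuous.prodMk ((continuous_apply j).comp (continuous_subtype_val.comp continuous_snd))
        (continuous_subtype_val.comp ((continuous_apply j).comp continuous_fst)))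

/-- the homotopy -/
def hmt (n : ℕ) (t : ℝ) (v : ℂ × ℂ) : ℂ × ℂ :=
  (t * (v.1 ^ n + v.2 ^ (n * (n + 1))), t * (conj v.1 * v.2 ^ (n + 1)) - (1 - t))

lemma hmt_ne (n : ℕ) (hn : 0 < n) (t : ℝ) (ht0 : 0 ≤ t) (ht1 : t ≤ 1) (v : ℂ × ℂ) (hv : v ≠ 0) :
    hmt n t v ≠ 0 := by
  intro h
  have h1 := congrArg Prod.fst h
  have h2 := congrArg Prod.snd h
  simp only [hmt, Prod.fst_zero, Prod.snd_zero] at h1 h2
  rcases eq_or_lt_of_le ht0 with rfl | ht
  · simp at h2
  have htc : (t : ℂ) ≠ 0 := by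
    exact_mod_cast ht.ne'
  have h3 : v.1 ^ n + v.2 ^ (n * (n + 1)) = 0 := by
    rcases mul_eq_zero.1 h1 with h | h
    · exact absurd h htc
    · exact h
  have h4 : (t : ℂ) * (conj v.1 * v.2 ^ (n + 1)) = (1 - t : ℝ) := by
    push_cast
    exact sub_eq_zero.1 h2
  have h5 : ((t : ℂ) * (conj v.1 * v.2 ^ (n + 1))) ^ n = ((1 - t : ℝ) : ℂ) ^ n := by rw [h4]
  have h6 : ((t : ℂ) * (conj v.1 * v.2 ^ (n + 1))) ^ n = -((t * Complex.normSq v.1 : ℝ) : ℂ) ^ n := by
    rw [mul_pow, mul_pow, ← pow_mul, mul_comm (n + 1) n,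
      show v.2 ^ (n * (n + 1)) = - v.1 ^ n from by linear_combination h3]
    push_cast
    rw [mul_pow, ← Complex.mul_conj, mul_pow]
    ring
  rw [h6] at h5
  have h7 : -(t * Complex.normSq v.1) ^ n = (1 - t) ^ n := by
    exact_mod_cast h5
  have h8 : 0 ≤ (1 - t) ^ n := pow_nonneg (by linarith) _
  have h9 : 0 ≤ (t * Complex.normSq v.1) ^ n :=
    pow_nonneg (mul_nonneg ht0 (Complex.normSq_nonneg _)) _
  have h10 : (t * Complex.normSq v.1) ^ n = 0 := by linarith
  have h11 : t * Complex.normSq v.1 = 0 := by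
    exact pow_eq_zero_iff (hn.ne') |>.1 h10
  have h12 : v.1 = 0 := by
    rcases mul_eq_zero.1 h11 with h | h
    · exact absurd h ht.ne'
    · exact Complex.normSq_eq_zero.1 h
  rw [h12, zero_pow hn.ne', zero_add] at h3
  have h13 : v.2 = 0 := by
    refine (pow_eq_zero_iff ?_).1 h3
    positivity
  exact hv (Prod.ext h12 h13)

lemma hmt_rot (n : ℕ) (c : Circle) (hc : c ^ (n * n) = 1) (v : ℂ × ℂ) :
    hmt n 1 (rot c v) = rot (c ^ n) (hmt n 1 v) := by
  have h1 : (c : ℂ) ^ (n * n) = 1 := by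
    rw [← Circle.coe_pow, hc, Circle.coe_one]
  have h2 : conj (c : ℂ) * c = 1 := by
    rw [← Complex.normSq_eq_conj_mul_self, Circle.normSq_coe, Complex.ofReal_one]
  simp only [hmt, rot, Circle.coe_pow, Prod.mk.injEq]
  constructor
  · rw [mul_pow, mul_pow, show n * (n + 1) = n * n + n by ring, pow_add (c : ℂ) (n * n), h1]
    ring
  · rw [map_mul, mul_pow, pow_succ (c : ℂ) n]
    push_cast
    linear_combination ((c : ℂ) ^ n * conj v.1 * v.2 ^ (n + 1)) * h2

/-- the family of self-maps -/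
def sig : C(unitInterval × XX, XX) where
  toFun p j := ⟨(‖hmt (qq j) (p.1 : ℝ) (p.2 (j + 1)).1‖⁻¹ : ℝ) •
      hmt (qq j) (p.1 : ℝ) (p.2 (j + 1)).1, by
    rw [mem_sphere_zero_iff_norm, norm_smul, norm_inv, norm_norm]
    apply inv_mul_cancel₀
    rw [norm_ne_zero_iff]
    exact hmt_ne _ (qq_pos j) _ p.1.2.1 p.1.2.2 _ (sp_ne _)⟩
  continuous_toFun := by
    apply continuous_pi
    intro j
    apply Continuous.subtype_mk
    have h : Continuous (fun p : unitInterval × XX => hmt (qq j) (p.1 : ℝ) (p.2 (j + 1)).1) := by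
      unfold hmt
      have hc : Continuous (fun p : unitInterval × XX => ((p.2 (j + 1)).1 : ℂ × ℂ)) := by
        fun_prop
      have h1 := hc.fst
      have h2 := hc.snd
      have h3 : Continuous (fun p : unitInterval × XX => ((p.1 : ℝ) : ℂ)) := by fun_prop
      apply Continuous.prodMk
      · exact h3.mul ((h1.pow _).add (h2.pow _))
      · exact (h3.mul ((Complex.continuous_conj.comp h1).mul (h2.pow _))).sub
          (continuous_const.sub h3)
    refine Continuous.smul (h.norm.inv₀ ?_) h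
    intro p
    rw [norm_ne_zero_iff]
    exact hmt_ne _ (qq_pos j) _ p.1.2.1 p.1.2.2 _ (sp_ne _)

/-- the base point -/
def bpt : XX := fun j => ⟨(0, -1), by simp [Prod.norm_def]⟩

instance : Nonempty XX := ⟨bpt⟩

/-- The type 1 noncommutative Borsuk–Ulam conjecture is false. -/
theorem main : ∃ (G : CompactQuantumGroup) (A : Alg) (α : Coaction G A),
    G.NonTrivial ∧ Nontrivial A.carrier ∧ α.Free ∧
    (∃ φ : Hom A (paths α.AH.alg), (∀ a, φ a ∈ α.join) ∧ α.Equivariant φ) ∧
    (∀ h k : G.H.carrier, h * k = k * h) ∧ ∀ a b : A.carrier, a * b = b * a := by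
  refine exists_example (G := Gr) (X := XX) actX ?_ ?_ ?_ sig bpt ?_ ?_
  · intro x
    funext j
    exact Subtype.ext (rot_one _)
  · intro x g h
    funext j
    exact Subtype.ext (rot_mul _ _ _)
  · intro x g h
    apply Subtype.ext
    funext j
    have := congrArg Subtype.val (congrFun h j)
    exact rot_fix _ _ (sp_ne _) this
  · intro x
    funext j
    apply Subtype.ext
    simp [sig, hmt, Prod.norm_def, bpt]
  · intro x g
    funext j
    apply Subtype.ext
    change (‖hmt (qq j) ((1 : unitInterval) : ℝ) (rot (g.1 (j + 1)) (x (j + 1)).1)‖⁻¹ : ℝ) •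
      hmt (qq j) ((1 : unitInterval) : ℝ) (rot (g.1 (j + 1)) (x (j + 1)).1) =
      rot (g.1 j) ((‖hmt (qq j) ((1 : unitInterval) : ℝ) (x (j + 1)).1‖⁻¹ : ℝ) •
        hmt (qq j) ((1 : unitInterval) : ℝ) (x (j + 1)).1)
    have hg := g.2 j
    have hg' := (g.2 (j + 1)).2
    rw [qq_succ] at hg'
    rw [Set.Icc.coe_one, hmt_rot _ _ hg', hg.1, norm_rot]
    simp only [rot, Prod.smul_mk, Prod.smul_fst, Prod.smul_snd, mul_smul_comm]

end

end Pool.Agent.Helper71.QBU
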