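import Mathlib

set_option autoImplicit false

namespace Pool.Agent.Helper71.QBU

/-- A unital C*-algebra. -/
structure Alg where
  carrier : Type
  [cstar : CStarAlgebra carrier]

attribute [instance] Alg.cstar

/-- Unital *-homomorphisms `A → B`. -/
def Hom (A B : Alg) : Type := A.carrier →⋆ₐ[ℂ] B.carrier

/-- The value of a unital *-homomorphism. -/
def Hom.app {A B : Alg} (f : Hom A B) (a : A.carrier) : B.carrier :=
  (show A.carrier →⋆ₐ[ℂ] B.carrier from f) a

instance {A B : Alg} : CoeFun (Hom A B) (fun _ => A.carrier → B.carrier) := ⟨Hom.app⟩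

/-- The composition `g ∘ f`. -/
def Hom.comp {A B C : Alg} (g : Hom B C) (f : Hom A B) : Hom A C := StarAlgHom.comp g f

/-- The identity homomorphism. -/
def Hom.id (A : Alg) : Hom A A := StarAlgHom.id ℂ A.carrier

/-- The products `i a * j b` span a dense subspace of `C`. -/
def ProductsDense {A B C : Alg} (i : Hom A C) (j : Hom B C) : Prop :=
  closure (Submodule.span ℂ {c : C.carrier | ∃ a b, c = i a * j b} : Set C.carrier) = Set.univ

/-- A complex Hilbert space. -/
structure Hilb where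
  carrier : Type
  [normed : NormedAddCommGroup carrier]
  [inner : InnerProductSpace ℂ carrier]
  [complete : CompleteSpace carrier]

attribute [instance] Hilb.normed Hilb.inner Hilb.complete

/-- The C*-algebra of bounded operators on `K`. -/
noncomputable def bounded (K : Hilb) : Alg := ⟨K.carrier →L[ℂ] K.carrier⟩

/-- The algebraic tensor product of the Hilbert spaces `K` and `L`. -/
def TensorSp (K L : Hilb) : Type := TensorProduct ℂ K.carrier L.carrier

/-- Its norm, given by the inner product. -/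
noncomputable instance TensorSp.normed (K L : Hilb) : NormedAddCommGroup (TensorSp K L) :=
  show NormedAddCommGroup (TensorProduct ℂ K.carrier L.carrier) from inferInstance

/-- Its inner product. -/
noncomputable instance TensorSp.inner (K L : Hilb) : InnerProductSpace ℂ (TensorSp K L) :=
  show InnerProductSpace ℂ (TensorProduct ℂ K.carrier L.carrier) from inferInstance

/-- The operator `S ⊗ T`. -/
noncomputable def tensorOp {K L : Hilb} (S : (bounded K).carrier) (T : (bounded L).carrier) :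
    TensorSp K L →L[ℂ] TensorSp K L :=
  TensorProduct.mapL (show K.carrier →L[ℂ] K.carrier from S)
    (show L.carrier →L[ℂ] L.carrier from T)

/-- The homomorphisms `i : A → C`, `j : B → C` exhibit the C*-algebra `C` as the minimal
(spatial) tensor product of `A` and `B`, where `i a` is `a ⊗ 1` and `j b` is `1 ⊗ b`: the images
commute, the elements `i a * j b` span a dense subspace, and the norm of `∑ i (a k) * j (b k)` is
the operator norm of `∑ π (a k) ⊗ ρ (b k)` for some faithful representations `π`, `ρ` of `A`, `B`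
on Hilbert spaces. -/
structure IsSpatial {A B C : Alg} (i : Hom A C) (j : Hom B C) : Prop where
  commute : ∀ a b, i a * j b = j b * i a
  dense : ProductsDense i j
  spatial : ∃ (K L : Hilb) (π : Hom A (bounded K)) (ρ : Hom B (bounded L)),
    Function.Injective π.app ∧ Function.Injective ρ.app ∧
    ∀ (n : ℕ) (a : Fin n → A.carrier) (b : Fin n → B.carrier),
      ‖∑ k, i (a k) * j (b k)‖ = ‖∑ k, tensorOp (π (a k)) (ρ (b k))‖

/-- A (choice of the) minimal tensor product `A ⊗ B`. -/
structure Tensor (A B : Alg) where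
  alg : Alg
  /-- `a ↦ a ⊗ 1` -/
  inl : Hom A alg
  /-- `b ↦ 1 ⊗ b` -/
  inr : Hom B alg
  isSpatial : IsSpatial inl inr

/-- A (choice of the) threefold minimal tensor product `A ⊗ B ⊗ C`, identified both with
`(A ⊗ B) ⊗ C` and with `A ⊗ (B ⊗ C)`. -/
structure Tensor3 {A B C : Alg} (AB : Tensor A B) (BC : Tensor B C) where
  alg : Alg
  /-- `x ↦ x ⊗ 1` -/
  left : Hom AB.alg alg
  /-- `y ↦ 1 ⊗ y` -/
  right : Hom BC.alg alg
  middle : ∀ b, left (AB.inr b) = right (BC.inl b)
  isSpatial_left : IsSpatial left (right.comp BC.inr)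
  isSpatial_right : IsSpatial (left.comp AB.inl) right

/-- `F : C → C'` is the tensor product `f ⊗ g` of `f : A → A'` and `g : B → B'`, where `C` is the
tensor product of `A`, `B` via `i`, `j` and `C'` is the tensor product of `A'`, `B'` via
`i'`, `j'`. -/
def IsTensorHom {A B C A' B' C' : Alg} (i : Hom A C) (j : Hom B C) (i' : Hom A' C')
    (j' : Hom B' C') (f : Hom A A') (g : Hom B B') (F : Hom C C') : Prop :=
  (∀ a, F (i a) = i' (f a)) ∧ ∀ b, F (j b) = j' (g b)

/-- A compact quantum group `(H, Δ)`. -/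
structure CompactQuantumGroup where
  H : Alg
  /-- `H ⊗ H` -/
  HH : Tensor H H
  /-- `H ⊗ H ⊗ H` -/
  HHH : Tensor3 HH HH
  Δ : Hom H HH.alg
  /-- `(Δ ⊗ id) ∘ Δ = (id ⊗ Δ) ∘ Δ` -/
  coassoc : ∃ F G : Hom HH.alg HHH.alg,
    IsTensorHom HH.inl HH.inr HHH.left (HHH.right.comp HH.inr) Δ (Hom.id H) F ∧
    IsTensorHom HH.inl HH.inr (HHH.left.comp HH.inl) HHH.right (Hom.id H) Δ G ∧
    ∀ h, F (Δ h) = G (Δ h)
  /-- `Δ(H)(1 ⊗ H)` has dense linear span -/
  dense_right : ProductsDense Δ HH.inr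
  /-- `Δ(H)(H ⊗ 1)` has dense linear span -/
  dense_left : ProductsDense Δ HH.inl

/-- The compact quantum group is non-trivial: `H ≠ ℂ 1`. -/
def CompactQuantumGroup.NonTrivial (G : CompactQuantumGroup) : Prop :=
  ∃ h : G.H.carrier, ∀ c : ℂ, h ≠ algebraMap ℂ G.H.carrier c

/-- A coaction `δ : A → A ⊗ H` of the compact quantum group `(H, Δ)` on `A`. -/
structure Coaction (G : CompactQuantumGroup) (A : Alg) where
  /-- `A ⊗ H` -/
  AH : Tensor A G.H
  /-- `A ⊗ H ⊗ H` -/
  AHH : Tensor3 AH G.HH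
  δ : Hom A AH.alg
  injective : Function.Injective δ.app
  /-- `(δ ⊗ id) ∘ δ = (id ⊗ Δ) ∘ δ` -/
  coassoc : ∃ F D : Hom AH.alg AHH.alg,
    IsTensorHom AH.inl AH.inr AHH.left (AHH.right.comp G.HH.inr) δ (Hom.id G.H) F ∧
    IsTensorHom AH.inl AH.inr (AHH.left.comp AH.inl) AHH.right (Hom.id A) G.Δ D ∧
    ∀ a, F (δ a) = D (δ a)
  /-- `δ(A)(1 ⊗ H)` has dense linear span in `A ⊗ H` -/
  dense : ProductsDense δ AH.inr

/-- The C*-algebra `C([0,1], B)`. -/
noncomputable def paths (B : Alg) : Alg := ⟨C(unitInterval, B.carrier)⟩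

/-- The value of `f ∈ C([0,1], B)` at `t`. -/
def eval {B : Alg} (f : (paths B).carrier) (t : unitInterval) : B.carrier :=
  (show C(unitInterval, B.carrier) from f) t

namespace Coaction

variable {G : CompactQuantumGroup} {A : Alg}

/-- The coaction is free: `(A ⊗ 1) δ(A)` has dense linear span in `A ⊗ H`. -/
def Free (α : Coaction G A) : Prop := ProductsDense α.AH.inl α.δ

/-- The equivariant noncommutative join `A *_δ H`: the continuous functions
`f : [0,1] → A ⊗ H` with `f 0 ∈ ℂ ⊗ H` and `f 1 ∈ δ(A)`. -/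
def join (α : Coaction G A) : Set (paths α.AH.alg).carrier :=
  {f | (∃ h, eval f 0 = α.AH.inr h) ∧ ∃ a, eval f 1 = α.δ a}

/-- The unital *-homomorphism `φ : A → A *_δ H ⊆ C([0,1], A ⊗ H)` is `H`-equivariant for `δ` and
`δ_Δ`: `δ_Δ ∘ φ = (φ ⊗ id) ∘ δ`. Here `δ_Δ` is the restriction of `id ⊗ Δ`, applied at each
`t ∈ [0,1]`, and `Φ = φ ⊗ id : A ⊗ H → (A *_δ H) ⊗ H ⊆ C([0,1], A ⊗ H ⊗ H)`. -/
def Equivariant (α : Coaction G A) (φ : Hom A (paths α.AH.alg)) : Prop :=
  ∃ (Φ : Hom α.AH.alg (paths α.AHH.alg)) (D : Hom α.AH.alg α.AHH.alg),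
    (∀ a t, eval (Φ (α.AH.inl a)) t = α.AHH.left (eval (φ a) t)) ∧
    (∀ h t, eval (Φ (α.AH.inr h)) t = α.AHH.right (G.HH.inr h)) ∧
    IsTensorHom α.AH.inl α.AH.inr (α.AHH.left.comp α.AH.inl) α.AHH.right (Hom.id A) G.Δ D ∧
    ∀ a t, D (eval (φ a) t) = eval (Φ (α.δ a)) t

end Coaction

end Pool.Agent.Helper71.QBU
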