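import Mathlib

set_option autoImplicit false
open MeasureTheory Set

namespace Pool.Agent.Helper71

attribute [local instance] instMeasureSpaceUnitAddCircle

noncomputable section

/-- The half open unit cube. -/
def cube : Set (Fin 2 → ℝ) := {x | ∀ i, x i ∈ Ioc ((0 : Fin 2 → ℝ) i) ((0 : Fin 2 → ℝ) i + 1)}

lemma measurableSet_cube : MeasurableSet cube :=
  MeasurableSet.univ_pi' (fun _ => measurableSet_Ioc)

/-- Uniqueness of Fourier coefficients on the unit cube. -/
lemma torus_unique (h : (Fin 2 → ℝ) → ℂ) (hh : MemLp h 2 (volume.restrict cube))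
    (h0 : ∀ n : Fin 2 → ℤ, ∫ x in cube,
      Complex.exp (-(2 * Real.pi * Complex.I * ((n 0 * x 0 + n 1 * x 1 : ℝ) : ℂ))) * h x = 0) :
    ∀ᵐ x ∂(volume.restrict cube), h x = 0 := by
  classical
  -- the function on the torus
  set e := UnitAddTorus.measurableEquivPiIoc (ι := Fin 2) 0 with he
  have hmp : MeasurePreserving e volume (Measure.comap Subtype.val volume) :=
    UnitAddTorus.measurePreserving_equivPiIoc 0
  set f : UnitAddTorus (Fin 2) → ℂ := fun z => h (e z).1 with hf
  have hval : MeasurePreserving (Subtype.val : {x : Fin 2 → ℝ // ∀ i, x i ∈ Ioc ((0 : Fin 2 → ℝ) i) ((0 : Fin 2 → ℝ) i + 1)} → (Fin 2 → ℝ))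
      (Measure.comap Subtype.val volume) (volume.restrict cube) := by
    refine ⟨measurable_subtype_coe, ?_⟩
    exact map_comap_subtype_coe measurableSet_cube volume
  have hmp2 : MeasurePreserving (fun z => (e z).1) volume (volume.restrict cube) :=
    hval.comp hmp
  have hfL : MemLp f 2 volume := hh.comp_measurePreserving hmp2
  have hcoeff : ∀ n, UnitAddTorus.mFourierCoeff f n = 0 := by
    intro n
    rw [UnitAddTorus.mFourierCoeff_eq_integral f n 0]
    rw [← h0 n]
    apply setIntegral_congr_fun measurableSet_cube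
    intro x hx
    have h1 : (e fun i => ((x i : ℝ) : UnitAddCircle)).1 = x := by
      have : e.symm ⟨x, hx⟩ = fun i => ((x i : ℝ) : UnitAddCircle) := rfl
      rw [← this, MeasurableEquiv.apply_symm_apply]
    simp only [hf, h1, smul_eq_mul]
    congr 1
    simp only [UnitAddTorus.mFourier, ContinuousMap.coe_mk, Fin.prod_univ_two, Pi.neg_apply,
      fourier_coe_apply, ← Complex.exp_add]
    congr 1
    push_cast
    ring
  have hsum := UnitAddTorus.hasSum_sq_mFourierCoeff (hfL.toLp f)
  have hc : ∀ n, UnitAddTorus.mFourierCoeff (hfL.toLp f) n = 0 := by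
    intro n
    rw [← hcoeff n]
    exact integral_congr_ae (ae_eq_rfl.mul hfL.coeFn_toLp)
  simp only [hc, norm_zero, ne_eq, OfNat.ofNat_ne_zero, not_false_eq_true, zero_pow] at hsum
  have hz : ∫ t, ‖(hfL.toLp f) t‖ ^ 2 = 0 := hsum.unique hasSum_zero
  have hz2 : ∫ t, ‖f t‖ ^ 2 = 0 := by
    rw [← hz]
    apply integral_congr_ae
    filter_upwards [hfL.coeFn_toLp] with t ht
    rw [ht]
  have hz3 : ∫ x in cube, ‖h x‖ ^ 2 = 0 := by
    rw [← hz2, ← hmp2.map_eq, integral_map hmp2.measurable.aemeasurable]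
    rw [hmp2.map_eq]
    exact (hh.1.norm.pow 2)
  have hint : Integrable (fun x => ‖h x‖ ^ 2) (volume.restrict cube) :=
    hh.integrable_norm_pow (by norm_num)
  rw [integral_eq_zero_iff_of_nonneg (fun t => by positivity) hint] at hz3
  filter_upwards [hz3] with z hz
  simpa using hz

end

end Pool.Agent.Helper71
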